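import Pool.Agent.Helper33.XD.Pt

set_option autoImplicit false

namespace Pool.Agent.Helper33.XD

open Complex Filter Topology Set MeasureTheory
open scoped Real

lemma fact_le {m : ℕ} (hm : 1 ≤ m) :
    (m.factorial : ℝ) ≤ Real.exp 1 * √m * (m / Real.exp 1) ^ m := by
  have h1 : Stirling.stirlingSeq m ≤ Stirling.stirlingSeq 1 := by
    obtain ⟨k, rfl⟩ : ∃ k, m = k + 1 := ⟨m - 1, by omega⟩
    exact Stirling.stirlingSeq'_antitone (Nat.zero_le k)
  rw [Stirling.stirlingSeq_one] at h1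
  unfold Stirling.stirlingSeq at h1
  have hm0 : (0 : ℝ) < m := by exact_mod_cast hm
  rw [div_le_iff₀ (by positivity)] at h1
  refine h1.trans (le_of_eq ?_)
  rw [Real.sqrt_mul (by norm_num)]
  have : √2 ≠ 0 := by positivity
  field_simp

lemma low_R {m : ℕ} (hm : 4 ≤ m) {R : ℝ} (hR : (R - m) ^ 2 ≤ m) (hR0 : (m : ℝ) / 2 ≤ R) :
    Real.exp R / √m ≤ 21 * (R ^ m / m.factorial) := by
  have hm4 : (4 : ℝ) ≤ m := by exact_mod_cast hm
  have hm0 : (0 : ℝ) < m := by linarith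
  have hRp : 0 < R := by linarith
  have hf := fact_le (by omega : 1 ≤ m)
  have hfp : (0 : ℝ) < m.factorial := by positivity
  have h1 : (m : ℝ) * (1 - m / R) ≤ m * Real.log (R / m) := by
    gcongr
    have h2 := Real.one_sub_inv_le_log_of_pos (div_pos hRp hm0)
    rwa [inv_div] at h2
  have h2 : R - m - 2 ≤ m * (1 - m / R) := by
    have e : (m : ℝ) * (1 - m / R) = (R - m) - (R - m) ^ 2 / R := by
      field_simp
      ring
    rw [e]
    have : (R - m) ^ 2 / R ≤ 2 := by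
      rw [div_le_iff₀ hRp]
      linarith
    linarith
  have h3 : Real.exp (R - m - 2) ≤ (R / m) ^ m := by
    rw [← Real.rpow_natCast, Real.rpow_def_of_pos (div_pos hRp hm0)]
    apply Real.exp_le_exp.2
    rw [mul_comm (Real.log _)]
    linarith
  have he3 : Real.exp 3 ≤ 21 := by
    have := Real.exp_one_lt_d9
    have h5 : Real.exp 3 = Real.exp 1 ^ 3 := by
      rw [← Real.exp_nat_mul]
      norm_num
    rw [h5]
    calc Real.exp 1 ^ 3 ≤ 2.7182818286 ^ 3 := by gcongr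
      _ ≤ 21 := by norm_num
  rw [div_le_iff₀ (by positivity)]
  have h4 : (m.factorial : ℝ) * Real.exp R ≤ 21 * R ^ m * √m := by
    calc (m.factorial : ℝ) * Real.exp R
        ≤ (Real.exp 1 * √m * (m / Real.exp 1) ^ m) * Real.exp R := by gcongr
      _ = √m * (m : ℝ) ^ m * (Real.exp 3 * Real.exp (R - m - 2)) := by
          rw [div_pow, ← Real.exp_nat_mul, mul_one, ← Real.exp_add]
          rw [show Real.exp 1 * √m * ((m : ℝ) ^ m / Real.exp m) * Real.exp R =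
            √m * (m : ℝ) ^ m * (Real.exp 1 * Real.exp R / Real.exp m) by ring]
          rw [← Real.exp_add, ← Real.exp_sub]
          congr 2
          ring
      _ ≤ √m * (m : ℝ) ^ m * (21 * (R / m) ^ m) := by gcongr
      _ = _ := by
          rw [div_pow]
          field_simp
  rw [show 21 * (R ^ m / (m.factorial : ℝ)) * √m = (21 * R ^ m * √m) / m.factorial by ring,
    le_div_iff₀ hfp]
  linarith

/-- the main term -/
noncomputable def MM (m : ℕ) (ρ : ℝ) (s : ℂ) : ℂ :=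
  GG s * ((2 * π / m.factorial * ρ ^ m : ℝ) * ell s ^ m)

lemma norm_MM (m : ℕ) {ρ : ℝ} (hρ : 0 < ρ) (s : ℂ) :
    ‖GG s‖ * ((ρ * ‖ell s‖) ^ m / m.factorial) ≤ ‖MM m ρ s‖ := by
  unfold MM
  rw [norm_mul, norm_mul, norm_pow, norm_real, Real.norm_of_nonneg (by positivity)]
  gcongr
  rw [mul_pow]
  have h1 : (1 : ℝ) ≤ 2 * π := by have := Real.pi_gt_three; linarith
  have h2 : 0 ≤ ρ ^ m * ‖ell s‖ ^ m / (m.factorial : ℝ) := by positivity
  calc _ ≤ (2 * π) * (ρ ^ m * ‖ell s‖ ^ m / (m.factorial : ℝ)) := by nlinarith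
    _ = _ := by ring

/-- the comparison, in terms of a bound for the integrand -/
lemma compare {m : ℕ} {ρ : ℝ} (hρ : 0 < ρ) {s : ℂ} (hs : 0 < s.re) (hn : 2 * π ≤ ‖s‖)
    {P : ℝ → ℝ} (hP : Continuous P)
    (hb : ∀ ψ ∈ Icc (-(π / 2)) (π / 2), ‖Lam (s + cw ρ ψ) - GG s * exp (cw ρ ψ * ell s)‖ ≤ ‖GG s‖ * P ψ) :
    ‖EE m ρ s - MM m ρ s‖ ≤ ‖GG s‖ * ((∫ ψ in (-(π / 2))..(π / 2), P ψ) + π * Real.exp (2 * ρ)) := by
  have hpi := Real.pi_pos
  have hc1 : Continuous fun ψ : ℝ => exp (cw ρ ψ * ell s) * exp (-(m * ψ) * I) := by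
    have := continuous_cw ρ
    fun_prop
  have hc2 := cont_int Lam differentiable_Lam.continuous m ρ s
  have h1 := expo_arc m hρ (ell s)
  rw [← intervalIntegral.integral_add_adjacent_intervals (b := π / 2)
    (hc1.intervalIntegrable _ _) (hc1.intervalIntegrable _ _)] at h1
  have h2 : EE m ρ s - MM m ρ s =
      (∫ ψ in (-(π / 2))..(π / 2), (Lam (s + cw ρ ψ) - GG s * exp (cw ρ ψ * ell s)) * exp (-(m * ψ) * I)) -
      GG s * ∫ ψ in (π / 2)..(3 * π / 2), exp (cw ρ ψ * ell s) * exp (-(m * ψ) * I) := by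
    unfold MM
    rw [← h1, mul_add]
    unfold EE
    have e : ∫ ψ in (-(π / 2))..(π / 2), (Lam (s + cw ρ ψ) - GG s * exp (cw ρ ψ * ell s)) * exp (-(m * ψ) * I) =
        (∫ ψ in (-(π / 2))..(π / 2), Lam (s + cw ρ ψ) * exp (-(m * ψ) * I)) -
        GG s * ∫ ψ in (-(π / 2))..(π / 2), exp (cw ρ ψ * ell s) * exp (-(m * ψ) * I) := by
      rw [← intervalIntegral.integral_const_mul, ← intervalIntegral.integral_sub
        (hc2.intervalIntegrable _ _) ((hc1.const_mul (GG s)).intervalIntegrable _ _)]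
      congr 1
      funext ψ
      ring
    rw [e]
    ring
  have hexp : ∀ ψ : ℝ, ‖exp (-(m * ψ) * I)‖ = 1 := by
    intro ψ
    have : -(m * ψ) * I = ((-(m * ψ) : ℝ) : ℂ) * I := by push_cast; ring
    rw [this, norm_exp_ofReal_mul_I]
  have h3 : ‖∫ ψ in (-(π / 2))..(π / 2), (Lam (s + cw ρ ψ) - GG s * exp (cw ρ ψ * ell s)) * exp (-(m * ψ) * I)‖ ≤
      ∫ ψ in (-(π / 2))..(π / 2), ‖GG s‖ * P ψ := by
    apply intervalIntegral.norm_integral_le_of_norm_le (by linarith)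
    · refine Eventually.of_forall fun ψ hψ => ?_
      rw [norm_mul, hexp, mul_one]
      exact hb ψ ⟨hψ.1.le, hψ.2⟩
    · exact (continuous_const.mul hP).intervalIntegrable _ _
  have h4 : ‖∫ ψ in (π / 2)..(3 * π / 2), exp (cw ρ ψ * ell s) * exp (-(m * ψ) * I)‖ ≤
      Real.exp (2 * ρ) * |3 * π / 2 - π / 2| := by
    apply intervalIntegral.norm_integral_le_of_norm_le_const
    intro ψ hψ
    rw [uIoc_of_le (by linarith)] at hψ
    rw [norm_mul, hexp, mul_one]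
    have h5 := left_pt hs hn (w := cw ρ ψ) (by
      rw [cw_re]
      apply mul_nonpos_of_nonneg_of_nonpos hρ.le
      apply Real.cos_nonpos_of_pi_div_two_le_of_le hψ.1.le
      linarith [hψ.2])
    rwa [norm_cw hρ.le] at h5
  rw [h2]
  rw [intervalIntegral.integral_const_mul] at h3
  have e5 : |3 * π / 2 - π / 2| = π := by
    rw [show 3 * π / 2 - π / 2 = π by ring, abs_of_pos hpi]
  rw [e5] at h4
  calc _ ≤ ‖GG s‖ * (∫ ψ in (-(π / 2))..(π / 2), P ψ) + ‖GG s‖ * (Real.exp (2 * ρ) * π) := by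
        refine (norm_sub_le _ _).trans (add_le_add h3 ?_)
        rw [norm_mul]
        gcongr
    _ = _ := by ring

/-- hypotheses on the size of the parameters -/
structure Good (m : ℕ) (ρ : ℝ) (s : ℂ) : Prop where
  m4 : 4 ≤ m
  ρ0 : 0 < ρ
  re : 3 ≤ s.re
  im : 13 * (ρ ^ 2 + 1) ≤ s.im
  L5 : 5 ≤ (ell s).re
  R : (ρ * ‖ell s‖ - m) ^ 2 ≤ m

lemma Good.half {m : ℕ} {ρ : ℝ} {s : ℂ} (h : Good m ρ s) : (m : ℝ) / 2 ≤ ρ * ‖ell s‖ := by
  have h1 := h.R
  have hm4 : (4 : ℝ) ≤ m := by exact_mod_cast h.m4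
  by_contra h2
  push Not at h2
  nlinarith

lemma Good.norm {m : ℕ} {ρ : ℝ} {s : ℂ} (h : Good m ρ s) : 2 * π ≤ ‖s‖ := by
  have h1 : s.im ≤ ‖s‖ := (le_abs_self _).trans (abs_im_le_norm s)
  have h2 := h.im
  have h3 := Real.pi_lt_d2
  nlinarith [sq_nonneg ρ]

lemma Good.ell2 {m : ℕ} {ρ : ℝ} {s : ℂ} (h : Good m ρ s) :
    ‖ell s - Real.log 2‖ ≤ ‖ell s‖ - 1 / 2 ∧ ‖ell s‖ / 2 ≤ ‖ell s - Real.log 2‖ := by
  have hlog1 := Real.log_two_gt_d9
  have hlog2 := Real.log_two_lt_d9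
  have him := ell_im_abs (s := s) (by linarith [h.re])
  have hre := h.L5
  have hn5 : 5 ≤ ‖ell s‖ := hre.trans ((le_abs_self _).trans (abs_re_le_norm _))
  have hn : ‖ell s‖ ≤ (ell s).re + 1.6 := by
    refine (norm_le_abs_re_add_abs_im _).trans ?_
    rw [abs_of_pos (by linarith)]
    linarith
  constructor
  · rw [← sq_le_sq₀ (norm_nonneg _) (by linarith)]
    have e1 : ‖ell s - Real.log 2‖ ^ 2 = ‖ell s‖ ^ 2 - 2 * Real.log 2 * (ell s).re + Real.log 2 ^ 2 := by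
      rw [← normSq_eq_norm_sq, ← normSq_eq_norm_sq, normSq_apply, normSq_apply]
      simp only [sub_re, ofReal_re, sub_im, ofReal_im]
      ring
    rw [e1]
    nlinarith
  · have h1 := norm_sub_norm_le (ell s) (Real.log 2 : ℝ)
    rw [norm_real, Real.norm_of_nonneg (by linarith)] at h1
    linarith

/-- consequences for the two arc integrals -/
lemma Good.arcs {m : ℕ} {ρ : ℝ} {s : ℂ} (h : Good m ρ s) :
    (∫ ψ in (-(π / 2))..(π / 2), Real.exp (cw ρ ψ * ell s).re) ≤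
        6 * (Real.exp (ρ * ‖ell s‖) / √m) ∧
    (∫ ψ in (-(π / 2))..(π / 2), Real.exp (cw ρ ψ * (ell s - Real.log 2)).re) ≤
        8 * Real.exp (-(ρ / 2)) * (Real.exp (ρ * ‖ell s‖) / √m) := by
  have hm4 : (4 : ℝ) ≤ m := by exact_mod_cast h.m4
  have hm0 : (0 : ℝ) < m := by linarith
  have hh := h.half
  have h2 := h.ell2
  have hρ := h.ρ0
  have hRp : 0 < ρ * ‖ell s‖ := by linarith
  have hn0 : 0 < ‖ell s‖ := by
    by_contra h5
    have : ‖ell s‖ = 0 := le_antisymm (not_lt.1 h5) (norm_nonneg _)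
    rw [this, mul_zero] at hRp
    exact lt_irrefl _ hRp
  have hsm : 0 < √(m : ℝ) := by positivity
  have hs2 : √(m : ℝ) ≤ 1.5 * √(ρ * ‖ell s‖) := by
    rw [Real.sqrt_le_left (by positivity), mul_pow, Real.sq_sqrt hRp.le]
    linarith
  have hs3 : √(m : ℝ) ≤ 2 * √(ρ * ‖ell s - Real.log 2‖) := by
    have h5 : (m : ℝ) / 4 ≤ ρ * ‖ell s - Real.log 2‖ := by
      have : ρ * (‖ell s‖ / 2) ≤ ρ * ‖ell s - Real.log 2‖ := by gcongr; exact h2.2
      linarith
    rw [Real.sqrt_le_left (by positivity), mul_pow, Real.sq_sqrt (by linarith)]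
    linarith
  constructor
  · refine (arc_exp_half hρ (norm_pos_iff.1 hn0)).trans ?_
    rw [div_le_iff₀ (by positivity)]
    have : 1 ≤ 1.5 * √(ρ * ‖ell s‖) / √m := by
      rw [le_div_iff₀ hsm]
      linarith
    calc 4 * Real.exp (ρ * ‖ell s‖) ≤ 4 * Real.exp (ρ * ‖ell s‖) * (1.5 * √(ρ * ‖ell s‖) / √m) :=
          le_mul_of_one_le_right (by positivity) this
      _ = _ := by ring
  · have hn1 : 0 < ‖ell s - Real.log 2‖ := by linarith [h2.2]
    refine (arc_exp_half hρ (norm_pos_iff.1 hn1)).trans ?_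
    have hpos : 0 < √(ρ * ‖ell s - Real.log 2‖) := Real.sqrt_pos.2 (by positivity)
    rw [div_le_iff₀ hpos]
    have h6 : 1 ≤ 2 * √(ρ * ‖ell s - Real.log 2‖) / √m := by
      rw [le_div_iff₀ hsm]
      linarith
    have h7 : Real.exp (ρ * ‖ell s - Real.log 2‖) ≤ Real.exp (-(ρ / 2)) * Real.exp (ρ * ‖ell s‖) := by
      rw [← Real.exp_add]
      apply Real.exp_le_exp.2
      have : ρ * ‖ell s - Real.log 2‖ ≤ ρ * (‖ell s‖ - 1 / 2) := by gcongr; exact h2.1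
      linarith
    calc 4 * Real.exp (ρ * ‖ell s - Real.log 2‖)
        ≤ 4 * (Real.exp (-(ρ / 2)) * Real.exp (ρ * ‖ell s‖)) := by gcongr
      _ ≤ 4 * (Real.exp (-(ρ / 2)) * Real.exp (ρ * ‖ell s‖)) *
          (2 * √(ρ * ‖ell s - Real.log 2‖) / √m) := le_mul_of_one_le_right (by positivity) h6
      _ = _ := by ring

lemma Good.fin {m : ℕ} {ρ : ℝ} {s : ℂ} (h : Good m ρ s) :
    ‖GG s‖ * (Real.exp (ρ * ‖ell s‖) / √m) ≤ 21 * ‖MM m ρ s‖ := by
  have h1 := low_R h.m4 h.R h.half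
  have h2 := norm_MM m h.ρ0 s
  have h3 : ‖GG s‖ * (Real.exp (ρ * ‖ell s‖) / √m) ≤ ‖GG s‖ * (21 * ((ρ * ‖ell s‖) ^ m / m.factorial)) := by
    gcongr
  linarith

/-- the error term -/
noncomputable def err (m : ℕ) (ρ : ℝ) (s : ℂ) : ℝ :=
  (ρ ^ 2 + 1) / s.im + √m * Real.exp (2 * ρ - ρ * ‖ell s‖)

lemma err_nonneg {m : ℕ} {ρ : ℝ} {s : ℂ} (h : Good m ρ s) : 0 ≤ err m ρ s := by
  have h1 := h.im
  have : 0 ≤ s.im := by nlinarith [sq_nonneg ρ]
  unfold err
  positivity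

lemma int2 (c1 c2 : ℝ) {f g : ℝ → ℝ} (hf : Continuous f) (hg : Continuous g) (a b : ℝ) :
    ∫ ψ in a..b, (c1 * f ψ + c2 * g ψ) = c1 * (∫ ψ in a..b, f ψ) + c2 * ∫ ψ in a..b, g ψ := by
  have i1 : IntervalIntegrable (fun ψ => c1 * f ψ) volume a b :=
    (continuous_const.mul hf).intervalIntegrable _ _
  have i2 : IntervalIntegrable (fun ψ => c2 * g ψ) volume a b :=
    (continuous_const.mul hg).intervalIntegrable _ _
  rw [intervalIntegral.integral_add i1 i2, intervalIntegral.integral_const_mul,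
    intervalIntegral.integral_const_mul]

lemma int3 (c1 c2 c3 : ℝ) {f g : ℝ → ℝ} (hf : Continuous f) (hg : Continuous g) (a b : ℝ) :
    ∫ ψ in a..b, (c1 * f ψ + c2 * g ψ + c3) =
      c1 * (∫ ψ in a..b, f ψ) + c2 * (∫ ψ in a..b, g ψ) + c3 * (b - a) := by
  have i1 : IntervalIntegrable (fun ψ => c1 * f ψ + c2 * g ψ) volume a b :=
    ((continuous_const.mul hf).add (continuous_const.mul hg)).intervalIntegrable _ _
  have i2 : IntervalIntegrable (fun _ : ℝ => c3) volume a b := intervalIntegrable_const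
  rw [intervalIntegral.integral_add i1 i2, int2 c1 c2 hf hg, intervalIntegral.integral_const,
    smul_eq_mul]
  ring

lemma approx_far : ∃ C : ℝ, 0 < C ∧ ∀ (m : ℕ) (ρ : ℝ) (s : ℂ), Good m ρ s → 8 ≤ s.re →
    ‖EE m ρ s - MM m ρ s‖ ≤ C * (err m ρ s + (2 : ℝ) ^ (-s.re) * Real.exp (-(ρ / 2))) * ‖MM m ρ s‖ := by
  obtain ⟨C1, hC1, hF⟩ := right_far
  refine ⟨21 * (78 + 8 * C1 + 4), by positivity, fun m ρ s h h8 => ?_⟩
  have hm4 : (4 : ℝ) ≤ m := by exact_mod_cast h.m4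
  have hρ := h.ρ0
  have hre := h.re
  have him := h.im
  have ht : 0 < s.im := by nlinarith [sq_nonneg ρ]
  have hcw := continuous_cw ρ
  have hP : Continuous fun ψ : ℝ => 13 * (ρ ^ 2 + 1) / s.im * Real.exp (cw ρ ψ * ell s).re
      + C1 * (2 : ℝ) ^ (-s.re) * Real.exp (cw ρ ψ * (ell s - Real.log 2)).re := by
    have h1 : Continuous fun ψ : ℝ => (cw ρ ψ * ell s).re := continuous_re.comp (by fun_prop)
    have h2 : Continuous fun ψ : ℝ => (cw ρ ψ * (ell s - Real.log 2)).re :=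
      continuous_re.comp (by fun_prop)
    fun_prop
  have h1 := compare (m := m) hρ (by linarith : 0 < s.re) h.norm hP (fun ψ hψ => by
    have hw : 0 ≤ (cw ρ ψ).re := by
      rw [cw_re]
      exact mul_nonneg hρ.le (Real.cos_nonneg_of_mem_Icc hψ)
    have h5 := hF s (cw ρ ψ) (by linarith) (by rw [add_re]; linarith) (by rw [norm_cw hρ.le]; exact him)
    rwa [norm_cw hρ.le] at h5)
  have ha := h.arcs
  have hfin := h.fin
  set X := Real.exp (ρ * ‖ell s‖) / √m with hX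
  have hX0 : 0 < X := by positivity
  have h2 : (∫ ψ in (-(π / 2))..(π / 2), (13 * (ρ ^ 2 + 1) / s.im * Real.exp (cw ρ ψ * ell s).re
      + C1 * (2 : ℝ) ^ (-s.re) * Real.exp (cw ρ ψ * (ell s - Real.log 2)).re)) ≤
      13 * (ρ ^ 2 + 1) / s.im * (6 * X) + C1 * (2 : ℝ) ^ (-s.re) * (8 * Real.exp (-(ρ / 2)) * X) := by
    have c1 : Continuous fun ψ : ℝ => Real.exp (cw ρ ψ * ell s).re :=
      Real.continuous_exp.comp (continuous_re.comp (by fun_prop))
    have c2 : Continuous fun ψ : ℝ => Real.exp (cw ρ ψ * (ell s - Real.log 2)).re :=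
      Real.continuous_exp.comp (continuous_re.comp (by fun_prop))
    rw [int2 _ _ c1 c2]
    gcongr
    · exact ha.1
    · exact ha.2
  have h3 : π * Real.exp (2 * ρ) ≤ 4 * (√m * Real.exp (2 * ρ - ρ * ‖ell s‖)) * X := by
    have hsm : √(m : ℝ) ≠ 0 := by positivity
    have e : 4 * (√m * Real.exp (2 * ρ - ρ * ‖ell s‖)) * X = 4 * Real.exp (2 * ρ) := by
      rw [hX, Real.exp_sub]
      field_simp
    rw [e]
    gcongr
    have := Real.pi_lt_d2
    linarith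
  have h4 : (∫ ψ in (-(π / 2))..(π / 2), (13 * (ρ ^ 2 + 1) / s.im * Real.exp (cw ρ ψ * ell s).re
      + C1 * (2 : ℝ) ^ (-s.re) * Real.exp (cw ρ ψ * (ell s - Real.log 2)).re)) + π * Real.exp (2 * ρ) ≤
      (78 + 8 * C1 + 4) * (err m ρ s + (2 : ℝ) ^ (-s.re) * Real.exp (-(ρ / 2))) * X := by
    refine (add_le_add h2 h3).trans ?_
    unfold err
    have p1 : 0 ≤ (ρ ^ 2 + 1) / s.im := by positivity
    have p2 : 0 ≤ √m * Real.exp (2 * ρ - ρ * ‖ell s‖) := by positivity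
    have p3 : 0 ≤ (2 : ℝ) ^ (-s.re) * Real.exp (-(ρ / 2)) := by positivity
    have e : 13 * (ρ ^ 2 + 1) / s.im * (6 * X) + C1 * (2 : ℝ) ^ (-s.re) * (8 * Real.exp (-(ρ / 2)) * X) +
        4 * (√m * Real.exp (2 * ρ - ρ * ‖ell s‖)) * X =
        (78 * ((ρ ^ 2 + 1) / s.im) + 8 * C1 * ((2 : ℝ) ^ (-s.re) * Real.exp (-(ρ / 2))) +
          4 * (√m * Real.exp (2 * ρ - ρ * ‖ell s‖))) * X := by ring
    rw [e]
    gcongr
    nlinarith
  calc _ ≤ ‖GG s‖ * ((78 + 8 * C1 + 4) * (err m ρ s + (2 : ℝ) ^ (-s.re) * Real.exp (-(ρ / 2))) * X) :=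
        h1.trans (by gcongr)
    _ = (78 + 8 * C1 + 4) * (err m ρ s + (2 : ℝ) ^ (-s.re) * Real.exp (-(ρ / 2))) * (‖GG s‖ * X) := by ring
    _ ≤ (78 + 8 * C1 + 4) * (err m ρ s + (2 : ℝ) ^ (-s.re) * Real.exp (-(ρ / 2))) * (21 * ‖MM m ρ s‖) := by
        have := err_nonneg h
        gcongr
    _ = _ := by ring

lemma approx_near : ∃ C : ℝ, 0 < C ∧ ∀ (m : ℕ) (ρ : ℝ) (s : ℂ), Good m ρ s → s.re ≤ 9 →
    ‖EE m ρ s - MM m ρ s‖ ≤ C * ((ρ ^ 2 + 1) / s.im + Real.exp (-(ρ / 2)) +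
      s.im ^ 10 * √m * Real.exp (2 * ρ - ρ * ‖ell s‖)) * ‖MM m ρ s‖ := by
  obtain ⟨C1, hC1, hF⟩ := right_far
  obtain ⟨C2, hC2, hN⟩ := right_near
  refine ⟨21 * (78 + 8 * C1 + 4 * C2 + 4), by positivity, fun m ρ s h h9 => ?_⟩
  have hm4 : (4 : ℝ) ≤ m := by exact_mod_cast h.m4
  have hρ := h.ρ0
  have hre := h.re
  have him := h.im
  have ht : 13 ≤ s.im := by nlinarith [sq_nonneg ρ]
  have hcw := continuous_cw ρ
  set Pf : ℝ → ℝ := fun ψ => 13 * (ρ ^ 2 + 1) / s.im * Real.exp (cw ρ ψ * ell s).re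
      + C1 * Real.exp (cw ρ ψ * (ell s - Real.log 2)).re + C2 * s.im ^ 10 * Real.exp (2 * ρ) with hPf
  have hP : Continuous Pf := by
    have h1 : Continuous fun ψ : ℝ => (cw ρ ψ * ell s).re := continuous_re.comp (by fun_prop)
    have h2 : Continuous fun ψ : ℝ => (cw ρ ψ * (ell s - Real.log 2)).re :=
      continuous_re.comp (by fun_prop)
    fun_prop
  have h1 := compare (m := m) hρ (by linarith : 0 < s.re) h.norm hP (fun ψ hψ => by
    have hw : 0 ≤ (cw ρ ψ).re := by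
      rw [cw_re]
      exact mul_nonneg hρ.le (Real.cos_nonneg_of_mem_Icc hψ)
    rcases le_total 8 (s + cw ρ ψ).re with h8 | h8
    · have h5 := hF s (cw ρ ψ) (by linarith) h8 (by rw [norm_cw hρ.le]; exact him)
      rw [norm_cw hρ.le] at h5
      refine h5.trans ?_
      have h6 : (2 : ℝ) ^ (-s.re) ≤ 1 :=
        Real.rpow_le_one_of_one_le_of_nonpos (by norm_num) (by linarith)
      have h7 : 0 ≤ C2 * s.im ^ 10 * Real.exp (2 * ρ) := by positivity
      have h10 : C1 * (2 : ℝ) ^ (-s.re) * Real.exp (cw ρ ψ * (ell s - Real.log 2)).re ≤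
          C1 * 1 * Real.exp (cw ρ ψ * (ell s - Real.log 2)).re := by gcongr
      gcongr
      simp only [hPf]
      linarith
    · have h5 := hN s (cw ρ ψ) hre h9 hw h8 (by rw [norm_cw hρ.le]; exact him)
      rw [norm_cw hρ.le] at h5
      refine h5.trans ?_
      have h7 : 0 ≤ 13 * (ρ ^ 2 + 1) / s.im * Real.exp (cw ρ ψ * ell s).re := by positivity
      have h10 : 0 ≤ C1 * Real.exp (cw ρ ψ * (ell s - Real.log 2)).re := by positivity
      gcongr
      simp only [hPf]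
      linarith)
  have ha := h.arcs
  have hfin := h.fin
  set X := Real.exp (ρ * ‖ell s‖) / √m with hX
  have hX0 : 0 < X := by positivity
  have h2 : (∫ ψ in (-(π / 2))..(π / 2), Pf ψ) ≤
      13 * (ρ ^ 2 + 1) / s.im * (6 * X) + C1 * (8 * Real.exp (-(ρ / 2)) * X) +
        C2 * s.im ^ 10 * Real.exp (2 * ρ) * π := by
    have c1 : Continuous fun ψ : ℝ => Real.exp (cw ρ ψ * ell s).re :=
      Real.continuous_exp.comp (continuous_re.comp (by fun_prop))
    have c2 : Continuous fun ψ : ℝ => Real.exp (cw ρ ψ * (ell s - Real.log 2)).re :=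
      Real.continuous_exp.comp (continuous_re.comp (by fun_prop))
    rw [hPf, int3 _ _ _ c1 c2, show π / 2 - -(π / 2) = π by ring]
    gcongr
    · exact ha.1
    · exact ha.2
  have hsm : √(m : ℝ) ≠ 0 := by positivity
  have e4 : Real.exp (2 * ρ) = √m * Real.exp (2 * ρ - ρ * ‖ell s‖) * X := by
    rw [hX, Real.exp_sub]
    field_simp
  set Y := √m * Real.exp (2 * ρ - ρ * ‖ell s‖) with hY
  have hY0 : 0 < Y := by positivity
  have hpi := Real.pi_lt_d2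
  have hpi0 := Real.pi_pos
  have h4 : (∫ ψ in (-(π / 2))..(π / 2), Pf ψ) + π * Real.exp (2 * ρ) ≤
      (78 + 8 * C1 + 4 * C2 + 4) * ((ρ ^ 2 + 1) / s.im + Real.exp (-(ρ / 2)) +
      s.im ^ 10 * √m * Real.exp (2 * ρ - ρ * ‖ell s‖)) * X := by
    have e5 : s.im ^ 10 * √m * Real.exp (2 * ρ - ρ * ‖ell s‖) = s.im ^ 10 * Y := by rw [hY]; ring
    rw [e5]
    rw [e4] at h2 ⊢
    have p1 : 0 ≤ (ρ ^ 2 + 1) / s.im := by positivity
    have p3 : 0 ≤ Real.exp (-(ρ / 2)) := by positivity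
    have p4 : 1 ≤ s.im ^ 10 := one_le_pow₀ (by linarith)
    have p5 : Y ≤ s.im ^ 10 * Y := le_mul_of_one_le_left hY0.le p4
    calc _ ≤ 13 * (ρ ^ 2 + 1) / s.im * (6 * X) + C1 * (8 * Real.exp (-(ρ / 2)) * X) +
        C2 * s.im ^ 10 * (Y * X) * π + π * (Y * X) := by gcongr
      _ = (78 * ((ρ ^ 2 + 1) / s.im) + 8 * C1 * Real.exp (-(ρ / 2)) +
          π * C2 * (s.im ^ 10 * Y) + π * Y) * X := by ring
      _ ≤ (78 * ((ρ ^ 2 + 1) / s.im) + 8 * C1 * Real.exp (-(ρ / 2)) +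
          4 * C2 * (s.im ^ 10 * Y) + 4 * (s.im ^ 10 * Y)) * X := by
          gcongr <;> linarith
      _ ≤ _ := by
          gcongr
          have q : 0 ≤ s.im ^ 10 * Y := by positivity
          nlinarith [mul_nonneg hC1.le p1, mul_nonneg hC2.le p1, mul_nonneg hC2.le p3,
            mul_nonneg hC1.le q, mul_nonneg hC1.le p3]
  calc _ ≤ ‖GG s‖ * ((78 + 8 * C1 + 4 * C2 + 4) * ((ρ ^ 2 + 1) / s.im + Real.exp (-(ρ / 2)) +
      s.im ^ 10 * √m * Real.exp (2 * ρ - ρ * ‖ell s‖)) * X) := h1.trans (by gcongr)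
    _ = (78 + 8 * C1 + 4 * C2 + 4) * ((ρ ^ 2 + 1) / s.im + Real.exp (-(ρ / 2)) +
      s.im ^ 10 * √m * Real.exp (2 * ρ - ρ * ‖ell s‖)) * (‖GG s‖ * X) := by ring
    _ ≤ (78 + 8 * C1 + 4 * C2 + 4) * ((ρ ^ 2 + 1) / s.im + Real.exp (-(ρ / 2)) +
      s.im ^ 10 * √m * Real.exp (2 * ρ - ρ * ‖ell s‖)) * (21 * ‖MM m ρ s‖) := by
        gcongr
    _ = _ := by ring

end Pool.Agent.Helper33.XD
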