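import Pool.Agent.Helper33.XD.Strip

set_option autoImplicit false

namespace Pool.Agent.Helper33.XD

open Complex Filter Topology Set MeasureTheory
open scoped Real

/-- the Laplace bound for the Bessel integral -/
lemma bessel {R : ℝ} (hR : 0 < R) :
    ∫ ψ in (-π)..π, Real.exp (R * Real.cos ψ) ≤ 4 * Real.exp R / √R := by
  have h1 : ∫ ψ in (-π)..π, Real.exp (R * Real.cos ψ) ≤
      ∫ ψ in (-π)..π, Real.exp R * Real.exp (-(2 * R / π ^ 2) * ψ ^ 2) := by
    apply intervalIntegral.integral_mono_on (by linarith [Real.pi_pos])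
    · exact (by fun_prop : Continuous fun ψ : ℝ => Real.exp (R * Real.cos ψ)).intervalIntegrable _ _
    · exact (by fun_prop : Continuous fun ψ : ℝ =>
        Real.exp R * Real.exp (-(2 * R / π ^ 2) * ψ ^ 2)).intervalIntegrable _ _
    · intro ψ hψ
      rw [← Real.exp_add]
      apply Real.exp_le_exp.2
      have h2 := Real.cos_le_one_sub_mul_cos_sq (x := ψ) (abs_le.2 ⟨hψ.1, hψ.2⟩)
      have h3 : R * Real.cos ψ ≤ R * (1 - 2 / π ^ 2 * ψ ^ 2) := by gcongr
      refine h3.trans (le_of_eq ?_)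
      ring
  refine h1.trans ?_
  rw [intervalIntegral.integral_const_mul]
  have hb : 0 < 2 * R / π ^ 2 := by positivity
  have h2 : ∫ ψ in (-π)..π, Real.exp (-(2 * R / π ^ 2) * ψ ^ 2) ≤ √(π / (2 * R / π ^ 2)) := by
    rw [← integral_gaussian, intervalIntegral.integral_of_le (by linarith [Real.pi_pos])]
    apply setIntegral_le_integral (integrable_exp_neg_mul_sq hb)
    exact Eventually.of_forall fun x => (Real.exp_pos _).le
  have h3 : √(π / (2 * R / π ^ 2)) ≤ 4 / √R := by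
    rw [Real.sqrt_le_left (by positivity), div_pow, Real.sq_sqrt hR.le]
    have e : π / (2 * R / π ^ 2) = (π ^ 3 / 2) / R := by field_simp
    rw [e]
    gcongr
    have := Real.pi_lt_d2
    have h0 := Real.pi_pos
    have : π ^ 3 ≤ 3.15 ^ 3 := by gcongr
    norm_num at this ⊢
    linarith
  calc _ ≤ Real.exp R * (4 / √R) := by
        gcongr
        exact h2.trans h3
    _ = _ := by ring

/-- `ρ e^(iψ)` -/
noncomputable def cw (ρ ψ : ℝ) : ℂ := ρ * exp (ψ * I)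

lemma cw_eq (ρ ψ : ℝ) : cw ρ ψ = circleMap 0 ρ ψ := by
  unfold cw circleMap
  simp

lemma norm_cw {ρ : ℝ} (hρ : 0 ≤ ρ) (ψ : ℝ) : ‖cw ρ ψ‖ = ρ := by
  unfold cw
  rw [norm_mul, norm_exp_ofReal_mul_I, mul_one, norm_real, Real.norm_of_nonneg hρ]

lemma cw_re (ρ ψ : ℝ) : (cw ρ ψ).re = ρ * Real.cos ψ := by
  unfold cw
  rw [re_ofReal_mul, exp_ofReal_mul_I_re]

lemma cw_im (ρ ψ : ℝ) : (cw ρ ψ).im = ρ * Real.sin ψ := by
  unfold cw
  rw [im_ofReal_mul, exp_ofReal_mul_I_im]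

lemma continuous_cw (ρ : ℝ) : Continuous (cw ρ) := by
  unfold cw
  fun_prop

lemma cw_mul_re (ρ ψ : ℝ) (ζ : ℂ) : (cw ρ ψ * ζ).re = ρ * ‖ζ‖ * Real.cos (ψ + arg ζ) := by
  have h1 : ζ = ‖ζ‖ * exp (arg ζ * I) := (norm_mul_exp_arg_mul_I ζ).symm
  have h2 : cw ρ ψ * ζ = ((ρ * ‖ζ‖ : ℝ) : ℂ) * exp (((ψ + arg ζ : ℝ) : ℂ) * I) := by
    conv_lhs => rw [h1]
    unfold cw
    rw [ofReal_add, add_mul, Complex.exp_add]
    push_cast
    ring
  rw [h2, re_ofReal_mul, exp_ofReal_mul_I_re]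

/-- the arc integral of the modulus of an exponential -/
lemma arc_exp {ρ : ℝ} (hρ : 0 < ρ) {ζ : ℂ} (hζ : ζ ≠ 0) :
    ∫ ψ in (-π)..π, Real.exp (cw ρ ψ * ζ).re ≤ 4 * Real.exp (ρ * ‖ζ‖) / √(ρ * ‖ζ‖) := by
  have hn : 0 < ‖ζ‖ := norm_pos_iff.2 hζ
  have h1 : ∀ ψ : ℝ, Real.exp (cw ρ ψ * ζ).re =
      (fun x : ℝ => Real.exp (ρ * ‖ζ‖ * Real.cos x)) (ψ + arg ζ) := by
    intro ψ
    rw [cw_mul_re]
  simp_rw [h1]
  rw [intervalIntegral.integral_comp_add_right (fun x : ℝ => Real.exp (ρ * ‖ζ‖ * Real.cos x))]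
  have hper : Function.Periodic (fun x : ℝ => Real.exp (ρ * ‖ζ‖ * Real.cos x)) (2 * π) := by
    intro x
    simp only [Real.cos_add_two_pi]
  have h2 := hper.intervalIntegral_add_eq (-π + arg ζ) (-π)
  have e1 : -π + arg ζ + 2 * π = π + arg ζ := by ring
  have e2 : -π + 2 * π = π := by ring
  rw [e1, e2] at h2
  rw [h2]
  exact bessel (by positivity)

lemma arc_exp_half {ρ : ℝ} (hρ : 0 < ρ) {ζ : ℂ} (hζ : ζ ≠ 0) :
    ∫ ψ in (-(π / 2))..(π / 2), Real.exp (cw ρ ψ * ζ).re ≤ 4 * Real.exp (ρ * ‖ζ‖) / √(ρ * ‖ζ‖) := by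
  refine le_trans ?_ (arc_exp hρ hζ)
  have hc : Continuous fun ψ : ℝ => Real.exp (cw ρ ψ * ζ).re :=
    Real.continuous_exp.comp (continuous_re.comp ((continuous_cw ρ).mul continuous_const))
  apply intervalIntegral.integral_mono_interval (by linarith [Real.pi_pos]) (by linarith [Real.pi_pos])
    (by linarith [Real.pi_pos])
  · exact Eventually.of_forall fun x => (Real.exp_pos _).le
  · exact hc.intervalIntegrable _ _

/-- Cauchy's formula for the `m`-th derivative as an integral over the angle -/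
lemma cauchy_arc {f : ℂ → ℂ} (hf : Differentiable ℂ f) (s : ℂ) {ρ : ℝ} (hρ : 0 < ρ) (m : ℕ) :
    ∫ ψ in (-(π / 2))..(3 * π / 2), f (s + cw ρ ψ) * exp (-(m * ψ) * I) =
      (2 * π / m.factorial * ρ ^ m : ℝ) * iteratedDeriv m f s := by
  have h1 := DiffContOnCl.circleIntegral_one_div_sub_center_pow_smul hρ m
    (hf.diffContOnCl (s := Metric.ball s ρ))
  have hρc : (ρ : ℂ) ≠ 0 := by exact_mod_cast hρ.ne'
  have h2 : ∀ ψ : ℝ, deriv (circleMap s ρ) ψ • (1 / (circleMap s ρ ψ - s) ^ (m + 1)) • f (circleMap s ρ ψ) =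
      (I / (ρ : ℂ) ^ m) * (f (s + cw ρ ψ) * exp (-(m * ψ) * I)) := by
    intro ψ
    have e1 : circleMap s ρ ψ = s + cw ρ ψ := by
      unfold circleMap cw
      ring
    rw [deriv_circleMap, e1, add_sub_cancel_left, ← cw_eq, smul_eq_mul, smul_eq_mul]
    unfold cw
    have he : exp (ψ * I) ≠ 0 := exp_ne_zero _
    have e2 : exp (-(m * ψ) * I) = (exp (ψ * I) ^ m)⁻¹ := by
      rw [← Complex.exp_nat_mul, ← Complex.exp_neg]
      congr 1
      ring
    rw [e2]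
    field_simp
    rw [mul_pow]
    ring
  unfold circleIntegral at h1
  have h3 : ∫ ψ in (0)..(2 * π), (I / (ρ : ℂ) ^ m) * (f (s + cw ρ ψ) * exp (-(m * ψ) * I)) =
      (2 * π * I / m.factorial) • iteratedDeriv m f s := by
    rw [← h1]
    apply intervalIntegral.integral_congr
    intro ψ _
    exact (h2 ψ).symm
  rw [intervalIntegral.integral_const_mul] at h3
  have hper : Function.Periodic (fun ψ : ℝ => f (s + cw ρ ψ) * exp (-(m * ψ) * I)) (2 * π) := by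
    intro ψ
    have e1 : cw ρ (ψ + 2 * π) = cw ρ ψ := by
      rw [cw_eq, cw_eq]
      exact periodic_circleMap 0 ρ ψ
    have e2 : exp (-(m * ((ψ + 2 * π : ℝ) : ℂ)) * I) = exp (-(m * ψ) * I) := by
      have : -(m * ((ψ + 2 * π : ℝ) : ℂ)) * I = -(m * ψ) * I - (m : ℤ) * (2 * π * I) := by
        push_cast
        ring
      rw [this, Complex.exp_sub, Complex.exp_int_mul_two_pi_mul_I, div_one]
    simp only [e1, e2]
  have h4 := hper.intervalIntegral_add_eq (-(π / 2)) 0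
  have e3 : -(π / 2) + 2 * π = 3 * π / 2 := by ring
  rw [e3, zero_add] at h4
  rw [h4]
  have hI : I ≠ 0 := I_ne_zero
  have hm : (m.factorial : ℂ) ≠ 0 := by exact_mod_cast m.factorial_ne_zero
  generalize (∫ ψ in (0)..(2 * π), f (s + cw ρ ψ) * exp (-(m * ψ) * I)) = J at h3 ⊢
  have h5 : J = ((ρ : ℂ) ^ m / I) * ((I / (ρ : ℂ) ^ m) * J) := by
    field_simp
  rw [h5, h3, smul_eq_mul]
  push_cast
  field_simp

/-- the part of Cauchy's integral over the right half of the circle -/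
noncomputable def EE (m : ℕ) (ρ : ℝ) (s : ℂ) : ℂ :=
  ∫ ψ in (-(π / 2))..(π / 2), Lam (s + cw ρ ψ) * exp (-(m * ψ) * I)

lemma cont_int (f : ℂ → ℂ) (hf : Continuous f) (m : ℕ) (ρ : ℝ) (s : ℂ) :
    Continuous fun ψ : ℝ => f (s + cw ρ ψ) * exp (-(m * ψ) * I) := by
  have := continuous_cw ρ
  fun_prop

lemma cw_add_pi (ρ ψ : ℝ) : cw ρ (ψ + π) = -cw ρ ψ := by
  unfold cw
  push_cast
  rw [add_mul, Complex.exp_add, Complex.exp_pi_mul_I]
  ring

lemma exp_add_pi (m : ℕ) (ψ : ℝ) :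
    exp (-(m * ((ψ + π : ℝ) : ℂ)) * I) = (-1) ^ m * exp (-(m * ψ) * I) := by
  have : -(m * ((ψ + π : ℝ) : ℂ)) * I = -(m * ψ) * I + m * (-(π * I)) := by
    push_cast
    ring
  rw [this, Complex.exp_add, Complex.exp_nat_mul, Complex.exp_neg, Complex.exp_pi_mul_I]
  have : ((-1 : ℂ))⁻¹ = -1 := by norm_num
  rw [this]
  ring

lemma rep (m : ℕ) {ρ : ℝ} (hρ : 0 < ρ) (s : ℂ) :
    (2 * π / m.factorial * ρ ^ m : ℝ) * iteratedDeriv m Lam s =
      EE m ρ s + (-1) ^ m * EE m ρ (12 - s) := by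
  rw [← cauchy_arc differentiable_Lam s hρ m]
  have hc := cont_int Lam differentiable_Lam.continuous m ρ s
  rw [← intervalIntegral.integral_add_adjacent_intervals (b := π / 2)
    (hc.intervalIntegrable _ _) (hc.intervalIntegrable _ _)]
  congr 1
  have e1 : ∫ ψ in (π / 2)..(3 * π / 2), Lam (s + cw ρ ψ) * exp (-(m * ψ) * I) =
      ∫ ψ in (-(π / 2))..(π / 2), Lam (s + cw ρ (ψ + π)) * exp (-(m * ((ψ + π : ℝ) : ℂ)) * I) := by
    rw [intervalIntegral.integral_comp_add_right (fun ψ : ℝ => Lam (s + cw ρ ψ) * exp (-(m * ψ) * I))]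
    congr 1 <;> ring
  rw [e1]
  unfold EE
  rw [← intervalIntegral.integral_const_mul]
  apply intervalIntegral.integral_congr
  intro ψ _
  simp only
  rw [cw_add_pi, exp_add_pi]
  have : Lam (s + -cw ρ ψ) = Lam (12 - s + cw ρ ψ) := by
    rw [← Lam_fe]
    congr 1
    ring
  rw [this]
  ring

lemma iter_exp (ζ : ℂ) (m : ℕ) : iteratedDeriv m (fun z : ℂ => exp (z * ζ)) 0 = ζ ^ m := by
  have : (fun z : ℂ => exp (z * ζ)) = fun z => exp (ζ * z) := by
    funext z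
    rw [mul_comm]
  rw [this, iteratedDeriv_cexp_const_mul]
  simp

lemma expo_arc (m : ℕ) {ρ : ℝ} (hρ : 0 < ρ) (ζ : ℂ) :
    ∫ ψ in (-(π / 2))..(3 * π / 2), exp (cw ρ ψ * ζ) * exp (-(m * ψ) * I) =
      (2 * π / m.factorial * ρ ^ m : ℝ) * ζ ^ m := by
  have h := cauchy_arc (f := fun z : ℂ => exp (z * ζ)) (by fun_prop) 0 hρ m
  rw [iter_exp] at h
  rw [← h]
  simp only [zero_add]

lemma cw_neg (ρ ψ : ℝ) : cw ρ (-ψ) = starRingEnd ℂ (cw ρ ψ) := by
  unfold cw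
  rw [map_mul, conj_ofReal, ← Complex.exp_conj]
  simp

lemma EE_conj (m : ℕ) (ρ : ℝ) (s : ℂ) : EE m ρ (starRingEnd ℂ s) = starRingEnd ℂ (EE m ρ s) := by
  unfold EE
  have e1 : ∫ ψ in (-(π / 2))..(π / 2), Lam (starRingEnd ℂ s + cw ρ ψ) * exp (-(m * ψ) * I) =
      ∫ ψ in (-(π / 2))..(π / 2), Lam (starRingEnd ℂ s + cw ρ (-ψ)) * exp (-(m * ((-ψ : ℝ) : ℂ)) * I) := by
    rw [intervalIntegral.integral_comp_neg (fun ψ : ℝ => Lam (starRingEnd ℂ s + cw ρ ψ) * exp (-(m * ψ) * I))]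
    simp
  rw [e1, ← intervalIntegral.intervalIntegral_conj]
  apply intervalIntegral.integral_congr
  intro ψ _
  simp only [map_mul]
  rw [← Lam_conj, ← Complex.exp_conj, cw_neg]
  simp

lemma EE_diff (m : ℕ) (ρ : ℝ) : Differentiable ℂ (EE m ρ) := by
  intro s₀
  have hL := differentiable_Lam
  have hL' : Differentiable ℂ (deriv Lam) := hL.contDiff.differentiable_deriv_two
  have hcw := continuous_cw ρ
  have hcont : Continuous (fun p : ℂ × ℝ => deriv Lam (p.1 + cw ρ p.2) * exp (-(m * (p.2 : ℂ)) * I)) := by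
    have := hL'.continuous
    fun_prop
  obtain ⟨B, hB⟩ := ((isCompact_closedBall s₀ 1).prod (isCompact_uIcc (a := -(π / 2)) (b := π / 2))).exists_bound_of_continuousOn
    hcont.continuousOn
  have h := intervalIntegral.hasDerivAt_integral_of_dominated_loc_of_deriv_le
    (μ := volume) (a := -(π / 2)) (b := π / 2) (s := Metric.closedBall s₀ 1)
    (F := fun (z : ℂ) (ψ : ℝ) => Lam (z + cw ρ ψ) * exp (-(m * ψ) * I))
    (F' := fun (z : ℂ) (ψ : ℝ) => deriv Lam (z + cw ρ ψ) * exp (-(m * ψ) * I))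
    (x₀ := s₀) (bound := fun _ => B) (Metric.closedBall_mem_nhds _ one_pos)
    (Eventually.of_forall fun z => (cont_int Lam hL.continuous m ρ z).aestronglyMeasurable)
    ((cont_int Lam hL.continuous m ρ s₀).intervalIntegrable _ _)
    ((cont_int _ hL'.continuous m ρ s₀).aestronglyMeasurable)
    (Eventually.of_forall fun ψ hψ z hz => hB (z, ψ) ⟨hz, uIoc_subset_uIcc hψ⟩)
    (intervalIntegrable_const)
    (Eventually.of_forall fun ψ _ z _ => by
      have h1 : HasDerivAt (fun z : ℂ => z + cw ρ ψ) 1 z := (hasDerivAt_id z).add_const _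
      have h2 := (hL (z + cw ρ ψ)).hasDerivAt.comp z h1
      rw [mul_one] at h2
      exact h2.mul_const _)
  exact h.2.differentiableAt

end Pool.Agent.Helper33.XD
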