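import Mathlib

set_option autoImplicit false

namespace Pool.Agent.Helper33.XD

open Complex Filter Topology Set MeasureTheory

/-- the function of the frozen statement -/
noncomputable def fD (y : ℝ) : ℂ :=
  (((Real.exp (-2 * Real.pi * y)) *
    ∏' n : ℕ, (1 - Real.exp (-2 * Real.pi * ((n : ℝ) + 1) * y)) ^ 24 : ℝ) : ℂ)

/-- its Mellin transform -/
noncomputable def Lam (s : ℂ) : ℂ := mellin fD s

/-- the Ramanujan Xi function -/
noncomputable def Xi (z : ℂ) : ℂ := Lam (6 + I * z)

/-- point `i y` -/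
noncomputable def ip (y : ℝ) (hy : 0 < y) : UpperHalfPlane := ⟨I * y, by simpa using hy⟩

lemma mult_real {y : ℝ} (hy : 0 < y) :
    Multipliable (fun n : ℕ => (1 - Real.exp (-2 * Real.pi * ((n : ℝ) + 1) * y)) ^ 24) := by
  have h1 : Multipliable (fun n : ℕ => (1 + -Real.exp (-2 * Real.pi * ((n : ℝ) + 1) * y))) := by
    apply Real.multipliable_one_add_of_summable
    have hr : Real.exp (-(2 * Real.pi * y)) < 1 := by
      rw [Real.exp_lt_one_iff]
      have := Real.pi_pos
      nlinarith [mul_pos Real.pi_pos hy]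
    have h2 : Summable (fun n : ℕ => Real.exp (-(2 * Real.pi * y)) * Real.exp (-(2 * Real.pi * y)) ^ n) :=
      (summable_geometric_of_lt_one (Real.exp_pos _).le hr).mul_left _
    refine Summable.neg (h2.congr fun n => ?_)
    rw [← Real.exp_nat_mul, ← Real.exp_add]
    congr 1
    ring
  have h3 := h1.pow 24
  exact h3.congr fun n => by ring_nf

lemma fD_eq {y : ℝ} (hy : 0 < y) : fD y = ModularForm.discriminant (ip y hy) := by
  rw [ModularForm.discriminant_eq_q_prod]
  unfold fD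
  rw [ofReal_mul]
  congr 1
  · unfold Function.Periodic.qParam ip
    push_cast
    congr 1
    have : (2 : ℂ) * Real.pi * I * (I * y) / 1 = 2 * Real.pi * (I * I) * y := by ring
    rw [this, I_mul_I]
    ring
  · have h := (mult_real hy).map_tprod ofRealHom continuous_ofReal
    have e : ofRealHom (∏' n : ℕ, (1 - Real.exp (-2 * Real.pi * ((n : ℝ) + 1) * y)) ^ 24) =
      ((∏' n : ℕ, (1 - Real.exp (-2 * Real.pi * ((n : ℝ) + 1) * y)) ^ 24 : ℝ) : ℂ) := rfl
    rw [e] at h
    rw [h]
    refine tprod_congr fun n => ?_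
    rw [ModularForm.eta_q]
    unfold Function.Periodic.qParam ip
    simp only [ofRealHom_eq_coe]
    push_cast
    rw [← Complex.exp_nat_mul]
    congr 3
    have : (((n : ℕ) + 1 : ℕ) : ℂ) * (2 * Real.pi * I * (I * y) / 1) =
      2 * Real.pi * (I * I) * y * ((n : ℂ) + 1) := by push_cast; ring
    rw [this, I_mul_I]
    ring

/-- the completed L-function of Mathlib -/
noncomputable def MLam : ℂ → ℂ :=
  ModularForm.Λ (k := 12) (by norm_num) CuspForm.discriminant

lemma Lam_eq : Lam = MLam := by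
  unfold MLam
  rw [CuspForm.Λ_eq_mellin]
  funext s
  unfold Lam mellin
  refine setIntegral_congr_fun measurableSet_Ioi fun t ht => ?_
  have ht' : (0 : ℝ) < t := ht
  have h1 : (0 : ℝ) < (I * (t : ℂ)).im := by simpa using ht'
  simp only [CuspForm.coe_discriminant]
  rw [UpperHalfPlane.ofComplex_apply_of_im_pos h1, fD_eq ht']
  rfl

lemma differentiable_Lam : Differentiable ℂ Lam := by
  rw [Lam_eq]
  unfold MLam
  exact CuspForm.differentiable_Λ _ _

lemma fD_inv {y : ℝ} (hy : 0 < y) : fD (1 / y) = (y : ℂ) ^ (12 : ℕ) * fD y := by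
  have hy' : 0 < 1 / y := by positivity
  rw [fD_eq hy, fD_eq hy']
  have h := congrFun ModularForm.discriminant_S_invariant (ip y hy)
  rw [ModularForm.SL_slash_apply, UpperHalfPlane.modular_S_smul] at h
  have e1 : UpperHalfPlane.mk (-(ip y hy : ℂ))⁻¹ (ip y hy).im_inv_neg_coe_pos = ip (1 / y) hy' := by
    apply UpperHalfPlane.ext
    show (-(I * (y : ℂ)))⁻¹ = I * ((1 / y : ℝ) : ℂ)
    have hyc : (y : ℂ) ≠ 0 := by exact_mod_cast hy.ne'
    push_cast
    rw [inv_eq_iff_eq_inv, mul_inv, one_div, inv_inv, Complex.inv_I]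
    ring
  rw [e1] at h
  have e2 : UpperHalfPlane.denom (ModularGroup.S : GL (Fin 2) ℝ) (ip y hy) = I * (y : ℂ) :=
    ModularGroup.denom_S _
  rw [e2] at h
  have hyc : (y : ℂ) ≠ 0 := by exact_mod_cast hy.ne'
  have e3 : (I * (y : ℂ)) ^ (-(12 : ℤ)) = ((y : ℂ) ^ 12)⁻¹ := by
    rw [zpow_neg, show ((12 : ℤ)) = ((12 : ℕ) : ℤ) from rfl, zpow_natCast, mul_pow]
    have : I ^ 12 = 1 := by
      rw [show 12 = 4 * 3 by norm_num, pow_mul, I_pow_four, one_pow]
    rw [this, one_mul]
  rw [e3] at h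
  rw [← h]
  field_simp

lemma Lam_fe (s : ℂ) : Lam (12 - s) = Lam s := by
  unfold Lam
  have h1 : mellin (fun t => fD (t⁻¹)) (-(12 - s)) = mellin fD (12 - s) := by
    rw [mellin_comp_inv]
    simp
  rw [← h1]
  have h2 : mellin (fun t => fD (t⁻¹)) (-(12 - s)) = mellin (fun t => (t : ℂ) ^ (12 : ℂ) • fD t) (-(12 - s)) := by
    unfold mellin
    refine setIntegral_congr_fun measurableSet_Ioi fun t ht => ?_
    have ht' : (0 : ℝ) < t := ht
    simp only
    rw [← one_div, fD_inv ht', smul_eq_mul]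
    norm_cast
  rw [h2, mellin_cpow_smul]
  congr 1
  ring

lemma Lam_conj (s : ℂ) : Lam (starRingEnd ℂ s) = starRingEnd ℂ (Lam s) := by
  unfold Lam mellin
  rw [← integral_conj]
  refine setIntegral_congr_fun measurableSet_Ioi fun t ht => ?_
  have ht' : (0 : ℝ) < t := ht
  simp only [smul_eq_mul, map_mul]
  have e1 : starRingEnd ℂ (fD t) = fD t := conj_ofReal _
  have e2 : starRingEnd ℂ ((t : ℂ) ^ (s - 1)) = (t : ℂ) ^ (starRingEnd ℂ s - 1) := by
    have h3 := cpow_conj (t : ℂ) (s - 1) (by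
      rw [arg_ofReal_of_nonneg ht'.le]
      exact Real.pi_pos.ne)
    rw [conj_ofReal] at h3
    rw [← h3]
    simp
  rw [e1, e2]

end Pool.Agent.Helper33.XD
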