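import Pool.Agent.Helper33.XD.Delta

set_option autoImplicit false

namespace Pool.Agent.Helper33.XD

open Complex Filter Topology Set MeasureTheory MatrixGroups

/-- the coefficients, `a n = τ(n)` -/
noncomputable def a (n : ℕ) : ℂ :=
  (UpperHalfPlane.qExpansion 1 ModularForm.discriminant).coeff n

lemma width_one : (𝒮ℒ : Subgroup (GL (Fin 2) ℝ)).strictWidthInfty = 1 := by
  simpa [MonoidHom.range_eq_map] using
    Subgroup.strictWidthInfty_eq_one_of_T_mem (Γ := ⊤) (Subgroup.mem_top _)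

lemma a_one : a 1 = 1 := ModularForm.discriminant_qExpansion_coeff_one

lemma a_zero : a 0 = 0 := by
  have := CuspFormClass.qExpansion_coeff_zero (Γ := 𝒮ℒ) (k := 12) (h := 1) CuspForm.discriminant
    one_pos one_mem_strictPeriods_SL
  exact this

lemma a_bound : ∃ C : ℝ, 0 < C ∧ ∀ n : ℕ, 1 ≤ n → ‖a n‖ ≤ C * (n : ℝ) ^ 6 := by
  have h := CuspFormClass.qExpansion_isBigO (Γ := 𝒮ℒ) (k := 12) CuspForm.discriminant
  rw [width_one] at h
  have h2 := (Asymptotics.isBigO_iff.1 h)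
  obtain ⟨c, hc⟩ := h2
  rw [eventually_atTop] at hc
  obtain ⟨N, hN⟩ := hc
  set S := ∑ n ∈ Finset.range N, ‖a n‖ with hS
  have hS0 : 0 ≤ S := Finset.sum_nonneg fun _ _ => norm_nonneg _
  refine ⟨|c| + S + 1, by positivity, fun n hn => ?_⟩
  have hn1 : (1 : ℝ) ≤ n := by exact_mod_cast hn
  have hn6 : (1 : ℝ) ≤ (n : ℝ) ^ 6 := one_le_pow₀ hn1
  rcases lt_or_ge n N with h3 | h3
  · have h4 : ‖a n‖ ≤ S := Finset.single_le_sum (f := fun n => ‖a n‖) (fun _ _ => norm_nonneg _)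
      (Finset.mem_range.2 h3)
    nlinarith [abs_nonneg c]
  · have h4 := hN n h3
    have e : ((((12 : ℤ) : ℝ) / 2)) = ((6 : ℕ) : ℝ) := by norm_num
    rw [e, Real.rpow_natCast, Real.norm_of_nonneg (by positivity)] at h4
    have h5 : ‖a n‖ ≤ c * (n : ℝ) ^ 6 := h4
    have h6 := le_abs_self c
    nlinarith [abs_nonneg c]

lemma hasSum_Lam {s : ℂ} (hs : 7 < s.re) :
    HasSum (fun n : ℕ => a n * (n : ℂ) ^ (-s)) (Lam s / ((2 * Real.pi : ℝ) ^ (-s) * Gamma s)) := by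
  have h := CuspForm.hasSum_Λ (Γ := 𝒮ℒ) (k := 12) (s := s) CuspForm.discriminant (by norm_num)
    (by push_cast; linarith)
  rw [width_one] at h
  have hG : Gamma s ≠ 0 := Gamma_ne_zero_of_re_pos (by linarith)
  have h2pi : ((2 * Real.pi : ℝ) : ℂ) ^ (-s) ≠ 0 := by
    rw [Ne, cpow_eq_zero_iff]
    push Not
    intro h0
    exfalso
    have : (2 * Real.pi : ℝ) ≠ 0 := by positivity
    exact this (by exact_mod_cast h0)
  have h2 := h.div_const (((2 * Real.pi : ℝ) : ℂ) ^ (-s) * Gamma s)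
  rw [Lam_eq]
  unfold MLam
  refine Eq.mp (congrArg (fun g => HasSum g _) (funext fun n => ?_)) h2
  rcases Nat.eq_zero_or_pos n with hn | hn
  · subst hn
    rw [a_zero]
    have h0 : (PowerSeries.coeff 0) (UpperHalfPlane.qExpansion 1 ⇑CuspForm.discriminant) = 0 := a_zero
    rw [h0]
    simp
  · have hn0 : (0 : ℝ) < n := by exact_mod_cast hn
    have e1 : (((2 * n / 1 : ℝ)) : ℂ) ^ s = (2 : ℂ) ^ s * (n : ℂ) ^ s := by
      rw [div_one, ofReal_mul, mul_cpow_ofReal_nonneg (by norm_num) hn0.le]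
      norm_cast
    have e2 : ((2 * Real.pi : ℝ) : ℂ) ^ (-s) = (2 : ℂ) ^ (-s) * (Real.pi : ℂ) ^ (-s) := by
      rw [ofReal_mul, mul_cpow_ofReal_nonneg (by norm_num) Real.pi_pos.le]
      norm_cast
    rw [e1, e2]
    have h2s : (2 : ℂ) ^ s ≠ 0 := by
      rw [Ne, cpow_eq_zero_iff]; simp
    have hns : (n : ℂ) ^ s ≠ 0 := by
      rw [Ne, cpow_eq_zero_iff]
      push Not
      intro h0
      exfalso
      exact hn.ne' (by exact_mod_cast h0)
    have hps : (Real.pi : ℂ) ^ s ≠ 0 := by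
      rw [Ne, cpow_eq_zero_iff]
      push Not
      intro h0
      exfalso
      exact Real.pi_ne_zero (by exact_mod_cast h0)
    have hc : (PowerSeries.coeff n) (UpperHalfPlane.qExpansion 1 ⇑CuspForm.discriminant) = a n := rfl
    rw [hc]
    simp only [cpow_neg]
    field_simp

/-- the L-function, as a quotient -/
noncomputable def LL (s : ℂ) : ℂ := Lam s / ((2 * Real.pi : ℝ) ^ (-s) * Gamma s)

/-- the Gamma factor -/
noncomputable def GG (s : ℂ) : ℂ := (2 * Real.pi : ℝ) ^ (-s) * Gamma s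

lemma twopi_cpow_ne (s : ℂ) : ((2 * Real.pi : ℝ) : ℂ) ^ s ≠ 0 := by
  rw [Ne, cpow_eq_zero_iff]
  push Not
  intro h0
  exfalso
  have : (2 * Real.pi : ℝ) ≠ 0 := by positivity
  exact this (by exact_mod_cast h0)

lemma GG_ne {s : ℂ} (hs : 0 < s.re) : GG s ≠ 0 :=
  mul_ne_zero (twopi_cpow_ne _) (Gamma_ne_zero_of_re_pos hs)

lemma Lam_eq_mul {s : ℂ} (hs : 0 < s.re) : Lam s = GG s * LL s := by
  exact (mul_div_cancel₀ _ (GG_ne hs)).symm

lemma LL_bound : ∃ C : ℝ, 0 < C ∧ ∀ s : ℂ, 8 ≤ s.re → ‖LL s - 1‖ ≤ C * (2 : ℝ) ^ (-s.re) := by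
  obtain ⟨C, hC, hb⟩ := a_bound
  have hsum : Summable (fun n : ℕ => 1 / ((n : ℝ) + 2) ^ 2) := by
    have := (summable_nat_add_iff 2).mpr (Real.summable_one_div_nat_pow.mpr (by norm_num : 1 < 2))
    simpa using this
  set S := ∑' n : ℕ, 1 / ((n : ℝ) + 2) ^ 2 with hS
  have hS0 : 0 ≤ S := tsum_nonneg fun n => by positivity
  refine ⟨C * 2 ^ 8 * (S + 1), by positivity, fun s hs => ?_⟩
  have h := hasSum_Lam (s := s) (by linarith)
  have h2 : HasSum (fun n : ℕ => a (n + 2) * ((n + 2 : ℕ) : ℂ) ^ (-s)) (LL s - 1) := by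
    have := (hasSum_nat_add_iff' 2).mpr h
    refine Eq.mp ?_ this
    congr 1
    rw [Finset.sum_range_succ, Finset.sum_range_one, a_zero, a_one]
    unfold LL
    simp
  have hterm : ∀ n : ℕ, ‖a (n + 2) * ((n + 2 : ℕ) : ℂ) ^ (-s)‖ ≤
      (C * 2 ^ 8 * (2 : ℝ) ^ (-s.re)) * (1 / ((n : ℝ) + 2) ^ 2) := by
    intro n
    rw [norm_mul]
    have hn2 : (2 : ℝ) ≤ (n : ℝ) + 2 := by linarith [(Nat.cast_nonneg n : (0 : ℝ) ≤ n)]
    have e1 : ‖((n + 2 : ℕ) : ℂ) ^ (-s)‖ = ((n : ℝ) + 2) ^ (-s.re) := by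
      have : (((n + 2 : ℕ)) : ℂ) = (((n : ℝ) + 2 : ℝ) : ℂ) := by push_cast; ring
      rw [this, norm_cpow_eq_rpow_re_of_pos (by linarith)]
      simp
    have e2 := hb (n + 2) (by omega)
    push_cast at e2
    have e3 : ((n : ℝ) + 2) ^ (-s.re) ≤ 2 ^ 8 * (2 : ℝ) ^ (-s.re) * (((n : ℝ) + 2) ^ 8)⁻¹ := by
      have h5 : ((n : ℝ) + 2) ^ (-s.re) = ((n : ℝ) + 2) ^ (-(s.re - 8)) * (((n : ℝ) + 2) ^ 8)⁻¹ := by
        rw [← Real.rpow_natCast, ← Real.rpow_neg (by linarith), ← Real.rpow_add (by linarith)]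
        congr 1
        push_cast
        ring
      have h6 : (2 : ℝ) ^ (-(s.re - 8)) = 2 ^ 8 * (2 : ℝ) ^ (-s.re) := by
        rw [← Real.rpow_natCast, ← Real.rpow_add (by norm_num)]
        congr 1
        push_cast
        ring
      rw [h5, ← h6]
      gcongr ?_ * _
      exact Real.rpow_le_rpow_of_nonpos (by norm_num) hn2 (by linarith)
    rw [e1]
    have hpos : (0 : ℝ) < (n : ℝ) + 2 := by linarith
    calc ‖a (n + 2)‖ * ((n : ℝ) + 2) ^ (-s.re)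
        ≤ (C * ((n : ℝ) + 2) ^ 6) * (2 ^ 8 * (2 : ℝ) ^ (-s.re) * (((n : ℝ) + 2) ^ 8)⁻¹) := by
          gcongr
      _ = (C * 2 ^ 8 * (2 : ℝ) ^ (-s.re)) * (1 / ((n : ℝ) + 2) ^ 2) := by
          field_simp
  have h7 := tsum_of_norm_bounded ((hsum.hasSum).mul_left (C * 2 ^ 8 * (2 : ℝ) ^ (-s.re))) hterm
  rw [h2.tsum_eq] at h7
  refine h7.trans ?_
  have h8 : (0 : ℝ) < (2 : ℝ) ^ (-s.re) := by positivity
  have : C * 2 ^ 8 * (2 : ℝ) ^ (-s.re) * S ≤ C * 2 ^ 8 * (2 : ℝ) ^ (-s.re) * (S + 1) := by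
    gcongr
    linarith
  linarith

end Pool.Agent.Helper33.XD
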