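import Pool.Agent.Helper33.XD.Par

set_option autoImplicit false

namespace Pool.Agent.Helper33.XD

open Complex Filter Topology Set MeasureTheory
open scoped Real

/-- the radius at a point far from the line -/
noncomputable def rhos (m : ℕ) (s : ℂ) : ℝ := m / ‖ell s‖

lemma far_ell {x : ℝ} (hx : Real.exp 20 ≤ x) {s : ℂ} (_h8 : 8 ≤ s.re) (him : s.im = x) :
    x ≤ ‖s‖ ∧ Real.log x - 2 ≤ (ell s).re ∧ Real.log x / 2 ≤ ‖ell s‖ ∧ 18 ≤ ‖ell s‖ := by
  have hx0 : 0 < x := lt_of_lt_of_le (Real.exp_pos _) hx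
  have hL := log_ge hx
  have hn1 : x ≤ ‖s‖ := by
    have := abs_im_le_norm s
    rw [him, abs_of_pos hx0] at this
    exact this
  have h1 : Real.log x - 2 ≤ (ell s).re := by
    rw [ell_re]
    have := Real.log_le_log hx0 hn1
    linarith [log2pi_lt]
  have h3 : (ell s).re ≤ ‖ell s‖ := (le_abs_self _).trans (abs_re_le_norm _)
  exact ⟨hn1, h1, by linarith, by linarith⟩

lemma Par.goodfar {x : ℝ} {m : ℕ} (h : Par x m) {s : ℂ} (h8 : 8 ≤ s.re) (him : s.im = x) :
    Good m (rhos m s) s ∧ rhos m s * ‖ell s‖ = m ∧ rhos m s ≤ m / 18 ∧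
      rhos m s ^ 2 ≤ 4 * x / Real.log x ^ 2 ∧ rhos m s ^ 2 ≤ x / 324 := by
  obtain ⟨hx8, hL, hm, hmx⟩ := h.bas
  obtain ⟨e1, e2, e3, e4⟩ := far_ell h.x0 h8 him
  have hℓ : 0 < ‖ell s‖ := by linarith
  have hρ : 0 < rhos m s := div_pos (by linarith) hℓ
  have hρm : rhos m s * ‖ell s‖ = m := by
    unfold rhos
    field_simp
  have hρ18 : rhos m s ≤ m / 18 := by
    unfold rhos
    gcongr
  have h5 : rhos m s ^ 2 ≤ x / 324 := by
    calc rhos m s ^ 2 ≤ (m / 18) ^ 2 := by gcongr
      _ = (m : ℝ) ^ 2 / 324 := by ring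
      _ ≤ x / 324 := by have := h.hi; gcongr
  have h6 : rhos m s ^ 2 ≤ 4 * x / Real.log x ^ 2 := by
    unfold rhos
    rw [div_pow, div_le_div_iff₀ (by positivity) (by positivity)]
    have h7 : Real.log x ^ 2 ≤ 4 * ‖ell s‖ ^ 2 := by nlinarith
    calc (m : ℝ) ^ 2 * Real.log x ^ 2 ≤ x * (4 * ‖ell s‖ ^ 2) := by
          have := h.hi
          gcongr
      _ = _ := by ring
  refine ⟨⟨?_, hρ, by linarith, by rw [him]; linarith, by linarith, ?_⟩, hρm, hρ18, h6, h5⟩
  · have : (4 : ℝ) ≤ m := by linarith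
    exact_mod_cast this
  · rw [hρm, sub_self]
    norm_num

lemma two_pow_small {y : ℝ} (hy : 0 < y) : (2 : ℝ) ^ (-y) ≤ 1 / y := by
  rw [Real.rpow_neg (by norm_num), ← one_div]
  apply one_div_le_one_div_of_le hy
  have h1 : y < 2 * (2 : ℝ) ^ y := by
    have h2 := Nat.lt_floor_add_one y
    have h3 : ((⌊y⌋₊ + 1 : ℕ) : ℝ) ≤ ((2 ^ ⌊y⌋₊ : ℕ) : ℝ) := by
      exact_mod_cast Nat.succ_le_of_lt (Nat.lt_two_pow_self)
    have h4 : ((2 ^ ⌊y⌋₊ : ℕ) : ℝ) ≤ (2 : ℝ) ^ y := by
      push_cast
      rw [← Real.rpow_natCast]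
      exact Real.rpow_le_rpow_of_exponent_le (by norm_num) (Nat.floor_le hy.le)
    push_cast at h3
    have h5 : (0 : ℝ) < (2 : ℝ) ^ y := by positivity
    push_cast at h4
    linarith
  have h2 := Nat.lt_floor_add_one y
  have h3 : ((⌊y⌋₊ + 1 : ℕ) : ℝ) ≤ ((2 ^ ⌊y⌋₊ : ℕ) : ℝ) := by
    exact_mod_cast Nat.succ_le_of_lt (Nat.lt_two_pow_self)
  have h4 : ((2 ^ ⌊y⌋₊ : ℕ) : ℝ) ≤ (2 : ℝ) ^ y := by
    push_cast
    rw [← Real.rpow_natCast]
    exact Real.rpow_le_rpow_of_exponent_le (by norm_num) (Nat.floor_le hy.le)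
  push_cast at h3 h4
  linarith

/-- the error term far from the line -/
lemma Par.err_far {x C : ℝ} {m : ℕ} (h : Par x m) (hC0 : 0 ≤ C) (hC : C * Real.log x ≤ m) {s : ℂ}
    (h8 : 8 ≤ s.re) (him : s.im = x) :
    err m (rhos m s) s + (2 : ℝ) ^ (-s.re) * Real.exp (-(rhos m s / 2)) ≤
      4 / Real.log x ^ 2 + 3 / x + Real.exp (-(C / 6)) := by
  obtain ⟨hx8, hL, hm, hmx⟩ := h.bas
  obtain ⟨e1, e2, e3, e4⟩ := far_ell h.x0 h8 him
  obtain ⟨hg, hR, hρ18, hρ2, hρ3⟩ := h.goodfar h8 him
  have hρ := hg.ρ0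
  have hx0 : 0 < x := by linarith
  have hA : (rhos m s ^ 2 + 1) / s.im ≤ 4 / Real.log x ^ 2 + 1 / x := by
    rw [him]
    calc (rhos m s ^ 2 + 1) / x ≤ (4 * x / Real.log x ^ 2 + 1) / x := by gcongr
      _ = _ := by
        have : Real.log x ≠ 0 := by linarith
        field_simp
  have hD : √m * Real.exp (2 * rhos m s - rhos m s * ‖ell s‖) ≤ 1 / x := by
    rw [hR]
    have h4 : √(m : ℝ) ≤ x := by
      rw [Real.sqrt_le_left hx0.le]
      nlinarith
    calc √m * Real.exp (2 * rhos m s - m) ≤ x * Real.exp (-(((2 : ℕ) : ℝ) * Real.log x)) := by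
          gcongr
          have := h.lo
          push_cast
          linarith
      _ = 1 / x := by
          rw [exp_neg_log hx0]
          field_simp
  have hB : (2 : ℝ) ^ (-s.re) * Real.exp (-(rhos m s / 2)) ≤ 1 / x + Real.exp (-(C / 6)) := by
    rcases le_total s.re (x ^ 2) with h9 | h9
    · have h1 : (2 : ℝ) ^ (-s.re) ≤ 1 := Real.rpow_le_one_of_one_le_of_nonpos (by norm_num) (by linarith)
      have h2 : ‖ell s‖ ≤ 3 * Real.log x := by
        refine (norm_le_abs_re_add_abs_im _).trans ?_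
        have h3 := ell_im_abs (s := s) (by linarith)
        rw [abs_of_pos (by linarith)]
        have h4 : (ell s).re ≤ 2 * Real.log x := by
          rw [ell_re, ← Real.log_div (by linarith) (by positivity)]
          have h5 : ‖s‖ / (2 * π) ≤ x ^ 2 := by
            rw [div_le_iff₀ (by positivity)]
            have h6 : ‖s‖ ≤ x ^ 2 + x := by
              refine (norm_le_abs_re_add_abs_im s).trans ?_
              rw [him, abs_of_pos hx0, abs_of_pos (by linarith)]
              linarith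
            have := Real.pi_gt_three
            nlinarith
          have h7 := Real.log_le_log (div_pos (by linarith) (by positivity)) h5
          rw [Real.log_pow] at h7
          push_cast at h7
          exact h7
        linarith
      have h3 : C / 3 ≤ rhos m s := by
        unfold rhos
        rw [le_div_iff₀ (by linarith)]
        nlinarith
      have h4 : Real.exp (-(rhos m s / 2)) ≤ Real.exp (-(C / 6)) := Real.exp_le_exp.2 (by linarith)
      calc _ ≤ 1 * Real.exp (-(C / 6)) := mul_le_mul h1 h4 (Real.exp_pos _).le zero_le_one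
        _ ≤ _ := by
            have : 0 ≤ 1 / x := by positivity
            linarith
    · have h1 := two_pow_small (y := s.re) (by linarith)
      have h2 : 1 / s.re ≤ 1 / x := one_div_le_one_div_of_le hx0 (by nlinarith)
      have h3 : Real.exp (-(rhos m s / 2)) ≤ 1 := by
        rw [Real.exp_le_one_iff]
        linarith
      calc _ ≤ (1 / x) * 1 := by
            gcongr
            exact h1.trans h2
        _ ≤ _ := by
            have := Real.exp_pos (-(C / 6))
            linarith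
  unfold err
  have e : 4 / Real.log x ^ 2 + 3 / x + Real.exp (-(C / 6)) =
      (4 / Real.log x ^ 2 + 1 / x) + 1 / x + (1 / x + Real.exp (-(C / 6))) := by ring
  rw [e]
  gcongr

/-- lower bound for `GG` far from the line -/
lemma GG_lower_far {x : ℝ} (hx : Real.exp 20 ≤ x) {s : ℂ} (h8 : 8 ≤ s.re) (him : s.im = x) :
    Real.exp (-(π / 2 * x)) ≤ ‖GG s‖ := by
  obtain ⟨e1, -, -, -⟩ := far_ell hx h8 him
  have hx8 := exp20.trans hx
  unfold GG
  rw [norm_mul, norm_twopi_cpow, neg_re]
  have h1 := Gamma_lower (by linarith : 0 < s.re) (by rw [him]; linarith)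
  rw [him] at h1
  have hn0 : 0 < ‖s‖ := by linarith
  have h2 : 1 ≤ (2 * π) ^ (-s.re) * (‖s‖ ^ (s.re - 1 / 2) * Real.exp (-s.re)) := by
    rw [Real.rpow_def_of_pos (by positivity), Real.rpow_def_of_pos hn0, ← Real.exp_add, ← Real.exp_add]
    apply Real.one_le_exp
    have h3 : 18 ≤ Real.log ‖s‖ := by
      have := Real.log_le_log (by linarith) e1
      linarith [log_ge hx]
    have h4 := log2pi_lt
    nlinarith
  calc Real.exp (-(π / 2 * x)) ≤ Real.exp (-(π / 2 * x)) *
        ((2 * π) ^ (-s.re) * (‖s‖ ^ (s.re - 1 / 2) * Real.exp (-s.re))) :=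
        le_mul_of_one_le_right (Real.exp_pos _).le h2
    _ = (2 * π) ^ (-s.re) * (‖s‖ ^ (s.re - 1 / 2) * Real.exp (-(π / 2 * x) - s.re)) := by
        rw [show -(π / 2 * x) - s.re = -(π / 2 * x) + -s.re by ring, Real.exp_add]
        ring
    _ ≤ _ := by gcongr

/-- pointwise bound for the other part -/
lemma other_pt : ∃ C : ℝ, 0 < C ∧ ∀ x : ℝ, Real.exp 20 ≤ x → ∀ s w : ℂ, 8 ≤ s.re → s.im = x → 0 ≤ w.re →
    ‖w‖ ^ 2 ≤ x / 324 →
    ‖Lam (s - w)‖ ≤ ‖GG s‖ * (C * x ^ 10 * Real.exp (2 * ‖w‖) +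
      C * Real.exp (-(4 * (ell s).re)) * Real.exp (starRingEnd ℂ w * ell s).re) := by
  obtain ⟨C1, hC1, hL⟩ := LL_bound
  obtain ⟨C2, hC2, hS⟩ := Lam_strip
  refine ⟨2 * (1 + C1) + 2 ^ 10 * C2, by positivity, fun x hx s w h8 him hw hwn => ?_⟩
  have hx8 := exp20.trans hx
  have hL20 := log_ge hx
  obtain ⟨e1, e2, e3, e4⟩ := far_ell hx h8 him
  have hw0 := norm_nonneg w
  have hx0 : 0 < x := by linarith
  have hx10 : 1 ≤ x ^ 10 := one_le_pow₀ (by linarith)
  have hwx : ‖w‖ ≤ x / 4 := by nlinarith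
  have hwre := abs_re_le_norm w
  have hwim := abs_im_le_norm w
  -- comparison of `Lam` and `GG` where the Dirichlet series is close to one
  have hLam : ∀ v : ℂ, 8 ≤ v.re → ‖Lam v‖ ≤ (1 + C1) * ‖GG v‖ := by
    intro v hv
    rw [Lam_eq_mul (by linarith), norm_mul, mul_comm]
    gcongr
    have h1 := hL v hv
    have h2 : (2 : ℝ) ^ (-v.re) ≤ 1 := Real.rpow_le_one_of_one_le_of_nonpos (by norm_num) (by linarith)
    have h3 := norm_sub_norm_le (LL v) 1
    rw [norm_one] at h3
    nlinarith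
  have hGG : ∀ w' : ℂ, 0 < (s + w').re → 13 * (‖w'‖ ^ 2 + 1) ≤ x →
      ‖GG (s + w')‖ ≤ 2 * (‖GG s‖ * Real.exp (w' * ell s).re) := by
    intro w' hw1 hw2
    have h1 := GG_add (s := s) (w := w') (by linarith) hw1 (by rw [him]; nlinarith [sq_nonneg ‖w'‖])
    have hle : 13 * (‖w'‖ ^ 2 + 1) / s.im ≤ 1 := by
      rw [him, div_le_one hx0]
      exact hw2
    have h3 := norm_sub_norm_le (GG (s + w')) (GG s * exp (w' * ell s))
    rw [norm_mul, norm_exp] at h3
    have h4 : ‖GG s‖ * Real.exp (w' * ell s).re * (13 * (‖w'‖ ^ 2 + 1) / s.im) ≤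
        ‖GG s‖ * Real.exp (w' * ell s).re * 1 := by gcongr
    linarith
  have hGs : 0 ≤ ‖GG s‖ := norm_nonneg _
  rcases le_total 8 (s - w).re with hA | hA
  · -- case A
    have h1 := hLam (s - w) hA
    have h2 := hGG (-w) (by rw [← sub_eq_add_neg]; linarith) (by rw [norm_neg]; linarith)
    rw [← sub_eq_add_neg] at h2
    have h3 := left_pt (s := s) (w := -w) (by linarith) (by
      have := Real.pi_lt_d2
      linarith) (by rw [neg_re]; linarith)
    rw [norm_exp, norm_neg] at h3
    have h4 : 0 ≤ (2 * (1 + C1) + 2 ^ 10 * C2) * Real.exp (-(4 * (ell s).re)) *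
        Real.exp (starRingEnd ℂ w * ell s).re := by positivity
    calc ‖Lam (s - w)‖ ≤ (1 + C1) * (2 * (‖GG s‖ * Real.exp (2 * ‖w‖))) := by
          refine h1.trans ?_
          gcongr
          refine h2.trans ?_
          gcongr
      _ = ‖GG s‖ * (2 * (1 + C1) * 1 * Real.exp (2 * ‖w‖)) := by ring
      _ ≤ ‖GG s‖ * ((2 * (1 + C1) + 2 ^ 10 * C2) * x ^ 10 * Real.exp (2 * ‖w‖)) := by
          have : (0 : ℝ) ≤ 2 ^ 10 * C2 := by positivity
          gcongr
          linarith
      _ ≤ _ := by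
          gcongr
          linarith
  · rcases le_total 4 (s - w).re with hB | hB
    · -- case B
      have h1 := hS (s - w) (by linarith) (by linarith)
      have h2 : ‖s - w + 1‖ ≤ 2 * x := by
        refine (norm_le_abs_re_add_abs_im _).trans ?_
        rw [add_re, one_re, add_im, one_im, add_zero, sub_im, him]
        rw [abs_of_pos (by linarith)]
        have h5 : |x - w.im| ≤ x + x / 4 := by
          rw [abs_le]
          have := abs_le.1 hwim
          constructor <;> linarith [this.1, this.2]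
        linarith
      have h3 : Real.exp (-(π / 2 * (s - w).im)) ≤ Real.exp (-(π / 2 * x)) * Real.exp (2 * ‖w‖) := by
        rw [← Real.exp_add]
        apply Real.exp_le_exp.2
        rw [sub_im, him]
        have h9 := (abs_le.1 hwim).2
        have h10 := Real.pi_lt_d2
        have h11 := Real.pi_pos
        nlinarith
      have h4 := GG_lower_far hx h8 him
      have h5 : 0 ≤ (2 * (1 + C1) + 2 ^ 10 * C2) * Real.exp (-(4 * (ell s).re)) *
        Real.exp (starRingEnd ℂ w * ell s).re := by positivity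
      calc ‖Lam (s - w)‖ ≤ C2 * (‖s - w + 1‖ ^ 10 * Real.exp (-(π / 2 * (s - w).im))) := h1
        _ ≤ C2 * ((2 * x) ^ 10 * (‖GG s‖ * Real.exp (2 * ‖w‖))) := by
            gcongr
            exact h3.trans (by gcongr)
        _ = ‖GG s‖ * (2 ^ 10 * C2 * x ^ 10 * Real.exp (2 * ‖w‖)) := by ring
        _ ≤ ‖GG s‖ * ((2 * (1 + C1) + 2 ^ 10 * C2) * x ^ 10 * Real.exp (2 * ‖w‖)) := by
            have : (0 : ℝ) ≤ 2 * (1 + C1) := by positivity
            gcongr
            linarith
        _ ≤ _ := by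
            gcongr
            linarith
    · -- case C
      set w' : ℂ := starRingEnd ℂ w - ((2 * (s.re - 6) : ℝ) : ℂ) with hw'
      have hv : starRingEnd ℂ (12 - (s - w)) = s + w' := by
        apply Complex.ext
        · simp [hw']
          ring
        · simp [hw']
          ring
      have hvre : (s + w').re = 12 - (s - w).re := by
        rw [← hv]
        simp
      have h1 : ‖Lam (s - w)‖ = ‖Lam (s + w')‖ := by
        rw [← hv, Lam_conj, Lam_fe]
        simp
      have hwre2 : w'.re = w.re - 2 * (s.re - 6) := by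
        simp [hw']
      have hwim2 : w'.im = -w.im := by
        simp [hw']
      rw [sub_re] at hB
      have hn : ‖w'‖ ^ 2 ≤ 2 * ‖w‖ ^ 2 := by
        rw [← normSq_eq_norm_sq, ← normSq_eq_norm_sq, normSq_apply, normSq_apply, hwre2, hwim2]
        have h5 : |w.re - 2 * (s.re - 6)| ≤ |w.re| := by
          rw [abs_of_nonneg hw, abs_le]
          constructor <;> linarith
        have h6 : (w.re - 2 * (s.re - 6)) ^ 2 ≤ w.re ^ 2 := sq_le_sq.2 h5
        nlinarith
      have h2 := hGG w' (by rw [hvre]; rw [sub_re]; linarith) (by linarith)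
      have h3 := hLam (s + w') (by rw [hvre, sub_re]; linarith)
      have h4 : (w' * ell s).re ≤ (starRingEnd ℂ w * ell s).re + -(4 * (ell s).re) := by
        rw [hw', sub_mul, sub_re, re_ofReal_mul]
        have : 0 ≤ (s.re - 8) * (ell s).re := mul_nonneg (by linarith) (by linarith)
        nlinarith
      have h5 : Real.exp (w' * ell s).re ≤ Real.exp (starRingEnd ℂ w * ell s).re *
          Real.exp (-(4 * (ell s).re)) := by
        rw [← Real.exp_add]
        exact Real.exp_le_exp.2 h4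
      rw [h1]
      have h6 : 0 ≤ (2 * (1 + C1) + 2 ^ 10 * C2) * x ^ 10 * Real.exp (2 * ‖w‖) := by positivity
      calc ‖Lam (s + w')‖ ≤ (1 + C1) * (2 * (‖GG s‖ * (Real.exp (starRingEnd ℂ w * ell s).re *
              Real.exp (-(4 * (ell s).re))))) := by
            refine h3.trans ?_
            gcongr
            refine h2.trans ?_
            gcongr
        _ = ‖GG s‖ * (2 * (1 + C1) * Real.exp (-(4 * (ell s).re)) *
              Real.exp (starRingEnd ℂ w * ell s).re) := by ring
        _ ≤ ‖GG s‖ * ((2 * (1 + C1) + 2 ^ 10 * C2) * Real.exp (-(4 * (ell s).re)) *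
              Real.exp (starRingEnd ℂ w * ell s).re) := by
            have : (0 : ℝ) ≤ 2 ^ 10 * C2 := by positivity
            gcongr
            linarith
        _ ≤ _ := by
            gcongr
            linarith

end Pool.Agent.Helper33.XD
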