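import Pool.Agent.Helper33.XD.Par

set_option autoImplicit false

namespace Pool.Agent.Helper33.XD

open Complex Filter Topology Set MeasureTheory
open scoped Real

lemma GG_deriv {s : ℂ} (hs : 0 < s.re) :
    HasDerivAt GG (GG s * (logDeriv Gamma s - (Real.log (2 * π) : ℝ))) s := by
  have hc : ((2 * π : ℝ) : ℂ) ≠ 0 := by
    have : (2 * π : ℝ) ≠ 0 := by positivity
    exact_mod_cast this
  have h1 : HasDerivAt (fun s : ℂ => ((2 * π : ℝ) : ℂ) ^ (-s))
      (((2 * π : ℝ) : ℂ) ^ (-s) * log ((2 * π : ℝ) : ℂ) * (-1)) s :=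
    (hasDerivAt_neg s).const_cpow (Or.inl hc)
  have h2 := (Gamma_diffAt hs).hasDerivAt
  have h3 := h1.mul h2
  have hG := Gamma_ne_zero_of_re_pos hs
  refine h3.congr_deriv ?_
  rw [← ofReal_log (by positivity), logDeriv_apply]
  unfold GG
  field_simp
  ring

lemma ell_deriv {s : ℂ} (hs : 0 < s.re) : HasDerivAt ell (1 / s) s :=
  (HasDerivAt.clog (hasDerivAt_id s) (Or.inl hs)).sub_const _

lemma MM_deriv (m : ℕ) (ρ : ℝ) {s : ℂ} (hs : 0 < s.re) (hl : ell s ≠ 0) :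
    HasDerivAt (MM m ρ) (MM m ρ s * (logDeriv Gamma s - (Real.log (2 * π) : ℝ) + m / (s * ell s))) s := by
  have hs0 : s ≠ 0 := by intro h; rw [h] at hs; simp at hs
  have h1 := (GG_deriv hs).mul (((ell_deriv hs).pow m).const_mul ((2 * π / m.factorial * ρ ^ m : ℝ) : ℂ))
  refine h1.congr_deriv ?_
  unfold MM
  rcases Nat.eq_zero_or_pos m with h0 | h0
  · subst h0
    simp
    ring
  · obtain ⟨n, rfl⟩ : ∃ n, m = n + 1 := ⟨m - 1, by omega⟩
    simp only [Nat.add_sub_cancel, Pi.pow_apply]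
    field_simp
    ring

lemma MM_ne {m : ℕ} {ρ : ℝ} (hρ : 0 < ρ) {s : ℂ} (hs : 0 < s.re) (hl : ell s ≠ 0) : MM m ρ s ≠ 0 := by
  unfold MM
  refine mul_ne_zero (GG_ne hs) (mul_ne_zero ?_ (pow_ne_zero _ hl))
  have : (2 * π / m.factorial * ρ ^ m : ℝ) ≠ 0 := by positivity
  exact_mod_cast this

lemma Good.ell_ne {m : ℕ} {ρ : ℝ} {s : ℂ} (h : Good m ρ s) : ell s ≠ 0 := by
  intro h0
  have := h.L5
  rw [h0] at this
  simp at this
  linarith

/-- abstract form of the computation of a logarithmic derivative -/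
lemma logder_aux {E M : ℂ → ℂ} {s Q : ℂ} {ε₁ r : ℝ} (hr : 0 < r) (hε1 : ε₁ ≤ 1 / 2)
    (hE : Differentiable ℂ E) (hM : ∀ z ∈ Metric.closedBall s r, DifferentiableAt ℂ M z ∧ M z ≠ 0 ∧
      ‖E z - M z‖ ≤ ε₁ * ‖M z‖) (hQ : HasDerivAt M (M s * Q) s) :
    E s ≠ 0 ∧ ‖deriv E s / E s - Q‖ ≤ 2 * (ε₁ / r) := by
  have hs := hM s (Metric.mem_closedBall_self hr.le)
  have hMn : 0 < ‖M s‖ := norm_pos_iff.2 hs.2.1
  have hE0 : E s ≠ 0 := by
    intro h0
    have h1 := hs.2.2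
    rw [h0, zero_sub, norm_neg] at h1
    nlinarith
  refine ⟨hE0, ?_⟩
  set η : ℂ → ℂ := fun z => E z / M z - 1 with hη
  have hηb : ∀ z ∈ Metric.closedBall s r, ‖η z‖ ≤ ε₁ := by
    intro z hz
    obtain ⟨-, h2, h3⟩ := hM z hz
    have h4 : 0 < ‖M z‖ := norm_pos_iff.2 h2
    have : η z = (E z - M z) / M z := by
      simp only [hη]
      field_simp
    rw [this, norm_div, div_le_iff₀ h4]
    exact h3
  have hηd : ∀ z ∈ Metric.closedBall s r, DifferentiableAt ℂ η z := by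
    intro z hz
    obtain ⟨h1, h2, -⟩ := hM z hz
    exact ((hE z).div h1 h2).sub_const 1
  have h1 : ‖deriv η s‖ ≤ ε₁ / r := by
    apply Complex.norm_deriv_le_of_forall_mem_sphere_norm_le hr
    · apply DifferentiableOn.diffContOnCl
      rw [closure_ball _ hr.ne']
      intro z hz
      exact (hηd z hz).differentiableWithinAt
    · intro z hz
      exact hηb z (Metric.sphere_subset_closedBall hz)
  have h2 : HasDerivAt η ((deriv E s * M s - E s * (M s * Q)) / M s ^ 2) s :=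
    ((hE s).hasDerivAt.div hQ hs.2.1).sub_const 1
  have h3 : deriv E s / E s - Q = deriv η s * (M s / E s) := by
    rw [h2.deriv]
    have := hs.2.1
    field_simp
  rw [h3, norm_mul, norm_div]
  have h4 : ‖M s‖ / ‖E s‖ ≤ 2 := by
    have hEn : 0 < ‖E s‖ := norm_pos_iff.2 hE0
    rw [div_le_iff₀ hEn]
    have h5 := norm_sub_norm_le (M s) (E s)
    rw [norm_sub_rev] at h5
    have h6 := hs.2.2
    nlinarith
  calc ‖deriv η s‖ * (‖M s‖ / ‖E s‖) ≤ (ε₁ / r) * 2 := by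
        gcongr
        exact (norm_nonneg _).trans h1
    _ = _ := by ring

theorem logder {ε : ℝ} (hε : 0 < ε) : ∃ C₀ : ℝ, Real.exp 20 ≤ C₀ ∧ ∀ (x : ℝ) (m : ℕ), C₀ ≤ x →
    C₀ * Real.log x ≤ m → (m : ℝ) ^ 2 ≤ x → Par x m ∧ ∀ s : ℂ, |s.re - 6| ≤ 2 → |s.im - x| ≤ 1 / 2 →
    EE m (rho m x) s ≠ 0 ∧ ‖deriv (EE m (rho m x)) s / EE m (rho m x) s - ell s‖ ≤ ε ∧
    ‖EE m (rho m x) s - MM m (rho m x) s‖ ≤ ε * ‖MM m (rho m x) s‖ := by
  obtain ⟨C₁, hC1, hC⟩ := near_box (ε := min (ε / 8) (1 / 2)) (by positivity)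
  refine ⟨max C₁ (16 / ε), hC1.trans (le_max_left _ _), fun x m hx hm hmx => ?_⟩
  have hx20 : Real.exp 20 ≤ x := (hC1.trans (le_max_left _ _)).trans hx
  have hL := log_ge hx20
  have h16 : 16 / ε ≤ x := (le_max_right _ _).trans hx
  have hx8 := exp20.trans hx20
  obtain ⟨hpar, hbox⟩ := hC x m ((le_max_left _ _).trans hx) (le_trans (by gcongr; exact le_max_left _ _) hm) hmx
  have hm16 : 16 / ε ≤ m := by
    calc 16 / ε ≤ max C₁ (16 / ε) * 1 := by rw [mul_one]; exact le_max_right _ _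
      _ ≤ max C₁ (16 / ε) * Real.log x := by gcongr; linarith
      _ ≤ m := hm
  obtain ⟨-, -, hm480, hmx'⟩ := hpar.bas
  refine ⟨hpar, fun s hs1 hs2 => ?_⟩
  have hin : ∀ z ∈ Metric.closedBall s (1 / 2), |z.re - 6| ≤ 3 ∧ |z.im - x| ≤ 1 := by
    intro z hz
    rw [mem_closedBall_iff_norm] at hz
    have h1 := (abs_re_le_norm (z - s)).trans hz
    have h2 := (abs_im_le_norm (z - s)).trans hz
    rw [sub_re] at h1
    rw [sub_im] at h2
    rw [abs_le] at h1 h2 hs1 hs2 ⊢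
    rw [abs_le]
    refine ⟨⟨by linarith, by linarith⟩, ⟨by linarith, by linarith⟩⟩
  have hs3 : |s.re - 6| ≤ 3 := by linarith
  have hs4 : |s.im - x| ≤ 1 := by linarith
  obtain ⟨hg, hap⟩ := hbox s hs3 hs4
  have hre : 0 < s.re := by have := hg.re; linarith
  have him : x / 2 ≤ s.im := by rw [abs_le] at hs4; linarith
  have hell := hg.ell_ne
  have h1 := logder_aux (E := EE m (rho m x)) (M := MM m (rho m x)) (s := s)
    (Q := logDeriv Gamma s - (Real.log (2 * π) : ℝ) + m / (s * ell s)) (r := 1 / 2)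
    (ε₁ := min (ε / 8) (1 / 2)) (by norm_num) (min_le_right _ _) (EE_diff m _) (fun z hz => by
      obtain ⟨h2, h3⟩ := hin z hz
      obtain ⟨h4, h5⟩ := hbox z h2 h3
      have h6 : 0 < z.re := by have := h4.re; linarith
      exact ⟨(MM_deriv m _ h6 h4.ell_ne).differentiableAt, MM_ne h4.ρ0 h6 h4.ell_ne, h5⟩)
    (MM_deriv m _ hre hell)
  refine ⟨h1.1, ?_, ?_⟩
  · have h2 : ‖logDeriv Gamma s - (Real.log (2 * π) : ℝ) + m / (s * ell s) - ell s‖ ≤ ε / 2 := by
      have e : logDeriv Gamma s - (Real.log (2 * π) : ℝ) + m / (s * ell s) - ell s =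
          (logDeriv Gamma s - log s) + m / (s * ell s) := by
        unfold ell
        ring
      rw [e]
      have h3 := digam (s := s) (by have := hg.re; linarith) (by linarith)
      have h4 : 2 / s.im ≤ ε / 4 := by
        rw [div_le_div_iff₀ (by linarith) (by norm_num)]
        rw [div_le_iff₀ hε] at h16
        nlinarith
      have h5 : ‖(m : ℂ) / (s * ell s)‖ ≤ ε / 4 := by
        rw [norm_div, norm_mul, norm_natCast]
        have h6 : x / 2 ≤ ‖s‖ := him.trans ((le_abs_self _).trans (abs_im_le_norm s))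
        have h7 : 5 ≤ ‖ell s‖ := hg.L5.trans ((le_abs_self _).trans (abs_re_le_norm _))
        calc (m : ℝ) / (‖s‖ * ‖ell s‖) ≤ m / (x / 2 * 5) := by gcongr
          _ ≤ m / ((m : ℝ) ^ 2 / 2 * 5) := by gcongr
          _ = 2 / 5 / m := by
            have : (m : ℝ) ≠ 0 := by linarith
            field_simp
          _ ≤ 2 / 5 / (16 / ε) := by gcongr
          _ = ε / 40 := by field_simp; norm_num
          _ ≤ ε / 4 := by linarith
      calc _ ≤ ‖logDeriv Gamma s - log s‖ + ‖(m : ℂ) / (s * ell s)‖ := norm_add_le _ _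
        _ ≤ ε / 4 + ε / 4 := add_le_add (h3.trans h4) h5
        _ = ε / 2 := by ring
    have h3 : 2 * (min (ε / 8) (1 / 2) / (1 / 2)) ≤ ε / 2 := by
      have := min_le_left (ε / 8) (1 / 2)
      linarith
    have h4 := norm_add_le (deriv (EE m (rho m x)) s / EE m (rho m x) s -
      (logDeriv Gamma s - (Real.log (2 * π) : ℝ) + m / (s * ell s)))
      (logDeriv Gamma s - (Real.log (2 * π) : ℝ) + m / (s * ell s) - ell s)
    rw [sub_add_sub_cancel] at h4
    linarith [h1.2]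
  · refine hap.trans ?_
    gcongr
    have := min_le_left (ε / 8) (1 / 2)
    linarith

end Pool.Agent.Helper33.XD
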