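import Pool.Agent.Helper33.XD.Far
import Pool.Agent.Helper33.XD.Ld

set_option autoImplicit false

namespace Pool.Agent.Helper33.XD

open Complex Filter Topology Set MeasureTheory
open scoped Real

lemma arc_conj (ρ : ℝ) (ζ : ℂ) :
    ∫ ψ in (-(π / 2))..(π / 2), Real.exp (starRingEnd ℂ (cw ρ ψ) * ζ).re =
      ∫ ψ in (-(π / 2))..(π / 2), Real.exp (cw ρ ψ * ζ).re := by
  have h := intervalIntegral.integral_comp_neg (a := -(π / 2)) (b := π / 2)
    (fun ψ : ℝ => Real.exp (cw ρ ψ * ζ).re)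
  rw [neg_neg] at h
  rw [← h]
  congr 1
  funext ψ
  rw [cw_neg]

/-- the other part is small -/
lemma other_int : ∃ C : ℝ, 0 < C ∧ ∀ (x : ℝ) (m : ℕ), Par x m → ∀ s : ℂ, 8 ≤ s.re → s.im = x →
    ‖EE m (rhos m s) (12 - s)‖ ≤ C / x * ‖MM m (rhos m s) s‖ := by
  obtain ⟨C, hC, hpt⟩ := other_pt
  refine ⟨21 * C * 10, by positivity, fun x m hpar s h8 him => ?_⟩
  obtain ⟨hx8, hL, hm, hmx⟩ := hpar.bas
  obtain ⟨e1, e2, e3, e4⟩ := far_ell hpar.x0 h8 him
  obtain ⟨hg, hR, hρ18, hρ2, hρ3⟩ := hpar.goodfar h8 him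
  have hρ := hg.ρ0
  have hx0 : 0 < x := by linarith
  have hm0 : (0 : ℝ) < m := by linarith
  have hpi := Real.pi_lt_d2
  have hpi0 := Real.pi_pos
  set ρ := rhos m s with hρd
  have hcw := continuous_cw ρ
  have c1 : Continuous fun ψ : ℝ => Real.exp (starRingEnd ℂ (cw ρ ψ) * ell s).re := by
    refine Real.continuous_exp.comp (continuous_re.comp ?_)
    exact (continuous_conj.comp hcw).mul continuous_const
  have h1 : ‖EE m ρ (12 - s)‖ ≤ ∫ ψ in (-(π / 2))..(π / 2),
      (‖GG s‖ * C * x ^ 10 * Real.exp (2 * ρ) * 1 +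
        ‖GG s‖ * C * Real.exp (-(4 * (ell s).re)) * Real.exp (starRingEnd ℂ (cw ρ ψ) * ell s).re) := by
    unfold EE
    apply intervalIntegral.norm_integral_le_of_norm_le (by linarith)
    · refine Eventually.of_forall fun ψ hψ => ?_
      have hexp : ‖exp (-(m * ψ) * I)‖ = 1 := by
        have : -(m * ψ) * I = ((-(m * ψ) : ℝ) : ℂ) * I := by push_cast; ring
        rw [this, norm_exp_ofReal_mul_I]
      rw [norm_mul, hexp, mul_one, show 12 - s + cw ρ ψ = 12 - (s - cw ρ ψ) by ring, Lam_fe]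
      have h2 := hpt x hpar.x0 s (cw ρ ψ) h8 him (by
        rw [cw_re]
        exact mul_nonneg hρ.le (Real.cos_nonneg_of_mem_Icc ⟨hψ.1.le, hψ.2⟩)) (by
        rw [norm_cw hρ.le]
        exact hρ3)
      rw [norm_cw hρ.le] at h2
      refine h2.trans (le_of_eq ?_)
      ring
    · exact (continuous_const.add (continuous_const.mul c1)).intervalIntegrable _ _
  rw [int2 _ _ continuous_const c1, arc_conj, intervalIntegral.integral_const, smul_eq_mul,
    show π / 2 - -(π / 2) = π by ring] at h1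
  have ha := hg.arcs.1
  have hfin := hg.fin
  rw [hR] at ha hfin
  set X := Real.exp m / √m with hX
  have hX0 : 0 < X := by positivity
  have hsm : √(m : ℝ) ≠ 0 := by positivity
  have h2 : Real.exp (2 * ρ) = (√m * Real.exp (2 * ρ - m)) * X := by
    rw [hX, Real.exp_sub]
    field_simp
  have h3 : x ^ 10 * (√m * Real.exp (2 * ρ - m)) ≤ 1 / x := by
    have h4 : √(m : ℝ) ≤ x := by
      rw [Real.sqrt_le_left hx0.le]
      nlinarith
    calc x ^ 10 * (√m * Real.exp (2 * ρ - m)) ≤ x ^ 10 * (x * Real.exp (-(((20 : ℕ) : ℝ) * Real.log x))) := by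
          gcongr
          have := hpar.lo
          push_cast
          linarith
      _ = 1 / x ^ 9 := by
          rw [exp_neg_log hx0]
          field_simp
      _ ≤ 1 / x := by
          apply one_div_le_one_div_of_le hx0
          calc x = x ^ 1 := (pow_one x).symm
            _ ≤ x ^ 9 := pow_le_pow_right₀ (by linarith) (by norm_num)
  have h5 : Real.exp (-(4 * (ell s).re)) ≤ 1 / x := by
    have h6 : Real.exp (-(((1 : ℕ) : ℝ) * Real.log x)) = 1 / x := by
      rw [exp_neg_log hx0]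
      simp
    rw [← h6]
    apply Real.exp_le_exp.2
    push_cast
    linarith
  have hG := norm_nonneg (GG s)
  calc ‖EE m ρ (12 - s)‖ ≤ ‖GG s‖ * C * x ^ 10 * Real.exp (2 * ρ) * (π * 1) +
        ‖GG s‖ * C * Real.exp (-(4 * (ell s).re)) * (6 * X) := by
        refine h1.trans ?_
        gcongr
    _ = (‖GG s‖ * X) * C * ((x ^ 10 * (√m * Real.exp (2 * ρ - m))) * π + Real.exp (-(4 * (ell s).re)) * 6) := by
        rw [h2]
        ring
    _ ≤ (21 * ‖MM m ρ s‖) * C * ((1 / x) * 4 + (1 / x) * 6) := by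
        gcongr
        linarith
    _ = _ := by ring

/-- no zeros far from the line -/
theorem far : ∃ C₀ : ℝ, Real.exp 20 ≤ C₀ ∧ ∀ (x : ℝ) (m : ℕ), C₀ ≤ x →
    C₀ * Real.log x ≤ m → (m : ℝ) ^ 2 ≤ x → ∀ s : ℂ, 8 ≤ s.re → s.im = x → iteratedDeriv m Lam s ≠ 0 := by
  obtain ⟨K, hK, hap⟩ := approx_far
  obtain ⟨C, hC, hot⟩ := other_int
  have ht : Tendsto (fun C : ℝ => 4 / Real.log C ^ 2 + 3 / C + Real.exp (-(C / 6))) atTop (𝓝 0) := by
    have h1 : Tendsto (fun C : ℝ => 4 / Real.log C ^ 2) atTop (𝓝 0) :=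
      tendsto_const_nhds.div_atTop ((tendsto_pow_atTop two_ne_zero).comp Real.tendsto_log_atTop)
    have h2 : Tendsto (fun C : ℝ => 3 / C) atTop (𝓝 0) := tendsto_const_nhds.div_atTop tendsto_id
    have h3 : Tendsto (fun C : ℝ => Real.exp (-(C / 6))) atTop (𝓝 0) :=
      Real.tendsto_exp_neg_atTop_nhds_zero.comp (tendsto_id.atTop_div_const (by norm_num))
    simpa using (h1.add h2).add h3
  have h1 := ht.eventually (gt_mem_nhds (show 0 < 1 / (2 * K) by positivity))
  obtain ⟨C₀, ⟨hC1, hC2⟩, hC3⟩ := ((h1.and (eventually_ge_atTop (Real.exp 20))).and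
    (eventually_ge_atTop (4 * C))).exists
  refine ⟨C₀, hC2, fun x m hx hm hmx s h8 him h0 => ?_⟩
  have hx20 := hC2.trans hx
  have h8' := exp20.trans hC2
  have hL := log_ge hx20
  have hLC := log_ge hC2
  have hpar : Par x m := ⟨hx20, by nlinarith, hmx⟩
  obtain ⟨hg, hR, -, -, -⟩ := hpar.goodfar h8 him
  have hMn : 0 < ‖MM m (rhos m s) s‖ :=
    norm_pos_iff.2 (MM_ne hg.ρ0 (by linarith) hg.ell_ne)
  have hE : ‖EE m (rhos m s) s - MM m (rhos m s) s‖ ≤ 1 / 2 * ‖MM m (rhos m s) s‖ := by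
    refine (hap m (rhos m s) s hg h8).trans ?_
    have h2 := hpar.err_far (by linarith) hm h8 him
    have h3 : 4 / Real.log x ^ 2 + 3 / x + Real.exp (-(C₀ / 6)) ≤
        4 / Real.log C₀ ^ 2 + 3 / C₀ + Real.exp (-(C₀ / 6)) := by
      have h5 : Real.log C₀ ≤ Real.log x := Real.log_le_log (by linarith) hx
      gcongr
    have h4 : K * (1 / (2 * K)) = 1 / 2 := by field_simp
    rw [← h4]
    gcongr
    linarith
  have hO : ‖EE m (rhos m s) (12 - s)‖ ≤ 1 / 4 * ‖MM m (rhos m s) s‖ := by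
    refine (hot x m hpar s h8 him).trans ?_
    have h6 : C / x ≤ 1 / 4 := by
      rw [div_le_div_iff₀ (by linarith) (by norm_num)]
      linarith
    exact mul_le_mul_of_nonneg_right h6 (norm_nonneg _)
  have hrep := rep m hg.ρ0 s
  rw [h0, mul_zero] at hrep
  have h2 : EE m (rhos m s) s = -((-1) ^ m * EE m (rhos m s) (12 - s)) :=
    eq_neg_of_add_eq_zero_left hrep.symm
  have h3 : ‖EE m (rhos m s) s‖ = ‖EE m (rhos m s) (12 - s)‖ := by
    rw [h2, norm_neg, norm_mul, norm_pow, norm_neg, norm_one, one_pow, one_mul]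
  have h4 := norm_sub_norm_le (MM m (rhos m s) s) (EE m (rhos m s) s)
  rw [norm_sub_rev] at h4
  linarith

end Pool.Agent.Helper33.XD
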