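import Pool.Agent.Helper33.XD.Line

set_option autoImplicit false

namespace Pool.Agent.Helper33.XD

open Complex Filter Topology Set MeasureTheory
open scoped Real

variable {E Lm : ℂ → ℂ} {c : ℝ} {m : ℕ}

/-- the phase on an interval -/
lemma Sym.theta (h : Sym E Lm c m) {x y a b : ℝ} (hxy : x ≤ y)
    (hE : ∀ t ∈ Icc x y, E (6 + t * I) ≠ 0)
    (ha : ∀ t ∈ Icc x y, a ≤ (deriv E (6 + t * I) / E (6 + t * I)).re)
    (hb : ∀ t ∈ Icc x y, (deriv E (6 + t * I) / E (6 + t * I)).re ≤ b) :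
    ∃ (φ : ℝ) (P : ℝ → ℝ), ContinuousOn P (Icc x y) ∧ P x = 0 ∧
      (∀ s ∈ Icc x y, ∀ t ∈ Icc x y, s ≤ t → a * (t - s) ≤ P t - P s ∧ P t - P s ≤ b * (t - s)) ∧
      ∀ t ∈ Icc x y, (Lm (6 + t * I) = 0 ↔ Real.cos (φ + P t) = 0) := by
  obtain ⟨q, hq⟩ : ∃ q : ℝ → ℂ, q = fun τ : ℝ => deriv E (6 + (τ : ℂ) * I) / E (6 + (τ : ℂ) * I) := ⟨_, rfl⟩
  have hdE : Continuous (deriv E) := (h.diff.contDiff (n := 1)).continuous_deriv le_rfl
  have hqc : ContinuousOn q (Icc x y) := by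
    rw [hq]
    apply ContinuousOn.div
    · exact (hdE.comp (by fun_prop)).continuousOn
    · exact (h.diff.continuous.comp (by fun_prop)).continuousOn
    · exact hE
  have hint : ∀ s ∈ Icc x y, ∀ t ∈ Icc x y, IntervalIntegrable q volume s t := by
    intro s hs t ht
    exact (hqc.mono (by
      intro z hz
      rw [mem_uIcc] at hz
      rcases hz with hz | hz
      · exact ⟨hs.1.trans hz.1, hz.2.trans ht.2⟩
      · exact ⟨ht.1.trans hz.1, hz.2.trans hs.2⟩)).intervalIntegrable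
  have hxm : x ∈ Icc x y := ⟨le_rfl, hxy⟩
  have hre : ∀ s ∈ Icc x y, ∀ t ∈ Icc x y, (∫ τ in s..t, (q τ).re) = (∫ τ in s..t, q τ).re := by
    intro s hs t ht
    have := Complex.reCLM.intervalIntegral_comp_comm (hint s hs t ht)
    simpa using this
  set F0 : ℂ := I ^ m * E (6 + x * I) with hF0
  have hF0n : F0 ≠ 0 := mul_ne_zero (pow_ne_zero _ I_ne_zero) (hE x hxm)
  refine ⟨arg F0, fun t => (∫ τ in x..t, q τ).re, ?_, by simp, ?_, ?_⟩
  · have hint' : IntegrableOn q (uIcc x y) volume := by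
      rw [uIcc_of_le hxy]
      exact hqc.integrableOn_Icc
    have := intervalIntegral.continuousOn_primitive_interval (a := x) (b := y) hint'
    rw [uIcc_of_le hxy] at this
    exact continuous_re.comp_continuousOn this
  · intro s hs t ht hst
    have e : (∫ τ in x..t, q τ).re - (∫ τ in x..s, q τ).re = ∫ τ in s..t, (q τ).re := by
      rw [hre s hs t ht, ← sub_re,
        intervalIntegral.integral_interval_sub_left (hint x hxm t ht) (hint x hxm s hs)]
    have hri : IntervalIntegrable (fun τ => (q τ).re) volume s t :=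
      ⟨Integrable.re (hint s hs t ht).1, Integrable.re (hint s hs t ht).2⟩
    rw [e]
    constructor
    · have h1 : ∫ τ in s..t, a ≤ ∫ τ in s..t, (q τ).re := by
        apply intervalIntegral.integral_mono_on hst intervalIntegrable_const hri
        intro τ hτ
        have := ha τ ⟨hs.1.trans hτ.1, hτ.2.trans ht.2⟩
        rw [hq]
        exact this
      rw [intervalIntegral.integral_const, smul_eq_mul] at h1
      linarith
    · have h1 : ∫ τ in s..t, (q τ).re ≤ ∫ τ in s..t, b := by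
        apply intervalIntegral.integral_mono_on hst hri intervalIntegrable_const
        intro τ hτ
        have := hb τ ⟨hs.1.trans hτ.1, hτ.2.trans ht.2⟩
        rw [hq]
        exact this
      rw [intervalIntegral.integral_const, smul_eq_mul] at h1
      linarith
  · intro t ht
    have h1 := h.phase t
    have h2 := phase_eq h.diff x y hxy hE m t ht
    rw [← hF0] at h2
    have hqi : ∫ τ in x..t, deriv E (6 + (τ : ℂ) * I) / E (6 + (τ : ℂ) * I) = ∫ τ in x..t, q τ := by rw [hq]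
    rw [hqi] at h2
    set u : ℂ := ∫ τ in x..t, q τ with hu
    have h3 : (I ^ m * E (6 + t * I)).re = ‖F0‖ * Real.exp (-u.im) * Real.cos (arg F0 + u.re) := by
      rw [h2]
      conv_lhs => rw [← norm_mul_exp_arg_mul_I F0]
      rw [mul_assoc, ← Complex.exp_add]
      have : (arg F0 : ℂ) * I + I * u = ((-u.im : ℝ) : ℂ) + ((arg F0 + u.re : ℝ) : ℂ) * I := by
        apply Complex.ext <;> simp
      rw [this, re_ofReal_mul, Complex.exp_add, ← ofReal_exp, re_ofReal_mul, exp_ofReal_mul_I_re]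
      ring
    have hc : (c : ℂ) ≠ 0 := by exact_mod_cast h.c0
    have hpos : 0 < ‖F0‖ * Real.exp (-u.im) := mul_pos (norm_pos_iff.2 hF0n) (Real.exp_pos _)
    constructor
    · intro h0
      rw [h0, mul_zero, mul_zero] at h1
      have h4 : (2 * (I ^ m * E (6 + t * I)).re : ℝ) = 0 := by exact_mod_cast h1.symm
      rw [h3] at h4
      have h5 : ‖F0‖ * Real.exp (-u.im) * Real.cos (arg F0 + u.re) = 0 := by linarith
      exact (mul_eq_zero.1 h5).resolve_left hpos.ne'
    · intro h0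
      rw [h3, h0, mul_zero, mul_zero, ofReal_zero] at h1
      exact (mul_eq_zero.1 ((mul_eq_zero.1 h1).resolve_left hc)).resolve_left (pow_ne_zero _ I_ne_zero)

/-- the next zero -/
lemma Sym.next (h : Sym E Lm c m) {x a b : ℝ} (ha7 : 7 ≤ a)
    (hE : ∀ t ∈ Icc x (x + 1 / 2), E (6 + t * I) ≠ 0)
    (ha : ∀ t ∈ Icc x (x + 1 / 2), a ≤ (deriv E (6 + t * I) / E (6 + t * I)).re)
    (hb : ∀ t ∈ Icc x (x + 1 / 2), (deriv E (6 + t * I) / E (6 + t * I)).re ≤ b)
    (h0 : Lm (6 + x * I) = 0) :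
    ∃ x' : ℝ, x < x' ∧ Lm (6 + x' * I) = 0 ∧ (∀ t : ℝ, x < t → t < x' → Lm (6 + t * I) ≠ 0) ∧
      a ≤ π / (x' - x) ∧ π / (x' - x) ≤ b := by
  obtain ⟨φ, P, hPc, hP0, hPm, hz⟩ := h.theta (by linarith : x ≤ x + 1 / 2) hE ha hb
  have hxm : x ∈ Icc x (x + 1 / 2) := ⟨le_rfl, by linarith⟩
  have hym : x + 1 / 2 ∈ Icc x (x + 1 / 2) := ⟨by linarith, le_rfl⟩
  have hpi := Real.pi_lt_d2
  have hpi0 := Real.pi_pos
  have h1 : π ≤ P (x + 1 / 2) := by
    have := (hPm x hxm _ hym (by linarith)).1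
    rw [hP0] at this
    linarith
  obtain ⟨x', hx', hPx'⟩ := intermediate_value_Icc (by linarith : x ≤ x + 1 / 2) hPc
    (⟨by rw [hP0]; exact hpi0.le, h1⟩ : π ∈ Icc (P x) (P (x + 1 / 2)))
  have hlt : x < x' := by
    rcases hx'.1.lt_or_eq with h2 | h2
    · exact h2
    · rw [← h2, hP0] at hPx'
      exact absurd hPx' hpi0.ne
  have hcx : Real.cos φ = 0 := by
    have := (hz x hxm).1 h0
    rwa [hP0, add_zero] at this
  have hsx : Real.sin φ ≠ 0 := by
    intro hs
    have := Real.sin_sq_add_cos_sq φ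
    rw [hs, hcx] at this
    norm_num at this
  refine ⟨x', hlt, (hz x' hx').2 ?_, ?_, ?_, ?_⟩
  · rw [hPx', Real.cos_add_pi, hcx, neg_zero]
  · intro t ht1 ht2 hL
    have htm : t ∈ Icc x (x + 1 / 2) := ⟨ht1.le, ht2.le.trans hx'.2⟩
    have h2 := (hz t htm).1 hL
    rw [Real.cos_add, hcx, zero_mul, zero_sub, neg_eq_zero] at h2
    have h3 := (mul_eq_zero.1 h2).resolve_left hsx
    have h4 := (hPm x hxm t htm ht1.le).1
    have h5 := (hPm t htm x' hx' ht2.le).1
    rw [hP0] at h4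
    rw [hPx'] at h5
    have h6 : 0 < P t := by nlinarith
    have h7 : P t < π := by nlinarith
    exact (Real.sin_pos_of_pos_of_lt_pi h6 h7).ne' h3
  · rw [le_div_iff₀ (by linarith)]
    have := (hPm x hxm x' hx' hx'.1).1
    rw [hPx', hP0] at this
    linarith
  · rw [div_le_iff₀ (by linarith)]
    have := (hPm x hxm x' hx' hx'.1).2
    rw [hPx', hP0] at this
    linarith

/-- existence of a zero -/
lemma Sym.exists (h : Sym E Lm c m) {x a b : ℝ} (ha7 : 7 ≤ a)
    (hE : ∀ t ∈ Icc x (x + 1 / 2), E (6 + t * I) ≠ 0)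
    (ha : ∀ t ∈ Icc x (x + 1 / 2), a ≤ (deriv E (6 + t * I) / E (6 + t * I)).re)
    (hb : ∀ t ∈ Icc x (x + 1 / 2), (deriv E (6 + t * I) / E (6 + t * I)).re ≤ b) :
    ∃ t : ℝ, x ≤ t ∧ t ≤ x + π / a ∧ Lm (6 + t * I) = 0 := by
  obtain ⟨φ, P, hPc, hP0, hPm, hz⟩ := h.theta (by linarith : x ≤ x + 1 / 2) hE ha hb
  have hxm : x ∈ Icc x (x + 1 / 2) := ⟨le_rfl, by linarith⟩
  have hym : x + 1 / 2 ∈ Icc x (x + 1 / 2) := ⟨by linarith, le_rfl⟩
  have hpi := Real.pi_lt_d2
  have hpi0 := Real.pi_pos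
  have h1 : π ≤ P (x + 1 / 2) := by
    have := (hPm x hxm _ hym (by linarith)).1
    rw [hP0] at this
    linarith
  obtain ⟨x', hx', hPx'⟩ := intermediate_value_Icc (by linarith : x ≤ x + 1 / 2) hPc
    (⟨by rw [hP0]; exact hpi0.le, h1⟩ : π ∈ Icc (P x) (P (x + 1 / 2)))
  have hxa : x' ≤ x + π / a := by
    have := (hPm x hxm x' hx' hx'.1).1
    rw [hPx', hP0] at this
    have h2 : x' - x ≤ π / a := by
      rw [le_div_iff₀ (by linarith)]
      linarith
    linarith
  have hc : ContinuousOn (fun t => Real.cos (φ + P t)) (Icc x x') :=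
    Real.continuous_cos.comp_continuousOn
      (continuousOn_const.add (hPc.mono (Icc_subset_Icc_right hx'.2)))
  have h0 : (0 : ℝ) ∈ (fun t => Real.cos (φ + P t)) '' (Icc x x') := by
    have h2 : Real.cos (φ + P x') = -Real.cos (φ + P x) := by
      rw [hPx', hP0, add_zero, Real.cos_add_pi]
    rcases le_total 0 (Real.cos (φ + P x)) with h3 | h3
    · exact intermediate_value_Icc' hx'.1 hc ⟨by simp only [h2]; linarith, h3⟩
    · exact intermediate_value_Icc hx'.1 hc ⟨h3, by simp only [h2]; linarith⟩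
  obtain ⟨t, ht, ht0⟩ := h0
  exact ⟨t, ht.1, ht.2.trans hxa, (hz t ⟨ht.1, ht.2.trans hx'.2⟩).2 ht0⟩

end Pool.Agent.Helper33.XD
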