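import Pool.Agent.Helper33.XD.Far2
import Pool.Agent.Helper33.XD.Space

set_option autoImplicit false

namespace Pool.Agent.Helper33.XD

open Complex Filter Topology Set MeasureTheory
open scoped Real

lemma sym_EE (m : ℕ) {ρ : ℝ} (hρ : 0 < ρ) :
    Sym (EE m ρ) (iteratedDeriv m Lam) (2 * π / m.factorial * ρ ^ m) m where
  diff := EE_diff m ρ
  conj := EE_conj m ρ
  c0 := by positivity
  rep := fun s => rep m hρ s

lemma Lam_iter_diff (m : ℕ) : Differentiable ℂ (iteratedDeriv m Lam) :=
  (differentiable_Lam.contDiff (n := (m + 1 : ℕ))).differentiable_iteratedDeriv m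
    (by exact_mod_cast Nat.lt_succ_self m)

lemma Xi_iter (m : ℕ) : iteratedDeriv m Xi = fun z => I ^ m * iteratedDeriv m Lam (6 + I * z) := by
  induction m with
  | zero =>
    funext z
    simp [Xi]
  | succ m ih =>
    rw [iteratedDeriv_succ, ih]
    funext z
    have h1 : HasDerivAt (fun z : ℂ => 6 + I * z) I z := by
      simpa using ((hasDerivAt_id z).const_mul I).const_add 6
    have h2 := ((Lam_iter_diff m (6 + I * z)).hasDerivAt.comp z h1).const_mul (I ^ m)
    rw [← iteratedDeriv_succ] at h2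
    have h3 : HasDerivAt (fun z => I ^ m * iteratedDeriv m Lam (6 + I * z))
      (I ^ m * (iteratedDeriv (m + 1) Lam (6 + I * z) * I)) z := h2
    rw [h3.deriv]
    ring

lemma Xi_even (z : ℂ) : Xi (-z) = Xi z := by
  unfold Xi
  rw [← Lam_fe (6 + I * z)]
  congr 1
  ring

lemma Xi_iter_neg (m : ℕ) (z : ℂ) : iteratedDeriv m Xi (-z) = (-1) ^ m * iteratedDeriv m Xi z := by
  have e : (fun z => Xi (-z)) = Xi := funext Xi_even
  have h := iteratedDeriv_comp_neg m Xi (-z)
  rw [e, neg_neg, smul_eq_mul] at h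
  exact h

lemma Lam_iter_fe (m : ℕ) (s : ℂ) : iteratedDeriv m Lam (12 - s) = (-1) ^ m * iteratedDeriv m Lam s := by
  have h := sym_EE m one_pos
  have hc : ((2 * π / m.factorial * 1 ^ m : ℝ) : ℂ) ≠ 0 := by exact_mod_cast h.c0
  have h1 := h.rep s
  have h2 := h.rep (12 - s)
  rw [sub_sub_cancel] at h2
  have h3 : ((-1 : ℂ) ^ m) * (-1) ^ m = 1 := by rw [← mul_pow]; norm_num
  apply mul_left_cancel₀ hc
  rw [h2]
  calc _ = (-1) ^ m * (EE m 1 s + (-1) ^ m * EE m 1 (12 - s)) := by
        rw [mul_add, ← mul_assoc, h3]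
        ring
    _ = _ := by rw [← h1]; ring

lemma Lam_iter_conj (m : ℕ) (s : ℂ) :
    iteratedDeriv m Lam (starRingEnd ℂ s) = starRingEnd ℂ (iteratedDeriv m Lam s) := by
  have h := sym_EE m one_pos
  have hc : ((2 * π / m.factorial * 1 ^ m : ℝ) : ℂ) ≠ 0 := by exact_mod_cast h.c0
  apply mul_left_cancel₀ hc
  have h1 := congrArg (starRingEnd ℂ) (h.rep s)
  rw [map_mul, conj_ofReal] at h1
  have h2 : starRingEnd ℂ (12 - s) = 12 - starRingEnd ℂ s := by
    rw [map_sub]
    congr 1
    exact Complex.conj_ofNat 12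
  rw [h1, h.rep, map_add, map_mul, ← h.conj, ← h.conj, h2]
  simp

/-- the main term of the asymptotic formula -/
noncomputable def mainTerm (m : ℕ) (x : ℝ) : ℂ := GG (6 + x * I) * ell (6 + x * I) ^ m

theorem final {ε : ℝ} (hε : 0 < ε) : ∃ C : ℝ, 1 ≤ C ∧ ∀ (x : ℝ) (m : ℕ), C ≤ x → C * Real.log x ≤ m →
    (m : ℝ) ^ 2 ≤ x →
    (∀ z : ℂ, |z.re| = x → iteratedDeriv m Xi z = 0 → z.im = 0 ∧ iteratedDeriv (m + 1) Xi z ≠ 0) ∧
    ‖iteratedDeriv m Xi x - ((2 * (I ^ m * mainTerm m x).re : ℝ) : ℂ)‖ ≤ ε * ‖mainTerm m x‖ ∧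
    (∃ t : ℝ, x ≤ t ∧ t ≤ x + π / (Real.log (x / (2 * π)) - ε) ∧ iteratedDeriv m Xi t = 0) ∧
    (iteratedDeriv m Xi x = 0 → ∃ x' : ℝ, x < x' ∧ iteratedDeriv m Xi x' = 0 ∧
      (∀ t : ℝ, x < t → t < x' → iteratedDeriv m Xi t ≠ 0) ∧
      |π / (x' - x) - Real.log (x / (2 * π))| ≤ ε) := by
  obtain ⟨δ, hδd⟩ : ∃ δ, δ = min (ε / 4) 1 := ⟨_, rfl⟩
  have hδ : 0 < δ := by rw [hδd]; positivity
  have hδ4 : δ ≤ ε / 4 := by rw [hδd]; exact min_le_left _ _
  have hδ1 : δ ≤ 1 := by rw [hδd]; exact min_le_right _ _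
  obtain ⟨C₁, hC1, H1⟩ := logder hδ
  obtain ⟨C₂, hC2, H2⟩ := far
  obtain ⟨C, hCd⟩ : ∃ C, C = max (max (max C₁ C₂) (14 / δ)) (Real.exp (ε + 20)) := ⟨_, rfl⟩
  have hCC1 : C₁ ≤ C := by
    rw [hCd]; exact ((le_max_left _ _).trans (le_max_left _ _)).trans (le_max_left _ _)
  have hCC2 : C₂ ≤ C := by
    rw [hCd]; exact ((le_max_right _ _).trans (le_max_left _ _)).trans (le_max_left _ _)
  have hCC3 : 14 / δ ≤ C := by rw [hCd]; exact (le_max_right _ _).trans (le_max_left _ _)
  have hCC4 : Real.exp (ε + 20) ≤ C := by rw [hCd]; exact le_max_right _ _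
  have hC8 : (10 ^ 8 : ℝ) ≤ C := exp20.trans (hC1.trans hCC1)
  refine ⟨C, by linarith, fun x m hx hm hmx => ?_⟩
  have hx20 : Real.exp 20 ≤ x := (hC1.trans hCC1).trans hx
  have hL := log_ge hx20
  have hx8 := exp20.trans hx20
  have hx0 : 0 < x := by linarith
  obtain ⟨hpar, hbox⟩ := H1 x m (hCC1.trans hx) (le_trans (by gcongr) hm) hmx
  have hfar := H2 x m (hCC2.trans hx) (le_trans (by gcongr) hm) hmx
  have h14 : 14 / x ≤ δ := by
    rw [div_le_iff₀ hx0]
    have := hCC3.trans hx
    rw [div_le_iff₀ hδ] at this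
    linarith
  have hρ : 0 < rho m x := by
    have := (hpar.good (s := 6 + x * I) (by rw [s0_re]; norm_num) (by rw [s0_im]; norm_num)).1
    exact this.ρ0
  have hsym := sym_EE m hρ
  -- the logarithmic derivative on the line
  have hq : ∀ t ∈ Icc x (x + 1 / 2), EE m (rho m x) (6 + t * I) ≠ 0 ∧
      Real.log (x / (2 * π)) - ε ≤ (deriv (EE m (rho m x)) (6 + t * I) / EE m (rho m x) (6 + t * I)).re ∧
      (deriv (EE m (rho m x)) (6 + t * I) / EE m (rho m x) (6 + t * I)).re ≤ Real.log (x / (2 * π)) + ε := by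
    intro t ht
    have h1 : |(6 + t * I : ℂ).re - 6| ≤ 2 := by rw [s0_re]; norm_num
    have h2 : |(6 + t * I : ℂ).im - x| ≤ 1 / 2 := by
      rw [s0_im, abs_le]
      constructor <;> linarith [ht.1, ht.2]
    obtain ⟨h3, h4, -⟩ := hbox _ h1 h2
    refine ⟨h3, ?_⟩
    have h5 := ell_box hx20 (s := 6 + t * I) (by linarith) (by linarith)
    have h6 := (abs_re_le_norm _).trans h4
    have h7 := (abs_re_le_norm _).trans h5
    rw [sub_re] at h6 h7
    have h8 : |(ell (6 + x * I)).re - Real.log (x / (2 * π))| ≤ 6 / x := by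
      rw [ell_re, Real.log_div hx0.ne' (by positivity)]
      have e : Real.log ‖(6 + x * I : ℂ)‖ - Real.log (2 * π) - (Real.log x - Real.log (2 * π)) =
          Real.log ‖(6 + x * I : ℂ)‖ - Real.log x := by ring
      have hn1 : x ≤ ‖(6 + x * I : ℂ)‖ := by
        have := abs_im_le_norm (6 + x * I : ℂ)
        rw [s0_im, abs_of_pos hx0] at this
        exact this
      have hn2 : ‖(6 + x * I : ℂ)‖ ≤ 6 + x := by
        refine (norm_le_abs_re_add_abs_im _).trans ?_
        rw [s0_re, s0_im, abs_of_pos hx0]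
        norm_num
      rw [e, ← Real.log_div (by linarith) hx0.ne', abs_of_nonneg]
      · refine (Real.log_le_sub_one_of_pos (div_pos (by linarith) hx0)).trans ?_
        rw [div_sub_one hx0.ne']
        gcongr
        linarith
      · apply Real.log_nonneg
        rw [le_div_iff₀ hx0]
        linarith
    have h9 : 8 / x + 6 / x = 14 / x := by ring
    rw [abs_le] at h6 h7 h8
    constructor <;> linarith [h6.1, h6.2, h7.1, h7.2, h8.1, h8.2]
  have h7a : 7 ≤ Real.log (x / (2 * π)) - ε := by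
    rw [Real.log_div hx0.ne' (by positivity)]
    have h1 := (Real.le_log_iff_exp_le hx0).2 (hCC4.trans hx)
    linarith [log2pi_lt]
  have hXi : ∀ t : ℝ, iteratedDeriv m Xi t = I ^ m * iteratedDeriv m Lam (6 + t * I) := by
    intro t
    have h1 := congrFun (Xi_iter m) (t : ℂ)
    rw [h1, mul_comm I (t : ℂ)]
  have hXi0 : ∀ t : ℝ, iteratedDeriv m Xi t = 0 ↔ iteratedDeriv m Lam (6 + t * I) = 0 := by
    intro t
    rw [hXi t]
    exact ⟨fun h => (mul_eq_zero.1 h).resolve_left (pow_ne_zero _ I_ne_zero), fun h => by rw [h, mul_zero]⟩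
  refine ⟨?_, ?_, ?_, ?_⟩
  · -- real and simple
    have key : ∀ z : ℂ, z.re = x → iteratedDeriv m Xi z = 0 → z.im = 0 ∧ iteratedDeriv (m + 1) Xi z ≠ 0 := by
      intro z hz h0
      have h1 : iteratedDeriv m Lam (6 + I * z) = 0 := by
        rw [Xi_iter] at h0
        exact (mul_eq_zero.1 h0).resolve_left (pow_ne_zero _ I_ne_zero)
      obtain ⟨σ, hσ⟩ : ∃ σ : ℝ, σ = 6 - z.im := ⟨_, rfl⟩
      have hs : (6 + I * z : ℂ) = σ + x * I := by
        apply Complex.ext
        · simp [hσ]
          ring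
        · simp [hz]
      rw [hs] at h1
      have him : z.im = 0 := by
        rcases lt_or_ge 8 σ with h8 | h8
        · exact absurd h1 (hfar _ (by simp; linarith) (by simp))
        · rcases lt_or_ge σ 4 with h4 | h4
          · exfalso
            have h5 : iteratedDeriv m Lam (((12 - σ : ℝ) : ℂ) + x * I) = 0 := by
              have h6 := twelve_sub σ x
              have h7 : (((12 - σ : ℝ) : ℂ) + x * I) = starRingEnd ℂ (12 - (σ + x * I)) := by
                rw [h6]
                simp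
              rw [h7, Lam_iter_conj, Lam_iter_fe, h1]
              simp
            exact hfar _ (by simp; linarith) (by simp) h5
          · have h9 := hsym.real (x := x) (fun σ' h4' h8' => by
              have h10 : |((σ' : ℂ) + x * I).re - 6| ≤ 2 := by
                simp only [add_re, ofReal_re, mul_re, I_re, mul_zero, ofReal_im, I_im, mul_one, sub_self,
                  add_zero]
                rw [abs_le]
                constructor <;> linarith
              have h11 : |((σ' : ℂ) + x * I).im - x| ≤ 1 / 2 := by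
                simp
              obtain ⟨h12, h13, -⟩ := hbox _ h10 h11
              refine ⟨h12, ?_⟩
              have h14 := (hpar.good (s := (σ' : ℂ) + x * I) (by linarith) (by linarith)).1.L5
              have h15 := (abs_re_le_norm _).trans h13
              rw [sub_re, abs_le] at h15
              linarith [h15.1]) h4 h8 h1
            linarith
      refine ⟨him, ?_⟩
      have hσ6 : σ = 6 := by linarith
      rw [hσ6] at h1
      push_cast at h1
      obtain ⟨h2, h3, -⟩ := hq x ⟨le_rfl, by linarith⟩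
      have h4 := hsym.simple (x := x) h2 (by linarith) h1
      rw [Xi_iter]
      simp only []
      rw [hs, hσ6, iteratedDeriv_succ]
      push_cast
      exact mul_ne_zero (pow_ne_zero _ I_ne_zero) h4
    intro z hz h0
    rcases le_total 0 z.re with h | h
    · rw [abs_of_nonneg h] at hz
      exact key z hz h0
    · rw [abs_of_nonpos h] at hz
      have h1 := key (-z) (by rw [neg_re]; exact hz) (by rw [Xi_iter_neg, h0, mul_zero])
      rw [Xi_iter_neg, neg_im] at h1
      exact ⟨by linarith [h1.1], fun h2 => h1.2 (by rw [h2, mul_zero])⟩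
  · -- the asymptotic formula
    have h1 := hsym.phase x
    obtain ⟨-, -, h2⟩ := hbox (6 + x * I) (by rw [s0_re]; norm_num) (by rw [s0_im]; norm_num)
    obtain ⟨c, hc⟩ : ∃ c : ℝ, c = 2 * π / m.factorial * rho m x ^ m := ⟨_, rfl⟩
    have hc0 : 0 < c := by rw [hc]; positivity
    rw [← hc] at h1
    have hM : MM m (rho m x) (6 + x * I) = c * mainTerm m x := by
      unfold MM mainTerm
      rw [← hc]
      ring
    rw [hM, norm_mul, norm_real, Real.norm_of_nonneg hc0.le] at h2
    rw [hXi x]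
    have h3 : (c : ℂ) * (I ^ m * iteratedDeriv m Lam (6 + x * I) - ((2 * (I ^ m * mainTerm m x).re : ℝ) : ℂ)) =
        ((2 * (I ^ m * (EE m (rho m x) (6 + x * I) - c * mainTerm m x)).re : ℝ) : ℂ) := by
      rw [mul_sub, h1]
      have : (I ^ m * (EE m (rho m x) (6 + x * I) - c * mainTerm m x)).re =
          (I ^ m * EE m (rho m x) (6 + x * I)).re - c * (I ^ m * mainTerm m x).re := by
        rw [mul_sub, sub_re, mul_left_comm, re_ofReal_mul]
      rw [this]
      push_cast
      ring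
    have h4 : c * ‖I ^ m * iteratedDeriv m Lam (6 + x * I) - ((2 * (I ^ m * mainTerm m x).re : ℝ) : ℂ)‖ ≤
        2 * (δ * (c * ‖mainTerm m x‖)) := by
      have h5 := congrArg norm h3
      rw [norm_mul, norm_real, Real.norm_of_nonneg hc0.le] at h5
      rw [h5, norm_real, norm_mul, Real.norm_ofNat, Real.norm_eq_abs]
      gcongr
      refine (abs_re_le_norm _).trans ?_
      rw [norm_mul, norm_pow, norm_I, one_pow, one_mul]
      exact h2
    have h6 : c * ‖I ^ m * iteratedDeriv m Lam (6 + x * I) - ((2 * (I ^ m * mainTerm m x).re : ℝ) : ℂ)‖ ≤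
        c * (ε * ‖mainTerm m x‖) := by
      refine h4.trans ?_
      have : 0 ≤ ‖mainTerm m x‖ := norm_nonneg _
      have h7 : 2 * (δ * (c * ‖mainTerm m x‖)) = c * ((2 * δ) * ‖mainTerm m x‖) := by ring
      rw [h7]
      gcongr
      linarith
    exact le_of_mul_le_mul_left h6 hc0
  · obtain ⟨t, ht1, ht2, ht3⟩ := hsym.exists (x := x) h7a (fun t ht => (hq t ht).1)
      (fun t ht => (hq t ht).2.1) (fun t ht => (hq t ht).2.2)
    exact ⟨t, ht1, ht2, (hXi0 t).2 ht3⟩
  · intro h0
    obtain ⟨x', h1, h2, h3, h4, h5⟩ := hsym.next (x := x) h7a (fun t ht => (hq t ht).1)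
      (fun t ht => (hq t ht).2.1) (fun t ht => (hq t ht).2.2) ((hXi0 x).1 h0)
    refine ⟨x', h1, (hXi0 x').2 h2, fun t ht1 ht2 h => h3 t ht1 ht2 ((hXi0 t).1 h), ?_⟩
    rw [abs_le]
    constructor <;> linarith

end Pool.Agent.Helper33.XD
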