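import Pool.Graph.R_seed8.H401R2.Stir

set_option autoImplicit false

namespace Pool.Agent.Helper33.XD

open Complex Filter Topology Set

/-- the normalised Stirling quotient -/
noncomputable def BB (z : ℂ) : ℂ := Pool.Agent.H401R2.sA z / ((√(2 * Real.pi) : ℝ) : ℂ)

lemma BB_near {z : ℂ} (hz : 0 < z.re) (hv : 1 ≤ z.im) : ‖BB z - 1‖ ≤ 2 / (5 * z.im) := by
  refine (Pool.Agent.H401R2.stirling hz hv).trans ?_
  have hp := Real.pi_lt_d2
  rw [div_le_div_iff₀ (by linarith) (by linarith)]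
  nlinarith

lemma sq2pi_ne : ((√(2 * Real.pi) : ℝ) : ℂ) ≠ 0 := by
  have : √(2 * Real.pi) ≠ 0 := by positivity
  exact_mod_cast this

lemma Gamma_eq (z : ℂ) : Gamma z = ((√(2 * Real.pi) : ℝ) : ℂ) * BB z * exp ((z - 1/2) * log z - z) := by
  unfold BB Pool.Agent.H401R2.sA
  rw [mul_div_cancel₀ _ sq2pi_ne, mul_assoc, ← exp_add]
  simp

lemma log_add_sub {s w : ℂ} (hs : 0 < s.re) (hw : ‖w‖ ≤ ‖s‖ / 2) (_hsw : 0 < (s + w).re) :
    ‖log (s + w) - log s - w / s‖ ≤ ‖w / s‖ ^ 2 := by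
  have hs0 : s ≠ 0 := by
    intro h; rw [h] at hs; simp at hs
  have hn : 0 < ‖s‖ := norm_pos_iff.2 hs0
  have hu : ‖w / s‖ ≤ 1 / 2 := by
    rw [norm_div, div_le_iff₀ hn]
    linarith
  have hre : 0 < (1 + w / s).re := by
    have : -‖w / s‖ ≤ (w / s).re := by
      have := abs_re_le_norm (w / s)
      rw [abs_le] at this
      exact this.1
    rw [add_re, one_re]
    linarith
  have hmul : s + w = s * (1 + w / s) := by
    field_simp
  have hlog : log (s + w) = log s + log (1 + w / s) := by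
    rw [hmul]
    apply log_mul hs0 (by intro h; rw [h] at hre; simp at hre)
    have a1 := abs_arg_lt_pi_div_two_iff.mpr (Or.inl (show 0 < s.re by linarith))
    have a2 := abs_arg_lt_pi_div_two_iff.mpr (Or.inl hre)
    rw [abs_lt] at a1 a2
    constructor <;> linarith [a1.1, a1.2, a2.1, a2.2]
  rw [hlog, add_sub_cancel_left]
  refine (norm_log_one_add_sub_self_le (by linarith)).trans ?_
  have h1 : (1 - ‖w / s‖)⁻¹ ≤ 2 := by
    rw [inv_le_comm₀ (by linarith) (by norm_num)]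
    linarith
  have h3 : 0 ≤ ‖w / s‖ ^ 2 := by positivity
  nlinarith

/-- the ratio of Gamma values -/
lemma ratio {s w : ℂ} (hs : 0 < s.re) (hsw : 0 < (s + w).re) (h4 : 4 * (‖w‖ ^ 2 + 1) ≤ s.im) :
    ‖Gamma (s + w) / (Gamma s * exp (w * log s)) - 1‖ ≤ 13 * (‖w‖ ^ 2 + 1) / s.im := by
  have hw0 := norm_nonneg w
  set t := s.im with ht
  have ht4 : 4 ≤ t := by nlinarith
  have hwt : ‖w‖ ≤ t / 8 := by nlinarith [sq_nonneg (‖w‖ - 1)]
  have hst : t ≤ ‖s‖ := (le_abs_self _).trans (abs_im_le_norm s)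
  have him : 7 / 8 * t ≤ (s + w).im := by
    rw [add_im]
    have := (abs_le.1 (abs_im_le_norm w)).1
    linarith
  have hs0 : s ≠ 0 := by
    intro h; rw [h] at hs; simp at hs
  have hn : 0 < ‖s‖ := norm_pos_iff.2 hs0
  have hw2 : ‖w‖ ≤ ‖s‖ / 2 := by linarith
  have hl := log_add_sub hs hw2 hsw
  set r := log (s + w) - log s - w / s with hr
  have hu : ‖w / s‖ = ‖w‖ / ‖s‖ := norm_div _ _
  set g := (s + w - 1/2) * (log (s + w) - log s) - w with hg
  have hg2 : g = w * (w / s) - (w / s) / 2 + (s + w - 1/2) * r := by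
    rw [hg, hr]
    field_simp
    ring
  have hgn : ‖g‖ ≤ 4 * (‖w‖ ^ 2 + 1) / t := by
    have b1 : ‖w * (w / s)‖ ≤ ‖w‖ ^ 2 / t := by
      rw [norm_mul, hu, sq, mul_div_assoc]
      gcongr
    have b2 : ‖(w / s) / 2‖ ≤ (‖w‖ ^ 2 + 1) / 4 / t := by
      rw [norm_div, hu, Complex.norm_ofNat]
      have : ‖w‖ / ‖s‖ / 2 ≤ ‖w‖ / t / 2 := by gcongr
      refine this.trans ?_
      rw [div_div, div_div, div_le_div_iff₀ (by positivity) (by positivity)]
      nlinarith [sq_nonneg (‖w‖ - 1)]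
    have b3 : ‖(s + w - 1/2) * r‖ ≤ 2 * ‖w‖ ^ 2 / t := by
      rw [norm_mul]
      have c1 : ‖s + w - 1/2‖ ≤ 2 * ‖s‖ := by
        have d1 : ‖s + w - 1/2‖ ≤ ‖s‖ + ‖w‖ + 1/2 := by
          refine (norm_sub_le _ _).trans ?_
          have := norm_add_le s w
          have e : ‖(1/2 : ℂ)‖ = 1/2 := by simp
          linarith
        linarith
      calc ‖s + w - 1/2‖ * ‖r‖ ≤ (2 * ‖s‖) * (‖w‖ / ‖s‖) ^ 2 := by
            rw [← hu]
            gcongr
        _ = 2 * ‖w‖ ^ 2 / ‖s‖ := by field_simp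
        _ ≤ 2 * ‖w‖ ^ 2 / t := by gcongr
    rw [hg2]
    calc _ ≤ ‖w * (w / s) - (w / s) / 2‖ + ‖(s + w - 1/2) * r‖ := norm_add_le _ _
      _ ≤ (‖w * (w / s)‖ + ‖(w / s) / 2‖) + ‖(s + w - 1/2) * r‖ := by
          gcongr
          exact norm_sub_le _ _
      _ ≤ (‖w‖ ^ 2 / t + (‖w‖ ^ 2 + 1) / 4 / t) + 2 * ‖w‖ ^ 2 / t := by gcongr
      _ ≤ 4 * (‖w‖ ^ 2 + 1) / t := by
          rw [← sub_nonneg]
          have : 4 * (‖w‖ ^ 2 + 1) / t - ((‖w‖ ^ 2 / t + (‖w‖ ^ 2 + 1) / 4 / t) + 2 * ‖w‖ ^ 2 / t) =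
            (3/4 * ‖w‖ ^ 2 + 15/4) / t := by field_simp; ring
          rw [this]
          positivity
  have hg1 : ‖g‖ ≤ 1 := by
    refine hgn.trans ?_
    rw [div_le_one (by linarith)]
    exact h4
  -- the quotient of the `BB`
  have hB1 := BB_near hsw (by linarith)
  have hB2 := BB_near hs (by linarith : 1 ≤ s.im)
  rw [← ht] at hB2
  have hB1' : ‖BB (s + w) - 1‖ ≤ 1 / (2 * t) := by
    refine hB1.trans ?_
    rw [div_le_div_iff₀ (by linarith) (by linarith)]
    linarith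
  have hB2n : 9 / 10 ≤ ‖BB s‖ := by
    have e1 : 2 / (5 * t) ≤ 1 / 10 := by
      rw [div_le_div_iff₀ (by linarith) (by norm_num)]
      linarith
    have := norm_sub_norm_le (1 : ℂ) (BB s)
    rw [norm_one, norm_sub_rev] at this
    linarith
  have hB20 : BB s ≠ 0 := by
    intro h; rw [h] at hB2n; simp at hB2n; linarith
  set q := BB (s + w) / BB s - 1 with hq
  have hqn : ‖q‖ ≤ 1 / t := by
    have e : q = (BB (s + w) - 1 - (BB s - 1)) / BB s := by
      rw [hq]; field_simp; ring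
    rw [e, norm_div, div_le_iff₀ (by linarith)]
    have h1 := norm_sub_le (BB (s + w) - 1) (BB s - 1)
    have h2 : 1 / (2 * t) + 2 / (5 * t) = 1 / t * (9 / 10) := by field_simp; norm_num
    have h3 : 1 / t * (9 / 10) ≤ 1 / t * ‖BB s‖ := by
      gcongr
    linarith
  have hmain : Gamma (s + w) / (Gamma s * exp (w * log s)) = (1 + q) * exp g := by
    rw [Gamma_eq (s + w), Gamma_eq s]
    have e1 : exp ((s + w - 1/2) * log (s + w) - (s + w)) =
        exp g * exp ((s - 1/2) * log s - s) * exp (w * log s) := by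
      rw [← exp_add, ← exp_add]
      congr 1
      rw [hg]
      ring
    rw [e1, hq]
    have := sq2pi_ne
    have h2 := exp_ne_zero ((s - 1/2) * log s - s)
    have h3 := exp_ne_zero (w * log s)
    field_simp
    ring
  rw [hmain]
  have e : (1 + q) * exp g - 1 = (exp g - 1) + q * exp g := by ring
  rw [e]
  have h5 : ‖exp g - 1‖ ≤ 2 * ‖g‖ := norm_exp_sub_one_le hg1
  have h6 : ‖exp g‖ ≤ 3 := by
    have := norm_sub_norm_le (exp g) 1
    rw [norm_one] at this
    linarith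
  calc _ ≤ ‖exp g - 1‖ + ‖q * exp g‖ := norm_add_le _ _
    _ ≤ 2 * (4 * (‖w‖ ^ 2 + 1) / t) + 1 / t * 3 := by
        rw [norm_mul]
        gcongr
        exact h5.trans (by gcongr)
    _ ≤ 13 * (‖w‖ ^ 2 + 1) / t := by
        rw [← sub_nonneg]
        have : 13 * (‖w‖ ^ 2 + 1) / t - (2 * (4 * (‖w‖ ^ 2 + 1) / t) + 1 / t * 3) =
            (5 * ‖w‖ ^ 2 + 2) / t := by field_simp; ring
        rw [this]
        positivity

lemma arg_bounds {z : ℂ} (hz : 0 < z.re) (hv : 0 < z.im) :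
    -(Real.pi / 2 * z.im) ≤ -(z.im * arg z) ∧ -(z.im * arg z) ≤ -(Real.pi / 2 * z.im) + z.re := by
  have h1 := abs_arg_lt_pi_div_two_iff.mpr (Or.inl hz)
  rw [abs_lt] at h1
  have h0 : 0 < arg z := by
    have h2 : 0 ≤ arg z := arg_nonneg_iff.2 hv.le
    rcases h2.lt_or_eq with h3 | h3
    · exact h3
    · have := arg_eq_zero_iff.1 h3.symm
      linarith [this.2]
  constructor
  · nlinarith [h1.2]
  · have h3 : Real.pi / 2 - arg z < Real.tan (Real.pi / 2 - arg z) :=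
      Real.lt_tan (by linarith) (by linarith)
    rw [Real.tan_pi_div_two_sub, tan_arg, inv_div] at h3
    have h4 : (Real.pi / 2 - arg z) * z.im ≤ z.re / z.im * z.im := by gcongr
    rw [div_mul_cancel₀ _ hv.ne'] at h4
    nlinarith

lemma norm_exp_stir (z : ℂ) (hz : z ≠ 0) :
    ‖exp ((z - 1/2) * log z - z)‖ =
      ‖z‖ ^ (z.re - 1/2) * Real.exp (-(z.im * arg z) - z.re) := by
  rw [norm_exp, Real.rpow_def_of_pos (norm_pos_iff.2 hz), ← Real.exp_add]
  congr 1
  have e1 : (log z).re = Real.log ‖z‖ := log_re z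
  have e2 : (log z).im = arg z := log_im z
  simp only [sub_re, mul_re, sub_im, e1, e2]
  norm_num
  ring

lemma Gamma_upper {z : ℂ} (hz : 0 < z.re) (hv : 1 ≤ z.im) :
    ‖Gamma z‖ ≤ 4 * (‖z‖ ^ (z.re - 1/2) * Real.exp (-(Real.pi / 2 * z.im))) := by
  have hz0 : z ≠ 0 := by intro h; rw [h] at hz; simp at hz
  rw [Gamma_eq z, norm_mul, norm_mul, norm_exp_stir z hz0]
  have h1 : ‖((√(2 * Real.pi) : ℝ) : ℂ)‖ ≤ 2.6 := by
    rw [norm_real, Real.norm_of_nonneg (Real.sqrt_nonneg _), Real.sqrt_le_left (by norm_num)]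
    have := Real.pi_lt_d2
    norm_num at this ⊢
    linarith
  have h2 : ‖BB z‖ ≤ 1.4 := by
    have h3 := BB_near hz hv
    have h4 : 2 / (5 * z.im) ≤ 0.4 := by
      rw [div_le_iff₀ (by linarith)]
      linarith
    have := norm_sub_norm_le (BB z) 1
    rw [norm_one] at this
    linarith
  have h3 := (arg_bounds hz (by linarith)).2
  have h5 : Real.exp (-(z.im * arg z) - z.re) ≤ Real.exp (-(Real.pi / 2 * z.im)) :=
    Real.exp_le_exp.2 (by linarith)
  have h6 : 0 ≤ ‖z‖ ^ (z.re - 1/2) := by positivity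
  calc _ ≤ 2.6 * 1.4 * (‖z‖ ^ (z.re - 1/2) * Real.exp (-(Real.pi / 2 * z.im))) := by gcongr
    _ ≤ _ := by
        have : 0 ≤ ‖z‖ ^ (z.re - 1/2) * Real.exp (-(Real.pi / 2 * z.im)) := by positivity
        nlinarith

lemma Gamma_lower {z : ℂ} (hz : 0 < z.re) (hv : 1 ≤ z.im) :
    ‖z‖ ^ (z.re - 1/2) * Real.exp (-(Real.pi / 2 * z.im) - z.re) ≤ ‖Gamma z‖ := by
  have hz0 : z ≠ 0 := by intro h; rw [h] at hz; simp at hz
  rw [Gamma_eq z, norm_mul, norm_mul, norm_exp_stir z hz0]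
  have h1 : 2.5 ≤ ‖((√(2 * Real.pi) : ℝ) : ℂ)‖ := by
    rw [norm_real, Real.norm_of_nonneg (Real.sqrt_nonneg _)]
    apply Real.le_sqrt_of_sq_le
    have := Real.pi_gt_d2
    norm_num at this ⊢
    linarith
  have h2 : 0.6 ≤ ‖BB z‖ := by
    have h3 := BB_near hz hv
    have h4 : 2 / (5 * z.im) ≤ 0.4 := by
      rw [div_le_iff₀ (by linarith)]
      linarith
    have := norm_sub_norm_le (1 : ℂ) (BB z)
    rw [norm_one, norm_sub_rev] at this
    linarith
  have h3 := (arg_bounds hz (by linarith)).1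
  have h5 : Real.exp (-(Real.pi / 2 * z.im) - z.re) ≤ Real.exp (-(z.im * arg z) - z.re) :=
    Real.exp_le_exp.2 (by linarith)
  have h6 : 0 ≤ ‖z‖ ^ (z.re - 1/2) := by positivity
  have h7 : 1 ≤ ‖((√(2 * Real.pi) : ℝ) : ℂ)‖ * ‖BB z‖ := by nlinarith
  calc _ ≤ 1 * (‖z‖ ^ (z.re - 1/2) * Real.exp (-(z.im * arg z) - z.re)) := by
        rw [one_mul]; gcongr
    _ ≤ _ := by gcongr

lemma BB_form (z : ℂ) : BB z = Gamma z * exp (-((z - 1/2) * log z - z)) /
    ((√(2 * Real.pi) : ℝ) : ℂ) := rfl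

lemma diff_expo {z : ℂ} (hz : 0 < z.re) :
    HasDerivAt (fun z : ℂ => -((z - 1/2) * log z - z)) (-(log z + (z - 1/2) / z - 1)) z := by
  have hl : HasDerivAt (fun z : ℂ => log z) (1 / z) z :=
    HasDerivAt.clog (hasDerivAt_id z) (Or.inl hz)
  have h1 : HasDerivAt (fun z : ℂ => (z - 1/2)) 1 z := (hasDerivAt_id z).sub_const _
  have h2 := ((h1.mul hl).sub (hasDerivAt_id z)).neg
  refine h2.congr_deriv ?_
  ring

lemma Gamma_diffAt {z : ℂ} (hz : 0 < z.re) : DifferentiableAt ℂ Gamma z := by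
  apply differentiableAt_Gamma
  intro n h
  rw [h] at hz
  simp at hz
  have : (0 : ℝ) ≤ n := Nat.cast_nonneg n
  linarith

lemma BB_diffAt {z : ℂ} (hz : 0 < z.re) : DifferentiableAt ℂ BB z := by
  have h1 := (Gamma_diffAt hz).mul (diff_expo hz).differentiableAt.cexp
  exact h1.div_const _

lemma logDeriv_BB {z : ℂ} (hz : 0 < z.re) :
    logDeriv BB z = logDeriv Gamma z - (log z + (z - 1/2) / z - 1) := by
  have e : BB = fun z => (Gamma z * exp (-((z - 1/2) * log z - z))) * (((√(2 * Real.pi) : ℝ) : ℂ))⁻¹ := by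
    funext z
    rw [BB_form, div_eq_mul_inv]
  have h1 := logDeriv_mul (f := Gamma) (g := fun z => exp (-((z - 1/2) * log z - z))) z
    (Gamma_ne_zero_of_re_pos hz) (exp_ne_zero _) (Gamma_diffAt hz)
      (diff_expo hz).differentiableAt.cexp
  have h2 : logDeriv (fun z => exp (-((z - 1/2) * log z - z))) z = -(log z + (z - 1/2) / z - 1) := by
    rw [logDeriv_apply, ((diff_expo hz).cexp).deriv]
    field_simp
  rw [e, logDeriv_mul_const _ _ (inv_ne_zero sq2pi_ne), h1, h2]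
  ring

lemma digam {s : ℂ} (hs : 1 ≤ s.re) (ht : 2 ≤ s.im) :
    ‖logDeriv Gamma s - log s‖ ≤ 2 / s.im := by
  set t := s.im with htd
  have hs0 : 0 < s.re := by linarith
  have hball : ∀ z ∈ Metric.closedBall s (1/2), 0 < z.re ∧ 3/4 * t ≤ z.im := by
    intro z hz
    rw [mem_closedBall_iff_norm] at hz
    have h1 := (abs_le.1 ((abs_re_le_norm (z - s)).trans hz)).1
    have h2 := (abs_le.1 ((abs_im_le_norm (z - s)).trans hz)).1
    rw [sub_re] at h1
    rw [sub_im] at h2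
    constructor <;> linarith
  have hderiv : ‖deriv (fun z => BB z - 1) s‖ ≤ (8 / (15 * t)) / (1/2) := by
    apply Complex.norm_deriv_le_of_forall_mem_sphere_norm_le (by norm_num)
    · apply DifferentiableOn.diffContOnCl
      rw [closure_ball _ (by norm_num)]
      intro z hz
      exact ((BB_diffAt (hball z hz).1).sub_const 1).differentiableWithinAt
    · intro z hz
      have h3 := hball z (Metric.sphere_subset_closedBall hz)
      refine (BB_near h3.1 (by linarith [h3.2])).trans ?_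
      rw [div_le_div_iff₀ (by linarith [h3.2]) (by linarith)]
      nlinarith [h3.2]
  rw [deriv_sub_const] at hderiv
  have hB := BB_near hs0 (by linarith : 1 ≤ s.im)
  rw [← htd] at hB
  have hBn : 8 / 10 ≤ ‖BB s‖ := by
    have e1 : 2 / (5 * t) ≤ 2 / 10 := by
      rw [div_le_div_iff₀ (by linarith) (by norm_num)]
      linarith
    have := norm_sub_norm_le (1 : ℂ) (BB s)
    rw [norm_one, norm_sub_rev] at this
    linarith
  have hsn : s ≠ 0 := by intro h; rw [h] at hs0; simp at hs0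
  have e : logDeriv Gamma s - log s = logDeriv BB s - 1 / (2 * s) := by
    rw [logDeriv_BB hs0]
    field_simp
    ring
  rw [e]
  have h1 : ‖logDeriv BB s‖ ≤ 4 / (3 * t) := by
    rw [logDeriv_apply, norm_div, div_le_iff₀ (by linarith)]
    calc _ ≤ (8 / (15 * t)) / (1/2) := hderiv
      _ = 4 / (3 * t) * (8 / 10) := by field_simp; norm_num
      _ ≤ _ := by gcongr
  have h2 : ‖1 / (2 * s)‖ ≤ 1 / (2 * t) := by
    rw [norm_div, norm_one, norm_mul, Complex.norm_ofNat]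
    have : t ≤ ‖s‖ := (le_abs_self _).trans (abs_im_le_norm s)
    gcongr
  calc _ ≤ ‖logDeriv BB s‖ + ‖1 / (2 * s)‖ := norm_sub_le _ _
    _ ≤ 4 / (3 * t) + 1 / (2 * t) := add_le_add h1 h2
    _ ≤ 2 / t := by
        rw [← sub_nonneg]
        have : 2 / t - (4 / (3 * t) + 1 / (2 * t)) = 1 / (6 * t) := by field_simp; norm_num
        rw [this]
        positivity

end Pool.Agent.Helper33.XD
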