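import Mathlib

set_option autoImplicit false

/-! Abstract lemmas: a function `E` with `E (conj s) = conj (E s)` whose logarithmic derivative is
close to a large positive real number controls the zeros of `E s + (-1)^m E (12 - s)`. -/

namespace Pool.Agent.Helper33.XD

open Complex Filter Topology Set MeasureTheory
open scoped Real

structure Sym (E Lm : ℂ → ℂ) (c : ℝ) (m : ℕ) : Prop where
  diff : Differentiable ℂ E
  conj : ∀ s, E (starRingEnd ℂ s) = starRingEnd ℂ (E s)
  c0 : c ≠ 0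
  rep : ∀ s, (c : ℂ) * Lm s = E s + (-1) ^ m * E (12 - s)

variable {E Lm : ℂ → ℂ} {c : ℝ} {m : ℕ}

lemma twelve_sub (σ x : ℝ) : 12 - (σ + x * I : ℂ) = starRingEnd ℂ (((12 - σ : ℝ) : ℂ) + x * I) := by
  apply Complex.ext <;> simp

lemma hasDeriv_horiz (h : Differentiable ℂ E) (x σ : ℝ) :
    HasDerivAt (fun σ : ℝ => E (σ + x * I)) (deriv E (σ + x * I)) σ := by
  have h1 : HasDerivAt (fun z : ℂ => E (z + x * I)) (deriv E (σ + x * I)) (σ : ℂ) := by
    have h2 := (h (σ + x * I)).hasDerivAt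
    exact h2.comp_add_const _ _
  exact h1.comp_ofReal

lemma Sym.real (h : Sym E Lm c m) {x : ℝ} (hE : ∀ σ : ℝ, 4 ≤ σ → σ ≤ 8 →
    E (σ + x * I) ≠ 0 ∧ 0 < (deriv E (σ + x * I) / E (σ + x * I)).re) {σ : ℝ} (h4 : 4 ≤ σ) (h8 : σ ≤ 8)
    (h0 : Lm (σ + x * I) = 0) : σ = 6 := by
  have hmono : StrictMonoOn (fun σ : ℝ => ‖E (σ + x * I)‖ ^ 2) (Icc 4 8) := by
    have hd : ∀ σ : ℝ, HasDerivAt (fun σ : ℝ => ‖E (σ + x * I)‖ ^ 2)
        (2 * inner ℝ (E (σ + x * I)) (deriv E (σ + x * I))) σ := fun σ =>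
      (hasDeriv_horiz h.diff x σ).norm_sq
    apply strictMonoOn_of_deriv_pos (convex_Icc 4 8)
    · exact fun σ _ => (hd σ).continuousAt.continuousWithinAt
    · intro σ hσ
      rw [interior_Icc] at hσ
      rw [(hd σ).deriv]
      obtain ⟨h1, h2⟩ := hE σ hσ.1.le hσ.2.le
      have e : deriv E (σ + x * I) = (deriv E (σ + x * I) / E (σ + x * I)) * E (σ + x * I) := by
        field_simp
      have e2 : inner ℝ (E (σ + x * I)) (deriv E (σ + x * I)) =
          (deriv E (σ + x * I) / E (σ + x * I)).re * normSq (E (σ + x * I)) := by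
        conv_lhs => rw [e]
        rw [Complex.inner, mul_assoc, mul_conj, re_mul_ofReal]
      rw [e2]
      have := normSq_pos.2 h1
      positivity
  have h1 := h.rep (σ + x * I)
  rw [h0, mul_zero, twelve_sub, h.conj] at h1
  have h2 : E (σ + x * I) = -((-1) ^ m * starRingEnd ℂ (E (((12 - σ : ℝ) : ℂ) + x * I))) :=
    eq_neg_of_add_eq_zero_left h1.symm
  have h3 : ‖E (σ + x * I)‖ ^ 2 = ‖E (((12 - σ : ℝ) : ℂ) + x * I)‖ ^ 2 := by
    rw [h2, norm_neg, norm_mul, norm_pow, norm_neg, norm_one, one_pow, one_mul]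
    simp
  have h5 := hmono.injOn (⟨h4, h8⟩ : σ ∈ Icc (4 : ℝ) 8) (⟨by linarith, by linarith⟩ : 12 - σ ∈ Icc (4 : ℝ) 8) h3
  linarith

lemma deriv_conj_sym (hd : Differentiable ℂ E) (hc : ∀ s, E (starRingEnd ℂ s) = starRingEnd ℂ (E s)) (s : ℂ) :
    deriv E (starRingEnd ℂ s) = starRingEnd ℂ (deriv E s) := by
  have e : E = starRingEnd ℂ ∘ E ∘ starRingEnd ℂ := by
    funext z
    simp [hc]
  have h1 := (hd s).hasDerivAt.conj_conj
  rw [← e] at h1
  exact h1.deriv

lemma twelve_six (t : ℝ) : 12 - (6 + t * I : ℂ) = starRingEnd ℂ (6 + t * I) := by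
  apply Complex.ext
  · simp
    norm_num
  · simp

lemma Sym.simple (h : Sym E Lm c m) {x : ℝ} (hE : E (6 + x * I) ≠ 0)
    (hq : 0 < (deriv E (6 + x * I) / E (6 + x * I)).re) (h0 : Lm (6 + x * I) = 0) :
    deriv Lm (6 + x * I) ≠ 0 := by
  have hc : (c : ℂ) ≠ 0 := by exact_mod_cast h.c0
  have e1 : Lm = fun s => (c : ℂ)⁻¹ * (E s + (-1) ^ m * E (12 - s)) := by
    funext s
    rw [← h.rep s]
    field_simp
  have h1 : HasDerivAt Lm ((c : ℂ)⁻¹ * (deriv E (6 + x * I) + (-1) ^ m * (deriv E (12 - (6 + x * I)) * (-1))))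
      (6 + x * I) := by
    rw [e1]
    have h2 := (h.diff (6 + x * I)).hasDerivAt
    have h3 : HasDerivAt (fun s : ℂ => E (12 - s)) (deriv E (12 - (6 + x * I)) * (-1)) (6 + x * I) := by
      have h4 : HasDerivAt (fun s : ℂ => 12 - s) (-1) (6 + x * I) := by
        simpa using (hasDerivAt_id (6 + x * I : ℂ)).const_sub 12
      exact (h.diff (12 - (6 + x * I))).hasDerivAt.comp _ h4
    exact (h2.add (h3.const_mul _)).const_mul _
  rw [h1.deriv]
  have h5 := h.rep (6 + x * I)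
  rw [h0, mul_zero, twelve_six, h.conj] at h5
  rw [twelve_six, deriv_conj_sym h.diff h.conj]
  obtain ⟨q, hqd⟩ : ∃ q, q = deriv E (6 + x * I) / E (6 + x * I) := ⟨_, rfl⟩
  have e : deriv E (6 + x * I) = q * E (6 + x * I) := by
    rw [hqd]
    field_simp
  rw [← hqd] at hq
  rw [e, map_mul]
  have h6 : (-1 : ℂ) ^ m * starRingEnd ℂ (E (6 + x * I)) = -E (6 + x * I) :=
    (neg_eq_of_add_eq_zero_right h5.symm).symm
  have h7 : q * E (6 + x * I) + (-1) ^ m * (starRingEnd ℂ q * starRingEnd ℂ (E (6 + x * I)) * (-1)) =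
      (2 * q.re : ℝ) * E (6 + x * I) := by
    have : (-1 : ℂ) ^ m * (starRingEnd ℂ q * starRingEnd ℂ (E (6 + x * I)) * (-1)) =
        -(starRingEnd ℂ q) * ((-1) ^ m * starRingEnd ℂ (E (6 + x * I))) := by ring
    rw [this, h6]
    have hqq : q + starRingEnd ℂ q = (2 * q.re : ℝ) := add_conj q
    rw [← hqq]
    ring
  rw [h7]
  refine mul_ne_zero (inv_ne_zero hc) (mul_ne_zero ?_ hE)
  have : (2 * q.re : ℝ) ≠ 0 := by positivity
  exact_mod_cast this

/-! ### the phase -/

/-- the real function `2 re (I ^ m E (6 + t I))` -/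
lemma Sym.phase (h : Sym E Lm c m) (t : ℝ) :
    (c : ℂ) * (I ^ m * Lm (6 + t * I)) = ((2 * (I ^ m * E (6 + t * I)).re : ℝ) : ℂ) := by
  have h1 := h.rep (6 + t * I)
  rw [twelve_six, h.conj] at h1
  have h2 : starRingEnd ℂ (I ^ m * E (6 + t * I)) = I ^ m * ((-1) ^ m * starRingEnd ℂ (E (6 + t * I))) := by
    rw [map_mul, map_pow, conj_I, neg_pow]
    ring
  calc (c : ℂ) * (I ^ m * Lm (6 + t * I)) = I ^ m * (c * Lm (6 + t * I)) := by ring
    _ = I ^ m * E (6 + t * I) + starRingEnd ℂ (I ^ m * E (6 + t * I)) := by rw [h1, h2]; ring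
    _ = _ := by rw [add_conj]

/-- the equation for the phase -/
lemma phase_eq (hd : Differentiable ℂ E) (x y : ℝ) (hxy : x ≤ y)
    (hE : ∀ t ∈ Icc x y, E (6 + t * I) ≠ 0) (m : ℕ) :
    ∀ t ∈ Icc x y, I ^ m * E (6 + t * I) = I ^ m * E (6 + x * I) *
      exp (I * ∫ τ in x..t, deriv E (6 + τ * I) / E (6 + τ * I)) := by
  obtain ⟨q, hq⟩ : ∃ q : ℝ → ℂ, q = fun τ : ℝ => deriv E (6 + (τ : ℂ) * I) / E (6 + (τ : ℂ) * I) := ⟨_, rfl⟩
  have hdE : Continuous (deriv E) := (hd.contDiff (n := 1)).continuous_deriv le_rfl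
  have hqc : ContinuousOn q (Icc x y) := by
    rw [hq]
    apply ContinuousOn.div
    · exact (hdE.comp (by fun_prop)).continuousOn
    · exact (hd.continuous.comp (by fun_prop)).continuousOn
    · exact hE
  have hF : ∀ t : ℝ, HasDerivAt (fun t : ℝ => E (6 + t * I)) (deriv E (6 + t * I) * I) t := by
    intro t
    have h1 : HasDerivAt (fun z : ℂ => 6 + z * I) I (t : ℂ) := by
      simpa using ((hasDerivAt_id (t : ℂ)).mul_const I).const_add 6
    have h2 : HasDerivAt (fun z : ℂ => E (6 + z * I)) (deriv E (6 + t * I) * I) (t : ℂ) :=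
      (hd _).hasDerivAt.comp (t : ℂ) h1
    exact h2.comp_ofReal
  have hU : ∀ t ∈ Ico x y, HasDerivWithinAt (fun t => ∫ τ in x..t, q τ) (q t) (Ici t) t := by
    intro t ht
    have hint : IntervalIntegrable q volume x t :=
      (hqc.mono (by rw [uIcc_of_le ht.1]; exact Icc_subset_Icc_right ht.2.le)).intervalIntegrable
    have hcw : ContinuousWithinAt q (Ici t) t := by
      have h1 := hqc t ⟨ht.1, ht.2.le⟩
      refine (h1.mono_of_mem_nhdsWithin ?_)
      exact Filter.mem_of_superset (Icc_mem_nhdsGE ht.2) (Icc_subset_Icc_left ht.1)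
    have hm : StronglyMeasurableAtFilter q (𝓝[≥] t) volume := by
      have h2 : ContinuousOn q (Icc t y) := hqc.mono (Icc_subset_Icc_left ht.1)
      exact ⟨Icc t y, Icc_mem_nhdsGE ht.2, h2.aestronglyMeasurable measurableSet_Icc⟩
    have : intervalIntegral.FTCFilter t (𝓝[≥] t) (𝓝[>] t) := inferInstance
    exact intervalIntegral.integral_hasDerivWithinAt_right hint
      (hm.filter_mono (nhdsWithin_mono _ Ioi_subset_Ici_self)) (hcw.mono Ioi_subset_Ici_self)
  have hUc : ContinuousOn (fun t => ∫ τ in x..t, q τ) (Icc x y) := by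
    have hint : IntegrableOn q (uIcc x y) volume := by
      rw [uIcc_of_le hxy]
      exact hqc.integrableOn_Icc
    have := intervalIntegral.continuousOn_primitive_interval (a := x) (b := y) hint
    rwa [uIcc_of_le hxy] at this
  -- the quotient is constant
  have hG : ∀ t ∈ Icc x y, E (6 + t * I) * exp (-(I * ∫ τ in x..t, q τ)) =
      E (6 + x * I) * exp (-(I * ∫ τ in x..x, q τ)) := by
    apply constant_of_has_deriv_right_zero
    · refine ContinuousOn.mul (hd.continuous.comp (by fun_prop)).continuousOn ?_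
      exact (Complex.continuous_exp.comp_continuousOn ((continuousOn_const.mul hUc).neg))
    · intro t ht
      have h1 := (hF t).hasDerivWithinAt (s := Ici t)
      have h2 : HasDerivWithinAt (fun t => exp (-(I * ∫ τ in x..t, q τ)))
          (exp (-(I * ∫ τ in x..t, q τ)) * (-(I * q t))) (Ici t) t :=
        (((hU t ht).const_mul I).neg).cexp
      refine (h1.mul h2).congr_deriv ?_
      have hne := hE t ⟨ht.1, ht.2.le⟩
      rw [hq]
      field_simp
      ring
  intro t ht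
  have h1 := hG t ht
  rw [intervalIntegral.integral_same, mul_zero, neg_zero, Complex.exp_zero, mul_one, Complex.exp_neg] at h1
  have h2 := exp_ne_zero (I * ∫ τ in x..t, q τ)
  rw [← h1, ← hq]
  field_simp

end Pool.Agent.Helper33.XD
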