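import Pool.Agent.Helper33.XD.Approx

set_option autoImplicit false

namespace Pool.Agent.Helper33.XD

open Complex Filter Topology Set MeasureTheory
open scoped Real

/-- the radius -/
noncomputable def rho (m : ℕ) (x : ℝ) : ℝ := m / ‖ell (6 + x * I)‖

lemma log_lip {t : ℝ} (ht : 0 < t) {z w : ℂ} (hz : 0 < z.re) (hz' : t ≤ z.im) (hw : 0 < w.re)
    (hw' : t ≤ w.im) : ‖ell z - ell w‖ ≤ ‖z - w‖ / t := by
  have hconv : Convex ℝ {z : ℂ | 0 < z.re ∧ t ≤ z.im} :=
    (convex_halfSpace_re_gt 0).inter (convex_halfSpace_im_ge t)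
  have h1 := hconv.norm_image_sub_le_of_norm_hasDerivWithin_le (f := ell) (f' := fun z => 1 / z)
    (C := 1 / t) (fun z hz => by
      have h2 : HasDerivAt (fun z : ℂ => log z) (1 / z) z :=
        HasDerivAt.clog (hasDerivAt_id z) (Or.inl hz.1)
      exact (h2.sub_const _).hasDerivWithinAt) (fun z hz => by
      rw [norm_div, norm_one]
      have : t ≤ ‖z‖ := hz.2.trans ((le_abs_self _).trans (abs_im_le_norm z))
      gcongr) ⟨hw, hw'⟩ ⟨hz, hz'⟩
  calc _ ≤ 1 / t * ‖z - w‖ := h1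
    _ = _ := by ring

lemma s0_re (x : ℝ) : (6 + x * I : ℂ).re = 6 := by simp

lemma s0_im (x : ℝ) : (6 + x * I : ℂ).im = x := by simp

lemma log2pi_lt : Real.log (2 * π) < 2 := by
  rw [Real.log_lt_iff_lt_exp (by positivity)]
  have h1 := Real.pi_lt_d2
  have h2 := Real.exp_one_gt_d9
  have h3 : Real.exp 2 = Real.exp 1 ^ 2 := by
    rw [← Real.exp_nat_mul]
    norm_num
  rw [h3]
  nlinarith

lemma log_ge {x : ℝ} (hx : Real.exp 20 ≤ x) : 20 ≤ Real.log x := by
  rwa [Real.le_log_iff_exp_le (lt_of_lt_of_le (Real.exp_pos _) hx)]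

lemma exp20 : (10 ^ 8 : ℝ) ≤ Real.exp 20 := by
  have h2 := Real.exp_one_gt_d9
  have h3 : Real.exp 20 = Real.exp 1 ^ 20 := by
    rw [← Real.exp_nat_mul]
    norm_num
  rw [h3]
  calc (10 ^ 8 : ℝ) ≤ 2.7 ^ 20 := by norm_num
    _ ≤ _ := by gcongr; linarith

/-- size of `ell` at the centre -/
lemma ell0 {x : ℝ} (hx : Real.exp 20 ≤ x) : Real.log x - 2 ≤ (ell (6 + x * I)).re ∧
    Real.log x / 2 ≤ ‖ell (6 + x * I)‖ ∧ 18 ≤ ‖ell (6 + x * I)‖ ∧ ‖ell (6 + x * I)‖ ≤ 2 * Real.log x := by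
  have hx0 : 0 < x := lt_of_lt_of_le (Real.exp_pos _) hx
  have hx8 := exp20.trans hx
  have hL := log_ge hx
  have hn1 : x ≤ ‖(6 + x * I : ℂ)‖ := by
    have := abs_im_le_norm (6 + x * I : ℂ)
    rw [s0_im, abs_of_pos hx0] at this
    exact this
  have hn2 : ‖(6 + x * I : ℂ)‖ ≤ 2 * x := by
    refine (norm_le_abs_re_add_abs_im _).trans ?_
    rw [s0_re, s0_im, abs_of_pos hx0]
    norm_num
    linarith
  have h1 : Real.log x - 2 ≤ (ell (6 + x * I)).re := by
    rw [ell_re]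
    have := Real.log_le_log hx0 hn1
    linarith [log2pi_lt]
  have h2 : (ell (6 + x * I)).re ≤ Real.log x := by
    rw [ell_re, ← Real.log_div (by linarith) (by positivity)]
    apply Real.log_le_log (div_pos (by linarith) (by positivity))
    rw [div_le_iff₀ (by positivity)]
    have := Real.pi_gt_three
    nlinarith
  have h3 : (ell (6 + x * I)).re ≤ ‖ell (6 + x * I)‖ := (le_abs_self _).trans (abs_re_le_norm _)
  refine ⟨h1, by linarith, by linarith, ?_⟩
  refine (norm_le_abs_re_add_abs_im _).trans ?_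
  have h4 := ell_im_abs (s := 6 + x * I) (by rw [s0_re]; norm_num)
  rw [abs_of_pos (by linarith)]
  linarith

/-- the parameters -/
structure Par (x : ℝ) (m : ℕ) : Prop where
  x0 : Real.exp 20 ≤ x
  lo : 24 * Real.log x ≤ m
  hi : (m : ℝ) ^ 2 ≤ x

lemma Par.bas {x : ℝ} {m : ℕ} (h : Par x m) : (10 ^ 8 : ℝ) ≤ x ∧ 20 ≤ Real.log x ∧ 480 ≤ (m : ℝ) ∧ (m : ℝ) ≤ x := by
  have h1 := exp20.trans h.x0
  have h2 := log_ge h.x0
  have h3 := h.lo
  have h4 := h.hi
  refine ⟨h1, h2, by linarith, by nlinarith⟩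

lemma ell_box {x : ℝ} (hx : Real.exp 20 ≤ x) {s : ℂ} (h1 : |s.re - 6| ≤ 3) (h2 : |s.im - x| ≤ 1) :
    ‖ell s - ell (6 + x * I)‖ ≤ 8 / x := by
  have hx8 := exp20.trans hx
  rw [abs_le] at h1 h2
  have h3 := log_lip (t := x - 1) (by linarith) (z := s) (w := 6 + x * I) (by linarith) (by linarith)
    (by rw [s0_re]; norm_num) (by rw [s0_im]; linarith)
  have h4 : ‖s - (6 + x * I)‖ ≤ 4 := by
    refine (norm_le_abs_re_add_abs_im _).trans ?_
    rw [sub_re, sub_im, s0_re, s0_im]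
    have : |s.re - 6| ≤ 3 := abs_le.2 h1
    have : |s.im - x| ≤ 1 := abs_le.2 h2
    linarith
  refine h3.trans ?_
  rw [div_le_div_iff₀ (by linarith) (by linarith)]
  nlinarith

lemma Par.good {x : ℝ} {m : ℕ} (h : Par x m) {s : ℂ} (h1 : |s.re - 6| ≤ 3) (h2 : |s.im - x| ≤ 1) :
    Good m (rho m x) s ∧ |rho m x * ‖ell s‖ - m| ≤ 1 := by
  obtain ⟨hx8, hL, hm, hmx⟩ := h.bas
  obtain ⟨e1, e2, e3, e4⟩ := ell0 h.x0
  have hb := ell_box h.x0 h1 h2
  have hℓ : 0 < ‖ell (6 + x * I)‖ := by linarith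
  have hρ : 0 < rho m x := div_pos (by linarith) hℓ
  have hρm : rho m x * ‖ell (6 + x * I)‖ = m := by
    unfold rho
    field_simp
  have hρ18 : rho m x ≤ m / 18 := by
    unfold rho
    gcongr
  have hd : |‖ell s‖ - ‖ell (6 + x * I)‖| ≤ 8 / x := (abs_norm_sub_norm_le _ _).trans hb
  have hR : |rho m x * ‖ell s‖ - m| ≤ 1 := by
    have : rho m x * ‖ell s‖ - m = rho m x * (‖ell s‖ - ‖ell (6 + x * I)‖) := by rw [mul_sub, hρm]
    rw [this, abs_mul, abs_of_pos hρ]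
    calc rho m x * |‖ell s‖ - ‖ell (6 + x * I)‖| ≤ (m / 18) * (8 / x) := by gcongr
      _ ≤ (x / 18) * (8 / x) := by gcongr
      _ ≤ 1 := by
        have : x ≠ 0 := by linarith
        field_simp
        norm_num
  refine ⟨⟨?_, hρ, ?_, ?_, ?_, ?_⟩, hR⟩
  · have : (4 : ℝ) ≤ m := by linarith
    exact_mod_cast this
  · rw [abs_le] at h1; linarith
  · rw [abs_le] at h2
    have h5 : rho m x ^ 2 ≤ x / 324 := by
      calc rho m x ^ 2 ≤ (m / 18) ^ 2 := by gcongr
        _ = (m : ℝ) ^ 2 / 324 := by ring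
        _ ≤ x / 324 := by have := h.hi; gcongr
    linarith
  · have h6 := (abs_re_le_norm (ell s - ell (6 + x * I))).trans hb
    rw [sub_re] at h6
    have h7 : 8 / x ≤ 1 := by
      rw [div_le_one (by linarith)]
      linarith
    have := (abs_le.1 h6).1
    linarith
  · have h8 : (rho m x * ‖ell s‖ - m) ^ 2 ≤ 1 := by
      rw [← sq_abs]
      exact pow_le_one₀ (abs_nonneg _) hR
    linarith

lemma exp_neg_log {x : ℝ} (hx : 0 < x) (n : ℕ) : Real.exp (-(n * Real.log x)) = (x ^ n)⁻¹ := by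
  rw [Real.exp_neg, Real.exp_nat_mul, Real.exp_log hx]

/-- size of the error -/
lemma Par.err_near {x C : ℝ} {m : ℕ} (h : Par x m) (hC : C * Real.log x ≤ m) {s : ℂ} (h1 : |s.re - 6| ≤ 3)
    (h2 : |s.im - x| ≤ 1) :
    (rho m x ^ 2 + 1) / s.im + Real.exp (-(rho m x / 2)) +
      s.im ^ 10 * √m * Real.exp (2 * rho m x - rho m x * ‖ell s‖) ≤
      8 / Real.log x ^ 2 + 3 / x + Real.exp (-(C / 4)) := by
  obtain ⟨hx8, hL, hm, hmx⟩ := h.bas
  obtain ⟨e1, e2, e3, e4⟩ := ell0 h.x0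
  obtain ⟨hg, hR⟩ := h.good h1 h2
  have hρ := hg.ρ0
  have hx0 : 0 < x := by linarith
  have hℓ : 0 < ‖ell (6 + x * I)‖ := by linarith
  rw [abs_le] at h1 h2 hR
  have him : x / 2 ≤ s.im := by linarith
  have him2 : s.im ≤ 2 * x := by linarith
  have him0 : 0 < s.im := by linarith
  have hA : (rho m x ^ 2 + 1) / s.im ≤ 8 / Real.log x ^ 2 + 2 / x := by
    have h3 : rho m x ^ 2 ≤ 4 * x / Real.log x ^ 2 := by
      unfold rho
      rw [div_pow, div_le_div_iff₀ (by positivity) (by positivity)]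
      have h5 : Real.log x ^ 2 ≤ 4 * ‖ell (6 + x * I)‖ ^ 2 := by nlinarith
      calc (m : ℝ) ^ 2 * Real.log x ^ 2 ≤ x * (4 * ‖ell (6 + x * I)‖ ^ 2) := by
            have := h.hi
            gcongr
        _ = _ := by ring
    calc (rho m x ^ 2 + 1) / s.im ≤ (4 * x / Real.log x ^ 2 + 1) / (x / 2) := by gcongr
      _ = _ := by
        have : Real.log x ≠ 0 := by linarith
        field_simp
        ring
  have hB : Real.exp (-(rho m x / 2)) ≤ Real.exp (-(C / 4)) := by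
    apply Real.exp_le_exp.2
    have : C / 2 ≤ rho m x := by
      unfold rho
      rw [le_div_iff₀ hℓ]
      rcases le_or_gt C 0 with h7 | h7
      · nlinarith
      · nlinarith
    linarith
  have hD : s.im ^ 10 * √m * Real.exp (2 * rho m x - rho m x * ‖ell s‖) ≤ 1 / x := by
    have h4 : √(m : ℝ) ≤ x := by
      rw [Real.sqrt_le_left hx0.le]
      nlinarith
    have h5 : 2 * rho m x ≤ m / 4 := by
      have : rho m x ≤ m / 18 := by
        unfold rho
        gcongr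
      linarith
    have h6 : Real.exp (2 * rho m x - rho m x * ‖ell s‖) ≤ 3 * Real.exp (-(((18 : ℕ) : ℝ) * Real.log x)) := by
      have h7 : Real.exp 1 ≤ 3 := by have := Real.exp_one_lt_d9; linarith
      calc Real.exp (2 * rho m x - rho m x * ‖ell s‖) ≤ Real.exp (1 + -(((18 : ℕ) : ℝ) * Real.log x)) := by
            apply Real.exp_le_exp.2
            have := h.lo
            push_cast
            linarith
        _ ≤ _ := by
            rw [Real.exp_add]
            gcongr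
    calc _ ≤ (2 * x) ^ 10 * x * (3 * Real.exp (-(((18 : ℕ) : ℝ) * Real.log x))) := by gcongr
      _ = 3072 / x ^ 7 := by
          rw [exp_neg_log hx0]
          field_simp
          norm_num
      _ ≤ 1 / x := by
          rw [div_le_div_iff₀ (by positivity) hx0]
          have : (3072 : ℝ) ≤ x ^ 6 := by
            calc (3072 : ℝ) ≤ (10 ^ 8) ^ 6 := by norm_num
              _ ≤ _ := by gcongr
          nlinarith
  have e5 : 8 / Real.log x ^ 2 + 3 / x + Real.exp (-(C / 4)) =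
      (8 / Real.log x ^ 2 + 2 / x) + Real.exp (-(C / 4)) + 1 / x := by ring
  rw [e5]
  gcongr

lemma tend_err : Tendsto (fun C : ℝ => 8 / Real.log C ^ 2 + 3 / C + Real.exp (-(C / 4))) atTop (𝓝 0) := by
  have h1 : Tendsto (fun C : ℝ => 8 / Real.log C ^ 2) atTop (𝓝 0) :=
    tendsto_const_nhds.div_atTop ((tendsto_pow_atTop two_ne_zero).comp Real.tendsto_log_atTop)
  have h2 : Tendsto (fun C : ℝ => 3 / C) atTop (𝓝 0) := tendsto_const_nhds.div_atTop tendsto_id
  have h3 : Tendsto (fun C : ℝ => Real.exp (-(C / 4))) atTop (𝓝 0) :=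
    Real.tendsto_exp_neg_atTop_nhds_zero.comp (tendsto_id.atTop_div_const (by norm_num))
  simpa using (h1.add h2).add h3

theorem near_box {ε : ℝ} (hε : 0 < ε) : ∃ C₀ : ℝ, Real.exp 20 ≤ C₀ ∧ ∀ (x : ℝ) (m : ℕ), C₀ ≤ x →
    C₀ * Real.log x ≤ m → (m : ℝ) ^ 2 ≤ x → Par x m ∧ ∀ s : ℂ, |s.re - 6| ≤ 3 → |s.im - x| ≤ 1 →
    Good m (rho m x) s ∧ ‖EE m (rho m x) s - MM m (rho m x) s‖ ≤ ε * ‖MM m (rho m x) s‖ := by
  obtain ⟨K, hK, hap⟩ := approx_near
  have h1 := tend_err.eventually (gt_mem_nhds (show 0 < ε / K by positivity))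
  obtain ⟨C₀, hC1, hC2⟩ := (h1.and (eventually_ge_atTop (Real.exp 20))).exists
  refine ⟨C₀, hC2, fun x m hx hm hmx => ?_⟩
  have hx20 := hC2.trans hx
  have h8 := exp20.trans hC2
  have hL := log_ge hx20
  have hLC := log_ge hC2
  have hpar : Par x m := ⟨hx20, by nlinarith, hmx⟩
  refine ⟨hpar, fun s hs1 hs2 => ?_⟩
  obtain ⟨hg, -⟩ := hpar.good hs1 hs2
  refine ⟨hg, ?_⟩
  have hre9 : s.re ≤ 9 := by rw [abs_le] at hs1; linarith
  refine (hap m (rho m x) s hg hre9).trans ?_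
  have h2 := hpar.err_near hm hs1 hs2
  have h3 : 8 / Real.log x ^ 2 + 3 / x + Real.exp (-(C₀ / 4)) ≤
      8 / Real.log C₀ ^ 2 + 3 / C₀ + Real.exp (-(C₀ / 4)) := by
    have h5 : Real.log C₀ ≤ Real.log x := Real.log_le_log (by linarith) hx
    gcongr
  have h4 : K * (ε / K) = ε := by field_simp
  have h5 : K * ((rho m x ^ 2 + 1) / s.im + Real.exp (-(rho m x / 2)) +
      s.im ^ 10 * √m * Real.exp (2 * rho m x - rho m x * ‖ell s‖)) ≤ ε := by
    rw [← h4]
    gcongr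
    linarith
  gcongr

end Pool.Agent.Helper33.XD
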