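import Pool.Agent.Helper33.XD.Arc

set_option autoImplicit false

namespace Pool.Agent.Helper33.XD

open Complex Filter Topology Set MeasureTheory
open scoped Real

/-- `log (s / 2π)` -/
noncomputable def ell (s : ℂ) : ℂ := log s - (Real.log (2 * π) : ℝ)

lemma twopi_neg (w : ℂ) : ((2 * π : ℝ) : ℂ) ^ (-w) = exp (-(w * (Real.log (2 * π) : ℝ))) := by
  have h : ((2 * π : ℝ) : ℂ) ≠ 0 := by
    have : (2 * π : ℝ) ≠ 0 := by positivity
    exact_mod_cast this
  rw [cpow_def_of_ne_zero h, ← ofReal_log (by positivity)]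
  congr 1
  ring

lemma ell_re (s : ℂ) : (ell s).re = Real.log ‖s‖ - Real.log (2 * π) := by
  unfold ell
  rw [sub_re, log_re, ofReal_re]

lemma ell_im (s : ℂ) : (ell s).im = arg s := by
  unfold ell
  rw [sub_im, log_im, ofReal_im, sub_zero]

lemma ell_im_abs {s : ℂ} (hs : 0 < s.re) : |(ell s).im| ≤ 1.6 := by
  rw [ell_im]
  have h1 := abs_arg_lt_pi_div_two_iff.mpr (Or.inl hs)
  have := Real.pi_lt_d2
  linarith

lemma GG_add {s w : ℂ} (hs : 0 < s.re) (hsw : 0 < (s + w).re) (h4 : 4 * (‖w‖ ^ 2 + 1) ≤ s.im) :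
    ‖GG (s + w) - GG s * exp (w * ell s)‖ ≤
      ‖GG s‖ * Real.exp (w * ell s).re * (13 * (‖w‖ ^ 2 + 1) / s.im) := by
  have hr := ratio hs hsw h4
  have hG : Gamma s * exp (w * log s) ≠ 0 :=
    mul_ne_zero (Gamma_ne_zero_of_re_pos hs) (exp_ne_zero _)
  have e : GG (s + w) - GG s * exp (w * ell s) =
      GG s * exp (w * ell s) * (Gamma (s + w) / (Gamma s * exp (w * log s)) - 1) := by
    unfold GG
    rw [twopi_neg (s + w), twopi_neg s]
    have e1 : exp (-((s + w) * (Real.log (2 * π) : ℝ))) * exp (w * log s) =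
        exp (-(s * (Real.log (2 * π) : ℝ))) * exp (w * ell s) := by
      rw [← Complex.exp_add, ← Complex.exp_add]
      congr 1
      unfold ell
      ring
    have hG1 := Gamma_ne_zero_of_re_pos hs
    have hG2 := exp_ne_zero (w * log s)
    have e2 : exp (-((s + w) * (Real.log (2 * π) : ℝ))) =
        exp (-(s * (Real.log (2 * π) : ℝ))) * exp (w * ell s) / exp (w * log s) := by
      rw [eq_div_iff hG2, e1]
    rw [e2]
    field_simp
  rw [e, norm_mul, norm_mul, norm_exp]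
  gcongr

lemma right_far : ∃ C : ℝ, 0 < C ∧ ∀ s w : ℂ, 0 < s.re → 8 ≤ (s + w).re →
    13 * (‖w‖ ^ 2 + 1) ≤ s.im →
    ‖Lam (s + w) - GG s * exp (w * ell s)‖ ≤ ‖GG s‖ * (13 * (‖w‖ ^ 2 + 1) / s.im * Real.exp (w * ell s).re
      + C * (2 : ℝ) ^ (-s.re) * Real.exp (w * (ell s - Real.log 2)).re) := by
  obtain ⟨C1, hC1, hL⟩ := LL_bound
  refine ⟨2 * C1, by positivity, fun s w hs h8 h13 => ?_⟩
  have hw0 := norm_nonneg w
  have ht : 0 < s.im := by nlinarith
  have h1 := GG_add hs (by linarith) (by nlinarith : 4 * (‖w‖ ^ 2 + 1) ≤ s.im)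
  have hle : 13 * (‖w‖ ^ 2 + 1) / s.im ≤ 1 := by
    rw [div_le_one ht]
    exact h13
  have hGp : 0 ≤ ‖GG s‖ * Real.exp (w * ell s).re := by positivity
  have h2 : ‖GG (s + w)‖ ≤ 2 * (‖GG s‖ * Real.exp (w * ell s).re) := by
    have h3 := norm_sub_norm_le (GG (s + w)) (GG s * exp (w * ell s))
    rw [norm_mul, norm_exp] at h3
    have h4 : ‖GG s‖ * Real.exp (w * ell s).re * (13 * (‖w‖ ^ 2 + 1) / s.im) ≤
        ‖GG s‖ * Real.exp (w * ell s).re * 1 := by gcongr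
    linarith
  have h5 := hL (s + w) h8
  rw [Lam_eq_mul (by linarith : 0 < (s + w).re)]
  have e : GG (s + w) * LL (s + w) - GG s * exp (w * ell s) =
      (GG (s + w) - GG s * exp (w * ell s)) + GG (s + w) * (LL (s + w) - 1) := by ring
  rw [e]
  have h6 : (2 : ℝ) ^ (-(s + w).re) = (2 : ℝ) ^ (-s.re) * Real.exp (-(w.re * Real.log 2)) := by
    rw [add_re, neg_add, Real.rpow_add (by norm_num), Real.rpow_def_of_pos (by norm_num : (0 : ℝ) < 2) (-w.re)]
    congr 2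
    ring
  have h7 : Real.exp (w * ell s).re * Real.exp (-(w.re * Real.log 2)) =
      Real.exp (w * (ell s - Real.log 2)).re := by
    rw [← Real.exp_add]
    congr 1
    rw [mul_sub, sub_re, mul_comm w ((Real.log 2 : ℝ) : ℂ), re_ofReal_mul]
    ring
  calc _ ≤ ‖GG (s + w) - GG s * exp (w * ell s)‖ + ‖GG (s + w)‖ * ‖LL (s + w) - 1‖ := by
        rw [← norm_mul]
        exact norm_add_le _ _
    _ ≤ ‖GG s‖ * Real.exp (w * ell s).re * (13 * (‖w‖ ^ 2 + 1) / s.im) +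
        (2 * (‖GG s‖ * Real.exp (w * ell s).re)) * (C1 * (2 : ℝ) ^ (-(s + w).re)) := by
        gcongr
    _ = ‖GG s‖ * (13 * (‖w‖ ^ 2 + 1) / s.im * Real.exp (w * ell s).re
      + 2 * C1 * (2 : ℝ) ^ (-s.re) * (Real.exp (w * ell s).re * Real.exp (-(w.re * Real.log 2)))) := by
        rw [h6]
        ring
    _ = _ := by rw [h7]

lemma GG_lower {s : ℂ} (h3 : 3 ≤ s.re) (h9 : s.re ≤ 9) (ht : 1 ≤ s.im) :
    (2 * π) ^ (-9 : ℝ) * Real.exp (-9) * Real.exp (-(π / 2 * s.im)) ≤ ‖GG s‖ := by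
  unfold GG
  rw [norm_mul, norm_twopi_cpow, neg_re]
  have h1 := Gamma_lower (by linarith : 0 < s.re) ht
  have hn1 : 1 ≤ ‖s‖ := ht.trans ((le_abs_self _).trans (abs_im_le_norm s))
  have h2 : 1 ≤ ‖s‖ ^ (s.re - 1 / 2) := Real.one_le_rpow hn1 (by linarith)
  have h4 : (2 * π) ^ (-9 : ℝ) ≤ (2 * π) ^ (-s.re) :=
    Real.rpow_le_rpow_of_exponent_le (by have := Real.pi_gt_three; linarith) (by linarith)
  have h5 : Real.exp (-9) * Real.exp (-(π / 2 * s.im)) ≤ Real.exp (-(π / 2 * s.im) - s.re) := by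
    rw [← Real.exp_add]
    apply Real.exp_le_exp.2
    linarith
  calc (2 * π) ^ (-9 : ℝ) * Real.exp (-9) * Real.exp (-(π / 2 * s.im))
      = (2 * π) ^ (-9 : ℝ) * (Real.exp (-9) * Real.exp (-(π / 2 * s.im))) := by ring
    _ ≤ (2 * π) ^ (-s.re) * (‖s‖ ^ (s.re - 1 / 2) * Real.exp (-(π / 2 * s.im) - s.re)) := by
        have h6 : Real.exp (-9) * Real.exp (-(π / 2 * s.im)) ≤
            ‖s‖ ^ (s.re - 1 / 2) * Real.exp (-(π / 2 * s.im) - s.re) := by
          have : 0 ≤ Real.exp (-(π / 2 * s.im) - s.re) := (Real.exp_pos _).le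
          nlinarith
        exact mul_le_mul h4 h6 (by positivity) (by positivity)
    _ ≤ _ := by gcongr

lemma exp_ell_near {s w : ℂ} (h3 : 3 ≤ s.re) (h9 : s.re ≤ 9) (hw : 0 ≤ w.re) (hw5 : w.re ≤ 5)
    (ht : 13 ≤ s.im) : ‖exp (w * ell s)‖ ≤ s.im ^ 10 * Real.exp (2 * ‖w‖) := by
  have hn1 : s.im ≤ ‖s‖ := (le_abs_self _).trans (abs_im_le_norm s)
  have hn2 : ‖s‖ ≤ 2 * s.im := by
    refine (norm_le_abs_re_add_abs_im s).trans ?_
    rw [abs_of_pos (by linarith), abs_of_pos (by linarith)]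
    linarith
  have hpi := Real.pi_gt_three
  have hre : (ell s).re ≤ Real.log s.im := by
    rw [ell_re, ← Real.log_div (by linarith) (by positivity)]
    apply Real.log_le_log (div_pos (by linarith) (by positivity))
    rw [div_le_iff₀ (by positivity)]
    nlinarith
  have him := ell_im_abs (s := s) (by linarith)
  have hlog : 0 ≤ Real.log s.im := Real.log_nonneg (by linarith)
  rw [norm_exp, mul_re]
  have h1 : w.re * (ell s).re ≤ 5 * Real.log s.im := by
    calc _ ≤ w.re * Real.log s.im := by gcongr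
      _ ≤ _ := by gcongr
  have h2 : -(w.im * (ell s).im) ≤ 2 * ‖w‖ := by
    have h5 := neg_abs_le (w.im * (ell s).im)
    rw [abs_mul] at h5
    have h6 : |w.im| * |(ell s).im| ≤ ‖w‖ * 1.6 := by
      gcongr
      exact abs_im_le_norm w
    have := norm_nonneg w
    linarith
  calc Real.exp (w.re * (ell s).re - w.im * (ell s).im)
      ≤ Real.exp (5 * Real.log s.im + 2 * ‖w‖) := Real.exp_le_exp.2 (by linarith)
    _ = s.im ^ 5 * Real.exp (2 * ‖w‖) := by
        rw [Real.exp_add]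
        congr 1
        rw [show (5 : ℝ) = ((5 : ℕ) : ℝ) by norm_num, Real.exp_nat_mul, Real.exp_log (by linarith)]
    _ ≤ _ := by
        gcongr
        · linarith
        · norm_num

lemma right_near : ∃ C : ℝ, 0 < C ∧ ∀ s w : ℂ, 3 ≤ s.re → s.re ≤ 9 → 0 ≤ w.re → (s + w).re ≤ 8 →
    13 * (‖w‖ ^ 2 + 1) ≤ s.im →
    ‖Lam (s + w) - GG s * exp (w * ell s)‖ ≤ ‖GG s‖ * (C * s.im ^ 10 * Real.exp (2 * ‖w‖)) := by
  obtain ⟨C1, hC1, hL⟩ := Lam_strip
  set c := (2 * π) ^ (-9 : ℝ) * Real.exp (-9) with hc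
  have hc0 : 0 < c := by positivity
  refine ⟨C1 * 2 ^ 10 / c + 1, by positivity, fun s w h3 h9 hw h8 h13 => ?_⟩
  have hw0 := norm_nonneg w
  have ht13 : 13 ≤ s.im := by nlinarith
  have hwt : ‖w‖ ≤ s.im / 26 := by nlinarith [sq_nonneg (‖w‖ - 1)]
  have hG := GG_lower h3 h9 (by linarith)
  rw [add_re] at h8
  have h1 : ‖Lam (s + w)‖ ≤ ‖GG s‖ * (C1 * 2 ^ 10 / c * s.im ^ 10 * Real.exp (2 * ‖w‖)) := by
    have h5 := hL (s + w) (by rw [add_re]; linarith) (by rw [add_re]; linarith)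
    have h6 : ‖s + w + 1‖ ≤ 2 * s.im := by
      have h7 : ‖s‖ ≤ 9 + s.im := by
        refine (norm_le_abs_re_add_abs_im s).trans ?_
        rw [abs_of_pos (by linarith), abs_of_pos (by linarith)]
        linarith
      have h8 : ‖s + w + 1‖ ≤ ‖s‖ + ‖w‖ + 1 := by
        refine (norm_add_le _ _).trans ?_
        rw [norm_one]
        gcongr
        exact norm_add_le _ _
      linarith
    have h7 : Real.exp (-(π / 2 * (s + w).im)) ≤ Real.exp (-(π / 2 * s.im)) * Real.exp (2 * ‖w‖) := by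
      rw [← Real.exp_add]
      apply Real.exp_le_exp.2
      rw [add_im]
      have h8 := neg_abs_le w.im
      have h9 := abs_im_le_norm w
      have h10 := Real.pi_lt_d2
      have h11 := Real.pi_pos
      nlinarith
    calc ‖Lam (s + w)‖ ≤ C1 * (‖s + w + 1‖ ^ 10 * Real.exp (-(π / 2 * (s + w).im))) := h5
      _ ≤ C1 * ((2 * s.im) ^ 10 * (Real.exp (-(π / 2 * s.im)) * Real.exp (2 * ‖w‖))) := by gcongr
      _ = (c * Real.exp (-(π / 2 * s.im))) * (C1 * 2 ^ 10 / c * s.im ^ 10 * Real.exp (2 * ‖w‖)) := by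
          field_simp
      _ ≤ _ := by gcongr
  have h2 := exp_ell_near h3 h9 hw (by linarith) ht13
  calc _ ≤ ‖Lam (s + w)‖ + ‖GG s * exp (w * ell s)‖ := norm_sub_le _ _
    _ ≤ ‖GG s‖ * (C1 * 2 ^ 10 / c * s.im ^ 10 * Real.exp (2 * ‖w‖)) +
        ‖GG s‖ * (s.im ^ 10 * Real.exp (2 * ‖w‖)) := by
        rw [norm_mul (GG s)]
        gcongr
    _ = _ := by ring

lemma left_pt {s w : ℂ} (hs : 0 < s.re) (hn : 2 * π ≤ ‖s‖) (hw : w.re ≤ 0) :
    ‖exp (w * ell s)‖ ≤ Real.exp (2 * ‖w‖) := by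
  rw [norm_exp, mul_re]
  apply Real.exp_le_exp.2
  have hre : 0 ≤ (ell s).re := by
    rw [ell_re, sub_nonneg]
    exact Real.log_le_log (by positivity) hn
  have him := ell_im_abs hs
  have h5 := neg_abs_le (w.im * (ell s).im)
  rw [abs_mul] at h5
  have h6 : |w.im| * |(ell s).im| ≤ ‖w‖ * 1.6 := by
    gcongr
    exact abs_im_le_norm w
  have h7 : w.re * (ell s).re ≤ 0 := mul_nonpos_of_nonpos_of_nonneg hw hre
  have := norm_nonneg w
  linarith

end Pool.Agent.Helper33.XD
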