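import Pool.Agent.Helper33.XD.Dir
import Pool.Agent.Helper33.XD.Gam

set_option autoImplicit false

namespace Pool.Agent.Helper33.XD

open Complex Filter Topology Set MeasureTheory MatrixGroups

lemma mellinConv (s : ℂ) : MellinConvergent fD s := by
  have h := ((CuspForm.isStrongFEPair (Γ := 𝒮ℒ) (k := 12) (by norm_num) CuspForm.discriminant).hasMellin s).1
  unfold MellinConvergent at h ⊢
  refine h.congr_fun (fun t ht => ?_) measurableSet_Ioi
  have ht' : (0 : ℝ) < t := ht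
  have h1 : (0 : ℝ) < (I * (t : ℂ)).im := by simpa using ht'
  simp only [ModularForm.weakFEPair, CuspForm.coe_discriminant]
  rw [UpperHalfPlane.ofComplex_apply_of_im_pos h1, fD_eq ht']
  rfl

lemma Lam_bdd : ∃ C : ℝ, 0 < C ∧ ∀ s : ℂ, 2 ≤ s.re → s.re ≤ 10 → ‖Lam s‖ ≤ C := by
  have h2 := (mellinConv 2).norm
  have h10 := (mellinConv 10).norm
  have hsum := h2.add h10
  refine ⟨(∫ t in Ioi (0 : ℝ), (‖(t : ℂ) ^ ((2 : ℂ) - 1) • fD t‖ + ‖(t : ℂ) ^ ((10 : ℂ) - 1) • fD t‖)) + 1,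
    ?_, fun s hs1 hs2 => ?_⟩
  · have : 0 ≤ ∫ t in Ioi (0 : ℝ), (‖(t : ℂ) ^ ((2 : ℂ) - 1) • fD t‖ + ‖(t : ℂ) ^ ((10 : ℂ) - 1) • fD t‖) :=
      integral_nonneg fun t => by positivity
    linarith
  · unfold Lam mellin
    refine le_trans (norm_integral_le_integral_norm _) ?_
    have : ∫ t in Ioi (0 : ℝ), ‖(t : ℂ) ^ (s - 1) • fD t‖ ≤
        ∫ t in Ioi (0 : ℝ), (‖(t : ℂ) ^ ((2 : ℂ) - 1) • fD t‖ + ‖(t : ℂ) ^ ((10 : ℂ) - 1) • fD t‖) := by
      refine setIntegral_mono_on (mellinConv s).norm hsum measurableSet_Ioi fun t ht => ?_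
      have ht' : (0 : ℝ) < t := ht
      simp only [norm_smul]
      rw [norm_cpow_eq_rpow_re_of_pos ht', norm_cpow_eq_rpow_re_of_pos ht',
        norm_cpow_eq_rpow_re_of_pos ht', ← add_mul]
      gcongr
      simp only [sub_re, one_re]
      norm_num
      rcases le_total t 1 with h | h
      · have h3 : t ^ (s.re - 1) ≤ t ^ (1 : ℝ) := Real.rpow_le_rpow_of_exponent_ge ht' h (by linarith)
        rw [Real.rpow_one] at h3
        have : 0 ≤ t ^ 9 := by positivity
        linarith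
      · have h3 : t ^ (s.re - 1) ≤ t ^ (9 : ℝ) := Real.rpow_le_rpow_of_exponent_le h (by linarith)
        have e : t ^ (9 : ℝ) = t ^ 9 := by norm_cast
        rw [e] at h3
        linarith
    linarith

lemma norm_twopi_cpow (s : ℂ) : ‖((2 * Real.pi : ℝ) : ℂ) ^ s‖ = (2 * Real.pi) ^ s.re :=
  norm_cpow_eq_rpow_re_of_pos (by positivity) _

/-- on the line `Re s = 10` -/
lemma Lam_ten : ∃ C : ℝ, 0 < C ∧ ∀ s : ℂ, s.re = 10 →
    ‖Lam s‖ ≤ C * (‖s‖ ^ 10 * Real.exp (-(Real.pi / 2 * |s.im|))) := by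
  obtain ⟨C1, hC1, hL⟩ := LL_bound
  obtain ⟨C0, hC0, hb⟩ := Lam_bdd
  have main : ∀ s : ℂ, s.re = 10 → 1 ≤ s.im →
      ‖Lam s‖ ≤ (4 * (1 + C1)) * (‖s‖ ^ 10 * Real.exp (-(Real.pi / 2 * |s.im|))) := by
    intro s hs ht
    have hre : 0 < s.re := by rw [hs]; norm_num
    rw [Lam_eq_mul hre, norm_mul]
    unfold GG
    rw [norm_mul, norm_twopi_cpow]
    have h1 := Gamma_upper hre ht
    rw [abs_of_pos (by linarith)]
    have hn1 : 1 ≤ ‖s‖ := ht.trans ((le_abs_self _).trans (abs_im_le_norm s))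
    have h2 : ‖s‖ ^ (s.re - 1 / 2) ≤ ‖s‖ ^ 10 := by
      rw [← Real.rpow_natCast]
      apply Real.rpow_le_rpow_of_exponent_le hn1
      rw [hs]
      norm_num
    have h3 : (2 * Real.pi) ^ (-s).re ≤ 1 := by
      apply Real.rpow_le_one_of_one_le_of_nonpos
      · have := Real.pi_gt_three; linarith
      · rw [neg_re, hs]; norm_num
    have h4 : ‖LL s‖ ≤ 1 + C1 := by
      have h5 := hL s (by rw [hs]; norm_num)
      have h6 : (2 : ℝ) ^ (-s.re) ≤ 1 := by
        apply Real.rpow_le_one_of_one_le_of_nonpos (by norm_num)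
        rw [hs]; norm_num
      have h7 := norm_sub_norm_le (LL s) 1
      rw [norm_one] at h7
      nlinarith
    calc (2 * Real.pi) ^ (-s).re * ‖Gamma s‖ * ‖LL s‖
        ≤ 1 * (4 * (‖s‖ ^ 10 * Real.exp (-(Real.pi / 2 * s.im)))) * (1 + C1) := by
          gcongr
          exact h1.trans (by gcongr)
      _ = _ := by ring
  refine ⟨4 * (1 + C1) + C0 * Real.exp (Real.pi / 2), by positivity, fun s hs => ?_⟩
  have hn10 : 1 ≤ ‖s‖ ^ 10 := by
    apply one_le_pow₀
    have := abs_re_le_norm s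
    rw [hs] at this
    norm_num at this
    linarith
  have hpos : 0 < Real.exp (-(Real.pi / 2 * |s.im|)) := Real.exp_pos _
  rcases le_or_gt 1 (|s.im|) with h | h
  · have key : ‖Lam s‖ ≤ (4 * (1 + C1)) * (‖s‖ ^ 10 * Real.exp (-(Real.pi / 2 * |s.im|))) := by
      rcases le_total 0 s.im with h0 | h0
      · rw [abs_of_nonneg h0] at h
        exact main s hs h
      · rw [abs_of_nonpos h0] at h
        have := main (starRingEnd ℂ s) (by simpa using hs) (by simpa using h)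
        rwa [Lam_conj, RCLike.norm_conj, RCLike.norm_conj, conj_im, abs_neg] at this
    refine key.trans ?_
    gcongr
    have : 0 ≤ C0 * Real.exp (Real.pi / 2) := by positivity
    linarith
  · have h1 := hb s (by rw [hs]; norm_num) (by rw [hs])
    refine h1.trans ?_
    have h2 : 1 ≤ Real.exp (Real.pi / 2) * Real.exp (-(Real.pi / 2 * |s.im|)) := by
      rw [← Real.exp_add]
      apply Real.one_le_exp
      have := Real.pi_pos
      nlinarith
    calc C0 = C0 * 1 := by ring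
      _ ≤ C0 * (‖s‖ ^ 10 * (Real.exp (Real.pi / 2) * Real.exp (-(Real.pi / 2 * |s.im|)))) := by
          gcongr
          nlinarith
      _ = (C0 * Real.exp (Real.pi / 2)) * (‖s‖ ^ 10 * Real.exp (-(Real.pi / 2 * |s.im|))) := by ring
      _ ≤ _ := by
          gcongr
          have : 0 ≤ 4 * (1 + C1) := by positivity
          linarith

lemma norm_s1_ge {s : ℂ} (h : 2 ≤ s.re) : 3 ≤ ‖s + 1‖ := by
  have := abs_re_le_norm (s + 1)
  rw [add_re, one_re, abs_of_nonneg (by linarith)] at this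
  linarith

/-- the bound in the strip -/
lemma Lam_strip : ∃ C : ℝ, 0 < C ∧ ∀ s : ℂ, 2 ≤ s.re → s.re ≤ 10 →
    ‖Lam s‖ ≤ C * (‖s + 1‖ ^ 10 * Real.exp (-(Real.pi / 2 * s.im))) := by
  obtain ⟨C1, hC1, hL⟩ := Lam_ten
  obtain ⟨C0, hC0, hb⟩ := Lam_bdd
  set g : ℂ → ℂ := fun s => Lam s * exp (-(I * (Real.pi / 2) * s)) / (s + 1) ^ 10 with hg
  have hexp : ∀ s : ℂ, ‖exp (-(I * (Real.pi / 2) * s))‖ = Real.exp (Real.pi / 2 * s.im) := by
    intro s
    rw [norm_exp]
    congr 1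
    have : -(I * (Real.pi / 2) * s) = -((Real.pi / 2 : ℝ) * (I * s)) := by push_cast; ring
    rw [this, neg_re, re_ofReal_mul, I_mul_re]
    ring
  have hgn : ∀ s : ℂ, ‖g s‖ = ‖Lam s‖ * Real.exp (Real.pi / 2 * s.im) / ‖s + 1‖ ^ 10 := by
    intro s
    rw [hg]
    simp only [norm_div, norm_mul, norm_pow, hexp]
  -- on the line ten
  have h10 : ∀ s : ℂ, s.re = 10 → ‖g s‖ ≤ C1 * 4 ^ 10 := by
    intro s hs
    rw [hgn]
    have h1 := hL s hs
    have h3 := norm_s1_ge (s := s) (by rw [hs]; norm_num)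
    rw [div_le_iff₀ (by positivity)]
    have h2 : Real.exp (-(Real.pi / 2 * |s.im|)) * Real.exp (Real.pi / 2 * s.im) ≤ 1 := by
      rw [← Real.exp_add, Real.exp_le_one_iff]
      have := Real.pi_pos
      have := le_abs_self s.im
      nlinarith
    have h4 : ‖s‖ ≤ 4 * ‖s + 1‖ := by
      have := norm_sub_le (s + 1) 1
      rw [norm_one, add_sub_cancel_right] at this
      linarith
    calc ‖Lam s‖ * Real.exp (Real.pi / 2 * s.im)
        ≤ (C1 * (‖s‖ ^ 10 * Real.exp (-(Real.pi / 2 * |s.im|)))) * Real.exp (Real.pi / 2 * s.im) := by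
          gcongr
      _ = C1 * ‖s‖ ^ 10 * (Real.exp (-(Real.pi / 2 * |s.im|)) * Real.exp (Real.pi / 2 * s.im)) := by ring
      _ ≤ C1 * (4 * ‖s + 1‖) ^ 10 * 1 := by gcongr
      _ = _ := by ring
  have h2 : ∀ s : ℂ, s.re = 2 → ‖g s‖ ≤ C1 * 4 ^ 10 := by
    intro s hs
    rw [hgn]
    have h1 := hL (12 - s) (by rw [sub_re, hs]; norm_num)
    rw [Lam_fe] at h1
    have h3 := norm_s1_ge (s := s) (by rw [hs])
    rw [div_le_iff₀ (by positivity)]
    have him : |(12 - s).im| = |s.im| := by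
      have : (12 - s).im = -s.im := by simp
      rw [this, abs_neg]
    rw [him] at h1
    have h2 : Real.exp (-(Real.pi / 2 * |s.im|)) * Real.exp (Real.pi / 2 * s.im) ≤ 1 := by
      rw [← Real.exp_add, Real.exp_le_one_iff]
      have := Real.pi_pos
      have := le_abs_self s.im
      nlinarith
    have h4 : ‖12 - s‖ ≤ 4 * ‖s + 1‖ := by
      have e : (12 - s : ℂ) = (10 : ℝ) + ((-(s.im) : ℝ)) * I := by
        apply Complex.ext
        · simp [hs]; norm_num
        · simp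
      have e2 : (s + 1 : ℂ) = (3 : ℝ) + ((s.im : ℝ)) * I := by
        apply Complex.ext
        · simp [hs]; norm_num
        · simp
      rw [e, e2]
      rw [← sq_le_sq₀ (norm_nonneg _) (by positivity), mul_pow, ← normSq_eq_norm_sq, ← normSq_eq_norm_sq,
        normSq_add_mul_I, normSq_add_mul_I]
      nlinarith [sq_nonneg s.im]
    calc ‖Lam s‖ * Real.exp (Real.pi / 2 * s.im)
        ≤ (C1 * (‖12 - s‖ ^ 10 * Real.exp (-(Real.pi / 2 * |s.im|)))) * Real.exp (Real.pi / 2 * s.im) := by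
          gcongr
      _ = C1 * ‖12 - s‖ ^ 10 * (Real.exp (-(Real.pi / 2 * |s.im|)) * Real.exp (Real.pi / 2 * s.im)) := by ring
      _ ≤ C1 * (4 * ‖s + 1‖) ^ 10 * 1 := by gcongr
      _ = _ := by ring
  refine ⟨C1 * 4 ^ 10, by positivity, fun s hs1 hs2 => ?_⟩
  have hne : ∀ z : ℂ, 2 ≤ z.re → (z + 1) ^ 10 ≠ 0 := by
    intro z hz h
    have := norm_s1_ge hz
    rw [pow_eq_zero_iff (by norm_num)] at h
    rw [h] at this
    simp at this
    linarith
  have hd : DiffContOnCl ℂ g (re ⁻¹' Ioo 2 10) := by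
    apply DifferentiableOn.diffContOnCl
    intro z hz
    have hz2 : 2 ≤ z.re := by
      have h5 : closure (re ⁻¹' Ioo (2 : ℝ) 10) ⊆ re ⁻¹' Icc 2 10 := by
        apply closure_minimal
        · exact preimage_mono Ioo_subset_Icc_self
        · exact isClosed_Icc.preimage continuous_re
      exact (h5 hz).1
    apply DifferentiableAt.differentiableWithinAt
    have h1 : DifferentiableAt ℂ (fun s : ℂ => Lam s * exp (-(I * (Real.pi / 2) * s))) z :=
      (differentiable_Lam z).mul (by fun_prop)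
    have h2 : DifferentiableAt ℂ (fun s : ℂ => (s + 1) ^ 10) z := by fun_prop
    exact h1.div h2 (hne z hz2)
  have key := PhragmenLindelof.vertical_strip (f := g) (a := 2) (b := 10) (C := C1 * 4 ^ 10) hd
    ⟨1 / 4, by
      have := Real.pi_gt_three
      rw [lt_div_iff₀ (by norm_num)]
      linarith, 10, by
      apply Asymptotics.IsBigO.of_bound C0
      rw [eventually_inf_principal]
      refine Eventually.of_forall fun z hz => ?_
      rw [hgn]
      have hz1 : 2 < z.re := hz.1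
      have hz2 : z.re < 10 := hz.2
      have h3 := norm_s1_ge hz1.le
      have h5 := hb z hz1.le hz2.le
      have h6 : Real.exp (Real.pi / 2 * z.im) ≤ Real.exp (10 * Real.exp (1 / 4 * |z.im|)) := by
        apply Real.exp_le_exp.2
        have h7 := Real.add_one_le_exp (1 / 4 * |z.im|)
        have h8 := Real.pi_lt_d2
        have h9 := le_abs_self z.im
        have h10 := abs_nonneg z.im
        have h11 := Real.pi_pos
        nlinarith
      have h12 : (1 : ℝ) ≤ ‖z + 1‖ ^ 10 := one_le_pow₀ (by linarith)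
      rw [Real.norm_of_nonneg (Real.exp_pos _).le, div_le_iff₀ (by positivity)]
      calc _ ≤ C0 * Real.exp (10 * Real.exp (1 / 4 * |z.im|)) := by gcongr
        _ ≤ C0 * Real.exp (10 * Real.exp (1 / 4 * |z.im|)) * ‖z + 1‖ ^ 10 :=
            le_mul_of_one_le_right (by positivity) h12⟩ h2 h10 hs1 hs2
  rw [hgn, div_le_iff₀ (by have := norm_s1_ge hs1; positivity)] at key
  have e : ‖Lam s‖ = (‖Lam s‖ * Real.exp (Real.pi / 2 * s.im)) * Real.exp (-(Real.pi / 2 * s.im)) := by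
    rw [mul_assoc, ← Real.exp_add]
    simp
  rw [e]
  calc _ ≤ (C1 * 4 ^ 10 * ‖s + 1‖ ^ 10) * Real.exp (-(Real.pi / 2 * s.im)) := by gcongr
    _ = _ := by ring

end Pool.Agent.Helper33.XD
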